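import Pool.Agent.H783.Hopf.Spec

/-!
# Matrices with positive real part
-/

set_option autoImplicit false

namespace Pool.Agent.H783.Sig

open Finset Pool.Agent.H783.Hopf
open scoped ComplexConjugate

variable {J : Type} [Fintype J]

/-- the sesquilinear value -/
noncomputable def sv (M : Matrix J J ℂ) (z : J → ℂ) : ℂ := ∑ j, conj (z j) * (M.mulVec z) j

/-- the square norm -/
noncomputable def nq (z : J → ℂ) : ℝ := ∑ j, ‖z j‖ ^ 2

theorem nq_nonneg (z : J → ℂ) : 0 ≤ nq z := Finset.sum_nonneg fun _ _ => sq_nonneg _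

/-- real part at least `p` -/
def Coer (M : Matrix J J ℂ) (p : ℝ) : Prop := ∀ z, p * nq z ≤ (sv M z).re

/-- Cauchy–Schwarz -/
theorem cs (z u : J → ℂ) : (∑ j, conj (z j) * u j).re ≤ Real.sqrt (nq z) * Real.sqrt (nq u) := by
  have h1 : (∑ j, conj (z j) * u j).re ≤ ‖∑ j, conj (z j) * u j‖ := Complex.re_le_norm _
  have h2 : ‖∑ j, conj (z j) * u j‖ ≤ ∑ j, ‖z j‖ * ‖u j‖ := by
    refine norm_sum_le_of_le _ fun j _ => ?_
    rw [norm_mul, RCLike.norm_conj]
  have h3 := Real.sum_mul_le_sqrt_mul_sqrt Finset.univ (fun j => ‖z j‖) (fun j => ‖u j‖)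
  exact h1.trans (h2.trans h3)

theorem Coer.le {M : Matrix J J ℂ} {p : ℝ} (hM : Coer M p) (hp : 0 < p) (z : J → ℂ) :
    p * Real.sqrt (nq z) ≤ Real.sqrt (nq (M.mulVec z)) := by
  have h1 := (hM z).trans (cs z (M.mulVec z))
  rcases (nq_nonneg z).eq_or_lt with h0 | h0
  · rw [← h0]
    simp
  · have h2 : 0 < Real.sqrt (nq z) := Real.sqrt_pos.2 h0
    have h3 : Real.sqrt (nq z) * Real.sqrt (nq z) = nq z := Real.mul_self_sqrt h0.le
    have h4 : Real.sqrt (nq z) * (p * Real.sqrt (nq z)) ≤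
        Real.sqrt (nq z) * Real.sqrt (nq (M.mulVec z)) := by
      calc Real.sqrt (nq z) * (p * Real.sqrt (nq z)) =
            p * (Real.sqrt (nq z) * Real.sqrt (nq z)) := by ring
        _ = p * nq z := by rw [h3]
        _ ≤ _ := h1
    exact le_of_mul_le_mul_left h4 h2

variable [DecidableEq J]

theorem Coer.inj {M : Matrix J J ℂ} {p : ℝ} (hM : Coer M p) (hp : 0 < p) : M.det ≠ 0 := by
  intro h0
  obtain ⟨z, hz, hMz⟩ := Matrix.exists_mulVec_eq_zero_iff.2 h0
  have h1 := hM.le hp z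
  rw [hMz] at h1
  have h2 : nq (0 : J → ℂ) = 0 := by simp [nq]
  rw [h2, Real.sqrt_zero] at h1
  have h3 : nq z = 0 := by
    have h4 : Real.sqrt (nq z) ≤ 0 := by
      by_contra hn
      push Not at hn
      have := mul_pos hp hn
      linarith
    have h5 := Real.sqrt_eq_zero'.1 (le_antisymm h4 (Real.sqrt_nonneg _))
    exact le_antisymm h5 (nq_nonneg z)
  apply hz
  funext j
  have h4 := (Finset.sum_eq_zero_iff_of_nonneg fun j _ => sq_nonneg ‖z j‖).1 h3 j
    (Finset.mem_univ j)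
  simpa using h4

theorem sv_sub (M N : Matrix J J ℂ) (z : J → ℂ) : sv (M - N) z = sv M z - sv N z := by
  unfold sv
  rw [← Finset.sum_sub_distrib]
  refine Finset.sum_congr rfl fun j _ => ?_
  rw [Matrix.sub_mulVec, Pi.sub_apply]
  ring

theorem sv_scalar (c : ℂ) (z : J → ℂ) : sv (Matrix.scalar J c) z = c * (nq z : ℂ) := by
  unfold sv nq
  push_cast
  rw [Finset.mul_sum]
  refine Finset.sum_congr rfl fun j _ => ?_
  have h1 : (Matrix.scalar J c).mulVec z = c • z := by
    simp [Matrix.scalar_apply, Matrix.mulVec_diagonal, funext_iff]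
  rw [h1, Pi.smul_apply, smul_eq_mul, ← Complex.conj_mul']
  ring

/-- the determinant is large -/
theorem Coer.det_le {M : Matrix J J ℂ} {p : ℝ} (hM : Coer M p) (hp : 0 < p) :
    p ^ Fintype.card J ≤ ‖M.det‖ := by
  rw [Matrix.det_eq_prod_roots_charpoly]
  have hcard : Multiset.card M.charpoly.roots = Fintype.card J := by
    rw [← Matrix.charpoly_natDegree_eq_dim M]
    exact (IsAlgClosed.splits M.charpoly).natDegree_eq_card_roots.symm
  have hroot : ∀ μ ∈ M.charpoly.roots, p ≤ ‖μ‖ := by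
    intro μ hμ
    have h1 : M.charpoly.eval μ = 0 := (Polynomial.mem_roots'.1 hμ).2
    rw [Matrix.eval_charpoly] at h1
    by_contra hn
    push Not at hn
    have h2 : Coer (M - Matrix.scalar J μ) (p - ‖μ‖) := by
      intro z
      rw [sv_sub, sv_scalar, Complex.sub_re]
      have h3 := hM z
      have h4 : (μ * (nq z : ℂ)).re ≤ ‖μ‖ * nq z := by
        rw [Complex.re_mul_ofReal]
        exact mul_le_mul_of_nonneg_right (Complex.re_le_norm μ) (nq_nonneg z)
      nlinarith
    refine h2.inj (by linarith) ?_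
    have h5 : M - Matrix.scalar J μ = -(Matrix.scalar J μ - M) := by abel
    rw [h5, Matrix.det_neg, h1, mul_zero]
  rw [← hcard]
  have h6 : ∀ s : Multiset ℂ, (∀ μ ∈ s, p ≤ ‖μ‖) → p ^ Multiset.card s ≤ ‖s.prod‖ := by
    intro s
    induction s using Multiset.induction_on with
    | empty => simp
    | cons a s ih =>
      intro h
      rw [Multiset.card_cons, Multiset.prod_cons, pow_succ', norm_mul]
      exact mul_le_mul (h a (Multiset.mem_cons_self a s))
        (ih fun μ hμ => h μ (Multiset.mem_cons_of_mem hμ)) (by positivity) (norm_nonneg _)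
  exact h6 _ hroot

/-- columns of a symmetric matrix with small quadratic form -/
theorem col_le {S : J → J → ℝ} (hS : ∀ i j, S i j = S j i) {τ : ℝ} (hτ : 0 < τ)
    (h : ∀ x : EuclideanSpace ℝ J, |qf S x| ≤ τ * ‖x‖ ^ 2) (i : J) :
    ∑ j, S j i ^ 2 ≤ τ ^ 2 := by
  classical
  set e : EuclideanSpace ℝ J := EuclideanSpace.single i 1 with he
  set y : EuclideanSpace ℝ J := WithLp.toLp 2 fun j => S j i with hy
  have hye : ‖e‖ = 1 := by simp [he]
  have hyn : ‖y‖ ^ 2 = ∑ j, S j i ^ 2 := by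
    rw [EuclideanSpace.norm_sq_eq]
    simp [hy]
  -- bilinearity
  have hq : ∀ s : ℝ, qf S (e + s • y) - qf S (e + (-s) • y) = 4 * s * ‖y‖ ^ 2 := by
    intro s
    have h1 : qf S (e + s • y) - qf S (e + (-s) • y) =
        2 * s * (∑ a, ∑ b, S a b * (e a * y b)) + 2 * s * (∑ a, ∑ b, S a b * (y a * e b)) := by
      unfold qf
      rw [Finset.mul_sum, Finset.mul_sum, ← Finset.sum_sub_distrib, ← Finset.sum_add_distrib]
      refine Finset.sum_congr rfl fun a _ => ?_
      rw [Finset.mul_sum, Finset.mul_sum, ← Finset.sum_sub_distrib, ← Finset.sum_add_distrib]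
      refine Finset.sum_congr rfl fun b _ => ?_
      simp only [PiLp.add_apply, PiLp.smul_apply, smul_eq_mul]
      ring
    have h2 : ∑ a, ∑ b, S a b * (e a * y b) = ‖y‖ ^ 2 := by
      rw [Finset.sum_eq_single i]
      · rw [hyn]
        refine Finset.sum_congr rfl fun b _ => ?_
        simp [he, hy, hS i b]
        ring
      · intro a _ ha
        refine Finset.sum_eq_zero fun b _ => ?_
        simp [he, ha]
      · intro hn
        exact absurd (Finset.mem_univ _) hn
    have h3 : ∑ a, ∑ b, S a b * (y a * e b) = ‖y‖ ^ 2 := by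
      rw [← h2, Finset.sum_comm]
      refine Finset.sum_congr rfl fun a _ => Finset.sum_congr rfl fun b _ => ?_
      rw [hS b a]
      ring
    rw [h1, h2, h3]
    ring
  have hpar : ∀ s : ℝ, ‖e + s • y‖ ^ 2 + ‖e + (-s) • y‖ ^ 2 = 2 * (1 + s ^ 2 * ‖y‖ ^ 2) := by
    intro s
    have h1 := parallelogram_law_with_norm ℝ e (s • y)
    have h2 : e + (-s) • y = e - s • y := by
      rw [neg_smul, sub_eq_add_neg]
    rw [h2]
    rw [norm_smul, hye] at h1
    rw [Real.norm_eq_abs] at h1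
    nlinarith [sq_abs s]
  have h1 := hq (1 / τ)
  have h2 := hpar (1 / τ)
  have h3 := h (e + (1 / τ) • y)
  have h4 := h (e + (-(1 / τ)) • y)
  have h5 := le_abs_self (qf S (e + (1 / τ) • y))
  have h6 := neg_abs_le (qf S (e + (-(1 / τ)) • y))
  have h7 : 4 * (1 / τ) * ‖y‖ ^ 2 ≤ τ * (2 * (1 + (1 / τ) ^ 2 * ‖y‖ ^ 2)) := by
    rw [← h1, ← h2]
    nlinarith
  have h8 : τ * (2 * (1 + (1 / τ) ^ 2 * ‖y‖ ^ 2)) = 2 * τ + 2 * (1 / τ) * ‖y‖ ^ 2 := by
    field_simp
  rw [h8] at h7
  rw [← hyn]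
  have h9 : (1 / τ) * ‖y‖ ^ 2 ≤ τ := by linarith
  rw [one_div, inv_mul_le_iff₀ hτ] at h9
  nlinarith

/-- the trace of the resolvent against a small symmetric matrix -/
theorem Coer.trace_le {M : Matrix J J ℂ} {p : ℝ} (hM : Coer M p) (hp : 0 < p)
    {S : J → J → ℝ} (hS : ∀ i j, S i j = S j i) {τ : ℝ} (hτ : 0 < τ)
    (h : ∀ x : EuclideanSpace ℝ J, |qf S x| ≤ τ * ‖x‖ ^ 2) :
    ‖(M⁻¹ * (Matrix.of fun i j => (S i j : ℂ))).trace‖ ≤ Fintype.card J * (τ / p) := by
  have hdet := hM.inj hp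
  have hu : IsUnit M.det := isUnit_iff_ne_zero.mpr hdet
  rw [Matrix.trace]
  have h1 : ∀ i : J, ‖(M⁻¹ * (Matrix.of fun i j => (S i j : ℂ))).diag i‖ ≤ τ / p := by
    intro i
    set u : J → ℂ := fun j => (S j i : ℂ) with hu'
    set z : J → ℂ := M⁻¹.mulVec u with hz
    have hMz : M.mulVec z = u := by
      rw [hz, Matrix.mulVec_mulVec, Matrix.mul_nonsing_inv M hu, Matrix.one_mulVec]
    have h2 : (M⁻¹ * (Matrix.of fun i j => (S i j : ℂ))).diag i = z i := by
      rw [Matrix.diag_apply, Matrix.mul_apply, hz]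
      rfl
    rw [h2]
    have h3 := hM.le hp z
    rw [hMz] at h3
    have h4 : nq u ≤ τ ^ 2 := by
      have := col_le hS hτ h i
      refine le_trans (le_of_eq ?_) this
      unfold nq
      refine Finset.sum_congr rfl fun j _ => ?_
      simp [hu', sq_abs]
    have h5 : Real.sqrt (nq u) ≤ τ := by
      rw [← Real.sqrt_sq hτ.le]
      exact Real.sqrt_le_sqrt h4
    have h6 : ‖z i‖ ≤ Real.sqrt (nq z) := by
      rw [← Real.sqrt_sq (norm_nonneg (z i))]
      refine Real.sqrt_le_sqrt ?_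
      exact Finset.single_le_sum (f := fun j => ‖z j‖ ^ 2) (fun j _ => sq_nonneg _)
        (Finset.mem_univ i)
    rw [le_div_iff₀ hp]
    nlinarith
  calc ‖∑ i, (M⁻¹ * (Matrix.of fun i j => (S i j : ℂ))).diag i‖ ≤ ∑ _i : J, τ / p :=
        norm_sum_le_of_le _ fun i _ => h1 i
    _ = Fintype.card J * (τ / p) := by
        rw [Finset.sum_const, Finset.card_univ, nsmul_eq_mul]

/-- the value of a complex combination of real symmetric matrices -/
theorem sv_real {S : J → J → ℝ} (hS : ∀ i j, S i j = S j i) (z : J → ℂ) :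
    sv (Matrix.of fun i j => (S i j : ℂ)) z =
      ((qf S (WithLp.toLp 2 fun j => (z j).re) + qf S (WithLp.toLp 2 fun j => (z j).im) : ℝ) : ℂ) := by
  have h1 : sv (Matrix.of fun i j => (S i j : ℂ)) z =
      ∑ i, ∑ j, (S i j : ℂ) * (conj (z i) * z j) := by
    unfold sv
    refine Finset.sum_congr rfl fun i _ => ?_
    simp only [Matrix.mulVec, dotProduct, Matrix.of_apply, Finset.mul_sum]
    refine Finset.sum_congr rfl fun j _ => ?_
    ring
  have h2 : ∑ i, ∑ j, S i j * ((z i).re * (z j).im - (z i).im * (z j).re) = 0 := by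
    have h3 : ∑ i, ∑ j, S i j * ((z i).re * (z j).im) = ∑ i, ∑ j, S i j * ((z i).im * (z j).re) := by
      rw [Finset.sum_comm]
      refine Finset.sum_congr rfl fun i _ => Finset.sum_congr rfl fun j _ => ?_
      rw [hS j i]
      ring
    simp only [mul_sub, Finset.sum_sub_distrib]
    rw [h3, sub_self]
  rw [h1]
  apply Complex.ext
  · rw [Complex.ofReal_re, Complex.re_sum]
    unfold qf
    rw [← Finset.sum_add_distrib]
    refine Finset.sum_congr rfl fun i _ => ?_
    rw [Complex.re_sum, ← Finset.sum_add_distrib]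
    refine Finset.sum_congr rfl fun j _ => ?_
    rw [Complex.re_ofReal_mul]
    simp
    ring
  · rw [Complex.ofReal_im, Complex.im_sum, ← h2]
    refine Finset.sum_congr rfl fun i _ => ?_
    rw [Complex.im_sum]
    refine Finset.sum_congr rfl fun j _ => ?_
    rw [Complex.im_ofReal_mul]
    simp
    left
    ring

end Pool.Agent.H783.Sig
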