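import Pool.Agent.H783.Sig.Stein
import Pool.Graph.R_seed8.Helper540.Holo
import Pool.Graph.R_seed8.HopfPinch.AnS1

/-!
# The transport operator on holomorphic functions of a tube
-/

set_option autoImplicit false

namespace Pool.Agent.H783.Sig

open MeasureTheory ProbabilityTheory Filter Topology

variable {E : Type} [NormedAddCommGroup E] [InnerProductSpace ℝ E] [FiniteDimensional ℝ E]
  [MeasurableSpace E] [BorelSpace E]
  {X : Type} [NormedAddCommGroup X] [NormedSpace ℂ X] [FiniteDimensional ℂ X]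

/-- the height function of a tube around the image of `Λ` -/
structure Tube (Λ : E →L[ℝ] X) (σ : X → ℝ) : Prop where
  nonneg : ∀ x, 0 ≤ σ x
  add : ∀ x y, σ (x + y) ≤ σ x + ‖y‖
  comb : ∀ (x : X) (g : E) (c : ℝ), σ ((c : ℂ) • x + Λ g) ≤ |c| * σ x

namespace Tube

variable {Λ : E →L[ℝ] X} {σ : X → ℝ}

theorem cont (hT : Tube Λ σ) : Continuous σ := by
  refine (LipschitzWith.of_le_add fun x y => ?_).continuous (K := 1)
  have h := hT.add y (x - y)
  rw [add_sub_cancel] at h
  rwa [dist_eq_norm]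

theorem isOpen (hT : Tube Λ σ) (r : ℝ) : IsOpen {x | σ x < r} :=
  isOpen_lt hT.cont continuous_const

theorem real (hT : Tube Λ σ) (g : E) : σ (Λ g) = 0 := by
  have h := hT.comb 0 g 0
  simp only [Complex.ofReal_zero, zero_smul, zero_add, abs_zero, zero_mul] at h
  exact le_antisymm h (hT.nonneg _)

end Tube

/-- holomorphic functions of the tube with a simple pole at the boundary at most -/
structure Cls (σ : X → ℝ) (r A : ℝ) (F : X → ℂ) : Prop where
  diff : DifferentiableOn ℂ F {x | σ x < r}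
  bound : ∀ x, σ x < r → ‖F x‖ ≤ A / (r - σ x)

variable {Λ : E →L[ℝ] X} {σ : X → ℝ} {r A s : ℝ} {F : X → ℂ}

theorem Cls.nonneg (hT : Tube Λ σ) (hr : 0 < r) (hF : Cls σ r A F) : 0 ≤ A := by
  have h0 : σ (Λ 0) = 0 := hT.real 0
  have h := (norm_nonneg _).trans (hF.bound (Λ 0) (by rw [h0]; exact hr))
  rw [h0, sub_zero] at h
  by_contra hn
  push Not at hn
  have := div_neg_of_neg_of_pos hn hr
  linarith

/-- the Cauchy estimate -/
theorem Cls.fderiv_le (hT : Tube Λ σ) (hr : 0 < r) (hF : Cls σ r A F) (hs : 0 ≤ s) {y v : X}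
    (hy : σ y < r) (hv : ‖v‖ ≤ s) : ‖fderiv ℂ F y v‖ ≤ 4 * s * A / (r - σ y) ^ 2 := by
  have hA := hF.nonneg hT hr
  have hd : 0 < r - σ y := by linarith
  rcases hs.eq_or_lt with h0 | h0
  · have hv0 : v = 0 := norm_le_zero_iff.1 (by rw [h0]; exact hv)
    rw [hv0, map_zero, norm_zero, ← h0]
    simp
  · set R : ℝ := (r - σ y) / (2 * s) with hR
    have hR0 : 0 < R := by positivity
    have hin : ∀ ζ : ℂ, ‖ζ‖ ≤ R → σ (y + ζ • v) ≤ σ y + (r - σ y) / 2 := by
      intro ζ hζ
      refine (hT.add _ _).trans ?_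
      rw [norm_smul]
      have h1 : ‖ζ‖ * ‖v‖ ≤ R * s := mul_le_mul hζ hv (norm_nonneg _) hR0.le
      have h2 : R * s = (r - σ y) / 2 := by
        rw [hR]
        field_simp
      linarith
    have hda : ∀ ζ : ℂ, ‖ζ‖ ≤ R → DifferentiableAt ℂ (fun ζ : ℂ => F (y + ζ • v)) ζ := by
      intro ζ hζ
      have h1 : σ (y + ζ • v) < r := by
        have := hin ζ hζ
        linarith
      have h2 : DifferentiableAt ℂ F (y + ζ • v) :=
        hF.diff.differentiableAt ((hT.isOpen r).mem_nhds h1)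
      have h3 : DifferentiableAt ℂ (fun ζ : ℂ => y + ζ • v) ζ := by fun_prop
      exact h2.comp ζ h3
    have hcl : DiffContOnCl ℂ (fun ζ : ℂ => F (y + ζ • v)) (Metric.ball 0 R) := by
      refine DifferentiableOn.diffContOnCl ?_
      intro ζ hζ
      rw [closure_ball _ hR0.ne'] at hζ
      exact (hda ζ (by simpa using hζ)).differentiableWithinAt
    have hb : ∀ ζ ∈ Metric.sphere (0 : ℂ) R, ‖F (y + ζ • v)‖ ≤ 2 * A / (r - σ y) := by
      intro ζ hζ
      have hζ' : ‖ζ‖ ≤ R := by
        rw [mem_sphere_zero_iff_norm] at hζ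
        exact hζ.le
      have h1 := hin ζ hζ'
      have h2 : σ (y + ζ • v) < r := by linarith
      refine (hF.bound _ h2).trans ?_
      have h3 : (r - σ y) / 2 ≤ r - σ (y + ζ • v) := by linarith
      calc A / (r - σ (y + ζ • v)) ≤ A / ((r - σ y) / 2) :=
            div_le_div_of_nonneg_left hA (by positivity) h3
        _ = 2 * A / (r - σ y) := by
            field_simp
    have h4 := Complex.norm_deriv_le_of_forall_mem_sphere_norm_le hR0 hcl hb
    have h5 : deriv (fun ζ : ℂ => F (y + ζ • v)) 0 = fderiv ℂ F y v := by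
      have h6 : DifferentiableAt ℂ F (y + (0 : ℂ) • v) :=
        hF.diff.differentiableAt ((hT.isOpen r).mem_nhds (by simpa using hy))
      have h7 : HasDerivAt (fun ζ : ℂ => y + ζ • v) v 0 := by
        have := ((hasDerivAt_id (0 : ℂ)).smul_const v).const_add y
        simpa using this
      have h8 := h6.hasFDerivAt.comp_hasDerivAt (0 : ℂ) h7
      have h9 := h8.deriv
      simpa [Function.comp_def] using h9
    rw [h5] at h4
    refine h4.trans (le_of_eq ?_)
    rw [hR]
    field_simp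
    ring

/-- the transport operator -/
noncomputable def KK (Λ : E →L[ℝ] X) (V : X → X) (F : X → ℂ) (x : X) : ℂ :=
  ∫ p : ℝ × E, (Real.sin p.1 : ℂ) *
    fderiv ℂ F ((Real.cos p.1 : ℂ) • x + Λ (Real.sin p.1 • p.2)) (V x)
      ∂((volume.restrict (Set.Icc 0 (Real.pi / 2))).prod (gm E))

/-- the argument of the derivative stays in the tube -/
theorem Tube.arg (hT : Tube Λ σ) (x : X) (θ : ℝ) (g : E) :
    σ ((Real.cos θ : ℂ) • x + Λ g) ≤ |Real.cos θ| * σ x := hT.comb x g _

theorem Tube.arg_lt (hT : Tube Λ σ) {x : X} (hx : σ x < r) (θ : ℝ) (g : E) :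
    σ ((Real.cos θ : ℂ) • x + Λ g) < r := by
  refine (hT.arg x θ g).trans_lt (lt_of_le_of_lt ?_ hx)
  have := Real.abs_cos_le_one θ
  have := hT.nonneg x
  nlinarith

theorem Cls.fderiv_diff (hT : Tube Λ σ) (hF : Cls σ r A F) :
    DifferentiableOn ℂ (fderiv ℂ F) {x | σ x < r} := by
  have h1 := Pool.Agent.Helper540.contDiffOn_of_differentiableOn (hT.isOpen r) hF.diff 2
  exact ((h1.fderiv_of_isOpen (hT.isOpen r) (m := 1) (by norm_num)).differentiableOn
    (by norm_num))

/-- continuity of the integrand in the pair -/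
theorem Cls.integrand_cont (hT : Tube Λ σ) (hF : Cls σ r A F) (V : X → X) {x : X} (hx : σ x < r) :
    Continuous fun p : ℝ × E => (Real.sin p.1 : ℂ) *
      fderiv ℂ F ((Real.cos p.1 : ℂ) • x + Λ (Real.sin p.1 • p.2)) (V x) := by
  have h1 : Continuous fun p : ℝ × E => (Real.cos p.1 : ℂ) • x + Λ (Real.sin p.1 • p.2) := by
    fun_prop
  have h2 : Continuous fun p : ℝ × E =>
      fderiv ℂ F ((Real.cos p.1 : ℂ) • x + Λ (Real.sin p.1 • p.2)) := by
    refine continuous_iff_continuousAt.2 fun p => ?_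
    have h3 := (hF.fderiv_diff hT).continuousOn.continuousAt
      ((hT.isOpen r).mem_nhds (hT.arg_lt hx p.1 (Real.sin p.1 • p.2)))
    exact ContinuousAt.comp h3 h1.continuousAt
  have h4 : Continuous fun p : ℝ × E => (Real.sin p.1 : ℂ) := by fun_prop
  exact h4.mul (h2.clm_apply continuous_const)

/-- the bound of the integrand -/
theorem Cls.integrand_le (hT : Tube Λ σ) (hr : 0 < r) (hF : Cls σ r A F) (hs : 0 ≤ s) {V : X → X}
    (hV : ∀ x, σ x < r → ‖V x‖ ≤ s) {x : X} (hx : σ x < r) (p : ℝ × E) :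
    ‖(Real.sin p.1 : ℂ) *
      fderiv ℂ F ((Real.cos p.1 : ℂ) • x + Λ (Real.sin p.1 • p.2)) (V x)‖ ≤
      |Real.sin p.1| * (4 * s * A / (r - |Real.cos p.1| * σ x) ^ 2) := by
  have hA := hF.nonneg hT hr
  rw [norm_mul, Complex.norm_real, Real.norm_eq_abs]
  refine mul_le_mul_of_nonneg_left ?_ (abs_nonneg _)
  have h1 := hT.arg x p.1 (Real.sin p.1 • p.2)
  have h2 := hT.arg_lt hx p.1 (Real.sin p.1 • p.2)
  refine (hF.fderiv_le hT hr hs h2 (hV x hx)).trans ?_
  have h3 : |Real.cos p.1| * σ x < r := by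
    refine lt_of_le_of_lt ?_ hx
    have := Real.abs_cos_le_one p.1
    have := hT.nonneg x
    nlinarith
  refine div_le_div_of_nonneg_left (by positivity) (by have := sub_pos.2 h3; positivity) ?_
  refine pow_le_pow_left₀ (by linarith) (by linarith) 2

instance : IsFiniteMeasure (volume.restrict (Set.Icc 0 (Real.pi / 2)) : Measure ℝ) :=
  ⟨by rw [Measure.restrict_apply MeasurableSet.univ, Set.univ_inter]; exact measure_Icc_lt_top⟩

/-- the elementary integral -/
theorem int_pole {ρ : ℝ} (hρ : 0 ≤ ρ) (hρr : ρ < r) :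
    ∫ θ in Set.Icc 0 (Real.pi / 2), Real.sin θ / (r - Real.cos θ * ρ) ^ 2 =
      1 / (r * (r - ρ)) := by
  have hr : 0 < r := lt_of_le_of_lt hρ hρr
  have hpos : ∀ θ : ℝ, 0 < r - Real.cos θ * ρ := by
    intro θ
    have := Real.cos_le_one θ
    nlinarith
  have hπ := Real.pi_pos
  rw [integral_Icc_eq_integral_Ioc, ← intervalIntegral.integral_of_le (by positivity)]
  have hder : ∀ θ : ℝ, HasDerivAt (fun θ => -(Real.cos θ / (r * (r - Real.cos θ * ρ))))
      (Real.sin θ / (r - Real.cos θ * ρ) ^ 2) θ := by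
    intro θ
    have h1 : HasDerivAt (fun θ => r * (r - Real.cos θ * ρ)) (r * (Real.sin θ * ρ)) θ := by
      have h2 := (((Real.hasDerivAt_cos θ).mul_const ρ).const_sub r).const_mul r
      exact h2.congr_deriv (by ring)
    have h3 := ((Real.hasDerivAt_cos θ).div h1 (mul_pos hr (hpos θ)).ne').neg
    refine h3.congr_deriv ?_
    have h4 := (hpos θ).ne'
    field_simp
    ring
  rw [intervalIntegral.integral_eq_sub_of_hasDerivAt (fun θ _ => hder θ)]
  · simp only [Real.cos_pi_div_two, Real.cos_zero, zero_mul, sub_zero, zero_div, neg_zero, one_mul]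
    ring
  · refine Continuous.intervalIntegrable ?_ _ _
    refine Continuous.div (by fun_prop) (by fun_prop) fun θ => (pow_pos (hpos θ) 2).ne'

/-- **The contraction estimate.** -/
theorem KK_cls (hT : Tube Λ σ) (hr : 0 < r) (hF : Cls σ r A F) (hs : 0 ≤ s) {V : X → X}
    (hVd : DifferentiableOn ℂ V {x | σ x < r}) (hV : ∀ x, σ x < r → ‖V x‖ ≤ s) :
    Cls σ r (4 * s / r * A) (KK Λ V F) := by
  have hA := hF.nonneg hT hr
  constructor
  · intro x₀ hx₀
    obtain ⟨ρ₀, h1, h2⟩ := exists_between (show σ x₀ < r from hx₀)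
    have hρ₀ : 0 ≤ ρ₀ := (hT.nonneg x₀).trans h1.le
    have hO := hT.isOpen ρ₀
    have hsub : ∀ x, σ x < ρ₀ → σ x < r := fun x hx => hx.trans h2
    have h3 := Pool.Agent.HP.differentiableOn_integral
      ((volume.restrict (Set.Icc 0 (Real.pi / 2))).prod (gm E))
      (fun (p : ℝ × E) x => (Real.sin p.1 : ℂ) *
        fderiv ℂ F ((Real.cos p.1 : ℂ) • x + Λ (Real.sin p.1 • p.2)) (V x))
      {x | σ x < ρ₀} hO (fun x hx => (hF.integrand_cont hT V (hsub x hx)).aestronglyMeasurable)
      (fun p => ?_) (fun _ => 4 * s * A / (r - ρ₀) ^ 2) (integrable_const _) (fun p x hx => ?_)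
    · exact (h3.differentiableAt (hO.mem_nhds h1)).differentiableWithinAt
    · intro x hx
      have h4 : DifferentiableAt ℂ (fderiv ℂ F)
          ((Real.cos p.1 : ℂ) • x + Λ (Real.sin p.1 • p.2)) :=
        (hF.fderiv_diff hT).differentiableAt
          ((hT.isOpen r).mem_nhds (hT.arg_lt (hsub x hx) p.1 (Real.sin p.1 • p.2)))
      have h5 : DifferentiableAt ℂ
          (fun x : X => (Real.cos p.1 : ℂ) • x + Λ (Real.sin p.1 • p.2)) x := by fun_prop
      have h6 : DifferentiableAt ℂ (fun x : X => fderiv ℂ F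
          ((Real.cos p.1 : ℂ) • x + Λ (Real.sin p.1 • p.2))) x := h4.comp x h5
      have h7 : DifferentiableAt ℂ V x :=
        hVd.differentiableAt ((hT.isOpen r).mem_nhds (hsub x hx))
      exact ((h6.clm_apply h7).const_mul _).differentiableWithinAt
    · refine (hF.integrand_le hT hr hs hV (hsub x hx) p).trans ?_
      have hx' : σ x < ρ₀ := hx
      have h8 : |Real.cos p.1| * σ x ≤ ρ₀ := by
        have := Real.abs_cos_le_one p.1
        have := hT.nonneg x
        have := abs_nonneg (Real.cos p.1)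
        nlinarith
      have h9 : 4 * s * A / (r - |Real.cos p.1| * σ x) ^ 2 ≤ 4 * s * A / (r - ρ₀) ^ 2 := by
        refine div_le_div_of_nonneg_left (by positivity) (pow_pos (sub_pos.2 h2) 2) ?_
        exact pow_le_pow_left₀ (sub_pos.2 h2).le (by linarith) 2
      have h10 := Real.abs_sin_le_one p.1
      have h11 : 0 ≤ 4 * s * A / (r - |Real.cos p.1| * σ x) ^ 2 := by positivity
      nlinarith [abs_nonneg (Real.sin p.1)]
  · intro x hx
    have hx0 := hT.nonneg x
    have h1 : ‖KK Λ V F x‖ ≤ ∫ p : ℝ × E, |Real.sin p.1| *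
        (4 * s * A / (r - |Real.cos p.1| * σ x) ^ 2)
          ∂((volume.restrict (Set.Icc 0 (Real.pi / 2))).prod (gm E)) := by
      unfold KK
      refine norm_integral_le_of_norm_le ?_
        (Eventually.of_forall fun p => hF.integrand_le hT hr hs hV hx p)
      have h2 : Continuous fun p : ℝ × E => |Real.sin p.1| *
          (4 * s * A / (r - |Real.cos p.1| * σ x) ^ 2) := by
        refine Continuous.mul (by fun_prop) (Continuous.div (by fun_prop) (by fun_prop) ?_)
        intro p
        have := Real.abs_cos_le_one p.1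
        have : 0 < r - |Real.cos p.1| * σ x := by nlinarith
        positivity
      refine Integrable.mono' (g := fun _ => 4 * s * A / (r - σ x) ^ 2) (integrable_const _)
        h2.aestronglyMeasurable (Eventually.of_forall fun p => ?_)
      have h3 := Real.abs_cos_le_one p.1
      have h4 : 0 < r - |Real.cos p.1| * σ x := by nlinarith
      have h5 : 4 * s * A / (r - |Real.cos p.1| * σ x) ^ 2 ≤ 4 * s * A / (r - σ x) ^ 2 := by
        refine div_le_div_of_nonneg_left (by positivity) (pow_pos (sub_pos.2 hx) 2) ?_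
        exact pow_le_pow_left₀ (sub_pos.2 hx).le (by nlinarith) 2
      have h10 := Real.abs_sin_le_one p.1
      have h11 : 0 ≤ 4 * s * A / (r - |Real.cos p.1| * σ x) ^ 2 := by positivity
      rw [Real.norm_of_nonneg (by positivity)]
      nlinarith [abs_nonneg (Real.sin p.1)]
    refine h1.trans (le_of_eq ?_)
    rw [integral_fun_fst (μ := volume.restrict (Set.Icc 0 (Real.pi / 2))) (ν := gm E)
      (fun θ : ℝ => |Real.sin θ| * (4 * s * A / (r - |Real.cos θ| * σ x) ^ 2))]
    have h2 : ∫ θ in Set.Icc 0 (Real.pi / 2), |Real.sin θ| *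
        (4 * s * A / (r - |Real.cos θ| * σ x) ^ 2) =
        ∫ θ in Set.Icc 0 (Real.pi / 2), 4 * s * A * (Real.sin θ / (r - Real.cos θ * σ x) ^ 2) := by
      refine setIntegral_congr_fun measurableSet_Icc fun θ hθ => ?_
      have h3 : 0 ≤ Real.sin θ := Real.sin_nonneg_of_nonneg_of_le_pi hθ.1
        (by linarith [hθ.2, Real.pi_pos])
      have h4 : 0 ≤ Real.cos θ := Real.cos_nonneg_of_neg_pi_div_two_le_of_le
        (by linarith [hθ.1, Real.pi_pos]) hθ.2
      rw [abs_of_nonneg h3, abs_of_nonneg h4]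
      ring
    rw [h2, integral_const_mul, int_pole hx0 hx]
    simp only [probReal_univ, one_smul]
    have h5 := (sub_pos.2 hx).ne'
    field_simp

end Pool.Agent.H783.Sig
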