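import Pool.Agent.H783.Sig.Pw

/-!
# The double alternating form of `∑ ± B_k ⊗ B_k` when one form dominates
-/

set_option autoImplicit false

namespace Pool.Agent.H783.Sig

open Finset Pool.Agent.H783.Hopf MeasureTheory ProbabilityTheory Metric
open Pool.Agent.Y489.SM (Sy FF FF_sy FF_poly Yf_sum)
open Pool.Agent.W666.GB (sn MD Yf)

section split

variable {ι₁ ι₂ : Type} [Fintype ι₁] [Fintype ι₂]

/-- splitting of the Gaussian measure -/
theorem gp_split {f : (ι₁ ⊕ ι₂ → ℝ) → ℝ} (hf : Integrable f (gp (ι₁ ⊕ ι₂))) :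
    Integrable (fun u : ι₁ → ℝ => ∫ v : ι₂ → ℝ, f (Sum.elim u v) ∂(gp ι₂)) (gp ι₁) ∧
    ∫ ζ, f ζ ∂(gp (ι₁ ⊕ ι₂)) =
      ∫ u : ι₁ → ℝ, ∫ v : ι₂ → ℝ, f (Sum.elim u v) ∂(gp ι₂) ∂(gp ι₁) := by
  have h1 := measurePreserving_sumPiEquivProdPi_symm (X := fun _ : ι₁ ⊕ ι₂ => ℝ)
    (fun _ => gaussianReal 0 1)
  have h2 : ∀ p : (ι₁ → ℝ) × (ι₂ → ℝ), (MeasurableEquiv.sumPiEquivProdPi
      (fun _ : ι₁ ⊕ ι₂ => ℝ)).symm p = Sum.elim p.1 p.2 := by
    intro p
    funext s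
    cases s <;> rfl
  have h3 : Integrable (fun p : (ι₁ → ℝ) × (ι₂ → ℝ) => f (Sum.elim p.1 p.2))
      ((gp ι₁).prod (gp ι₂)) := by
    have h4 := (h1.integrable_comp_emb (MeasurableEquiv.measurableEmbedding _)).2 hf
    refine h4.congr (Filter.Eventually.of_forall fun p => ?_)
    simp only [Function.comp_apply, h2]
  refine ⟨h3.integral_prod_left, ?_⟩
  rw [← integral_prod _ h3]
  have h5 := h1.integral_comp (MeasurableEquiv.measurableEmbedding _) f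
  rw [show ∫ ζ, f ζ ∂(gp (ι₁ ⊕ ι₂)) = _ from h5.symm]
  refine integral_congr_ae (Filter.Eventually.of_forall fun p => ?_)
  simp only [h2]

end split

theorem numbers {m : ℕ} (hm : 1 ≤ m) :
    (9 ^ m + 1) * (4 ^ m * (2 / 3 * (64 * (1 / 1000 : ℝ) ^ 2) ^ m) +
      (1024 * (1 / 1000 : ℝ) ^ 2) ^ m) + 9 ^ m * (4 / 3 * (64 * (1 / 1000 : ℝ) ^ 2) ^ m) ≤
      1 / 4 * (1 / 16) ^ m := by
  have p1 : (9 : ℝ) ^ m * 4 ^ m * (64 * (1 / 1000 : ℝ) ^ 2) ^ m =
      (1 / 16) ^ m * (36864 / 1000000) ^ m := by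
    rw [← mul_pow, ← mul_pow, ← mul_pow]
    congr 1
    norm_num
  have p2 : (9 : ℝ) ^ m * (1024 * (1 / 1000 : ℝ) ^ 2) ^ m =
      (1 / 16) ^ m * (147456 / 1000000) ^ m := by
    rw [← mul_pow, ← mul_pow]
    congr 1
    norm_num
  have p3 : (9 : ℝ) ^ m * (64 * (1 / 1000 : ℝ) ^ 2) ^ m =
      (1 / 16) ^ m * (9216 / 1000000) ^ m := by
    rw [← mul_pow, ← mul_pow]
    congr 1
    norm_num
  have q : ∀ c : ℝ, 0 ≤ c → c ≤ 1 → c ^ m ≤ c := fun c h0 h1 =>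
    pow_le_of_le_one h0 h1 (by omega)
  have q1 := q (36864 / 1000000) (by norm_num) (by norm_num)
  have q2 := q (147456 / 1000000) (by norm_num) (by norm_num)
  have q3 := q (9216 / 1000000) (by norm_num) (by norm_num)
  have h9 : (9 : ℝ) ≤ 9 ^ m := by
    calc (9 : ℝ) = 9 ^ 1 := (pow_one _).symm
      _ ≤ 9 ^ m := pow_le_pow_right₀ (by norm_num) hm
  have ha : (0 : ℝ) < (1 / 16) ^ m := by positivity
  have hX : (0 : ℝ) ≤ 4 ^ m * (2 / 3 * (64 * (1 / 1000 : ℝ) ^ 2) ^ m) +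
      (1024 * (1 / 1000 : ℝ) ^ 2) ^ m := by positivity
  have h1 : (9 ^ m + 1) * (4 ^ m * (2 / 3 * (64 * (1 / 1000 : ℝ) ^ 2) ^ m) +
      (1024 * (1 / 1000 : ℝ) ^ 2) ^ m) ≤ 10 / 9 * 9 ^ m *
        (4 ^ m * (2 / 3 * (64 * (1 / 1000 : ℝ) ^ 2) ^ m) + (1024 * (1 / 1000 : ℝ) ^ 2) ^ m) :=
    mul_le_mul_of_nonneg_right (by linarith) hX
  have h2 : 10 / 9 * (9 : ℝ) ^ m *
        (4 ^ m * (2 / 3 * (64 * (1 / 1000 : ℝ) ^ 2) ^ m) + (1024 * (1 / 1000 : ℝ) ^ 2) ^ m) =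
      20 / 27 * ((1 / 16) ^ m * (36864 / 1000000) ^ m) +
        10 / 9 * ((1 / 16) ^ m * (147456 / 1000000) ^ m) := by
    rw [← p1, ← p2]
    ring
  have h3 : (9 : ℝ) ^ m * (4 / 3 * (64 * (1 / 1000 : ℝ) ^ 2) ^ m) =
      4 / 3 * ((1 / 16) ^ m * (9216 / 1000000) ^ m) := by
    rw [← p3]
    ring
  rw [h3]
  refine (add_le_add_left (h1.trans (le_of_eq h2)) _).trans ?_
  nlinarith [mul_le_mul_of_nonneg_left q1 ha.le, mul_le_mul_of_nonneg_left q2 ha.le,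
    mul_le_mul_of_nonneg_left q3 ha.le]

section assembly

variable {K₁ K₂ : Type} [Fintype K₁] [DecidableEq K₁] [Fintype K₂] [DecidableEq K₂] {m : ℕ}

/-- the square roots of the signs -/
noncomputable def om : Option K₁ ⊕ K₂ → ℂ := Sum.elim (fun _ => 1) fun _ => Complex.I

/-- the signs -/
def wt : Option K₁ ⊕ K₂ → ℝ := Sum.elim (fun _ => 1) fun _ => -1

omit [Fintype K₁] [DecidableEq K₁] [Fintype K₂] [DecidableEq K₂] in
theorem om_sq (k : Option K₁ ⊕ K₂) : om k ^ 2 = (wt k : ℂ) := by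
  cases k with
  | inl o => simp [om, wt]
  | inr q => simp [om, wt]

omit [DecidableEq K₁] [DecidableEq K₂] in
theorem Yf_FF (B : Option K₁ ⊕ K₂ → Fin m × Bool → Fin m × Bool → ℝ) :
    Yf (fun a b c d => ∑ k, wt k * (B k a b * B k c d)) =
      ∑ α : Fin m → Option K₁ ⊕ K₂, FF om B (fun x => α x.1) := by
  rw [Yf_sum]
  refine Finset.sum_congr rfl fun α _ => ?_
  unfold FF
  congr 1
  have h1 : ∏ j : Fin m × Bool, om (α j.1) = ((∏ b, wt (α b) : ℝ) : ℂ) := by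
    rw [Fintype.prod_prod_type]
    push_cast
    refine Finset.prod_congr rfl fun b _ => ?_
    rw [Fintype.prod_bool, ← om_sq, sq]
  rw [h1, Complex.ofReal_re]

/-- the family with a zero form added -/
def opt0 (h : K₁ → Fin m × Bool → Fin m × Bool → ℝ) (o : Option K₁) (i j : Fin m × Bool) : ℝ :=
  o.elim 0 fun k => h k i j

/-- **The double alternating form from below.** -/
theorem Yf_signed (hm : 1 ≤ m) (B : Option K₁ ⊕ K₂ → Fin m × Bool → Fin m × Bool → ℝ)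
    (h₁ : K₁ → Fin m × Bool → Fin m × Bool → ℝ) (h₂ : K₂ → Fin m × Bool → Fin m × Bool → ℝ)
    (hs₁ : ∀ k i j, h₁ k i j = h₁ k j i) (hs₂ : ∀ k i j, h₂ k i j = h₂ k j i) {D : ℝ}
    (hD : 0 ≤ D)
    (hdet : ∀ ζ : Option K₁ ⊕ K₂ → ℝ,
      (Matrix.of fun i j => ∑ k, (ζ k : ℂ) * om k * (B k i j : ℂ)).det =
        (D : ℂ) * wP (sh (ζ (Sum.inl none)) fun i j => ∑ k, ζ (Sum.inl (some k)) * h₁ k i j) h₂
          (WithLp.toLp 2 fun q => ζ (Sum.inr q)))
    (hb₁ : ∀ x : EuclideanSpace ℝ (Fin m × Bool),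
      ∑ k, qf (h₁ k) x ^ 2 ≤ (1 / 1000 * ‖x‖ ^ 2) ^ 2)
    (hb₂ : ∀ x : EuclideanSpace ℝ (Fin m × Bool),
      ∑ k, qf (h₂ k) x ^ 2 ≤ (1 / 1000 * ‖x‖ ^ 2) ^ 2) :
    (2 * m).factorial * (D * (1 / 4 * (1 / 16) ^ m)) ≤
      Yf (fun a b c d => ∑ k, wt k * (B k a b * B k c d)) := by
  have hmo := mo_pos m
  -- the Gaussian mean
  have h1 := mean_form m hm (FF om B) (FF_sy om B)
  rw [← Yf_FF] at h1
  set f : (Option K₁ ⊕ K₂ → ℝ) → ℝ := fun ζ =>
    (wP (sh (ζ (Sum.inl none)) fun i j => ∑ k, ζ (Sum.inl (some k)) * h₁ k i j) h₂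
      (WithLp.toLp 2 fun q => ζ (Sum.inr q))).re with hf
  have h2 : ∀ ζ : Option K₁ ⊕ K₂ → ℝ, ∑ β : Fin m × Bool → Option K₁ ⊕ K₂,
      (∏ j, ζ (β j)) * FF om B β = (2 * m).factorial * (D * f ζ) := by
    intro ζ
    rw [FF_poly, hdet, Complex.re_ofReal_mul, card_J]
  rcases hD.eq_or_lt with hD0 | hD0
  · -- degenerate
    simp only [h2, ← hD0, zero_mul, mul_zero, integral_zero] at h1 ⊢
    have h3 : Yf (fun a b c d => ∑ k, wt k * (B k a b * B k c d)) = 0 := by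
      rcases mul_eq_zero.1 h1.symm with h | h
      · exact absurd h hmo.ne'
      · exact h
    rw [h3]
  have hN : (0 : ℝ) < (2 * m).factorial := by positivity
  have hfi : Integrable f (gp (Option K₁ ⊕ K₂)) := by
    have h3 := int_form (ι := Option K₁ ⊕ K₂) (J := Fin m × Bool) (FF om B)
    simp only [h2] at h3
    have h4 := (h3.const_mul (((2 * m).factorial : ℝ)⁻¹)).const_mul D⁻¹
    refine h4.congr (Filter.Eventually.of_forall fun ζ => ?_)
    beta_reduce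
    rw [inv_mul_cancel_left₀ hN.ne', inv_mul_cancel_left₀ hD0.ne']
  obtain ⟨hi, hsplit⟩ := gp_split hfi
  have h3 : mo (2 * m) * Yf (fun a b c d => ∑ k, wt k * (B k a b * B k c d)) =
      (2 * m).factorial * (D * ∫ ζ, f ζ ∂(gp (Option K₁ ⊕ K₂))) := by
    rw [← h1]
    simp only [h2, integral_const_mul]
  rw [hsplit] at h3
  -- the means of the majorants
  have he₁ := bb_mean (K := Option K₁) (h := opt0 h₁) (τ := 1 / 1000) hm (by
    intro x
    rw [Fintype.sum_option]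
    have h4 : qf (opt0 h₁ none) x = 0 := by
      unfold qf opt0
      simp
    have h5 : ∀ k, qf (opt0 h₁ (some k)) x = qf (h₁ k) x := fun _ => rfl
    simp only [h4, h5]
    simpa using hb₁ x)
  have he₂ := bb_mean (K := K₂) (h := h₂) (τ := 1 / 1000) hm hb₂
  have hi₁ := bb_int (m := m) (K := Option K₁) (opt0 h₁)
  have hsum : ∀ u : Option K₁ → ℝ, (fun i j => ∑ o, u o * opt0 h₁ o i j) =
      fun (i j : Fin m × Bool) => ∑ k, u (some k) * h₁ k i j := by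
    intro u
    funext i j
    rw [Fintype.sum_option]
    simp [opt0]
  simp only [hsum] at he₁ hi₁
  obtain ⟨C, hC⟩ : ∃ C : ℝ, C = ∫ ζ : K₂ → ℝ, bb m (fun i j => ∑ q, ζ q * h₂ q i j) ∂(gp K₂) :=
    ⟨_, rfl⟩
  obtain ⟨E, hE⟩ : ∃ E : ℝ, E = ∫ u : Option K₁ → ℝ,
      bb m (fun i j => ∑ k, u (some k) * h₁ k i j) ∂(gp (Option K₁)) := ⟨_, rfl⟩
  rw [← hC] at he₂
  rw [← hE] at he₁
  obtain ⟨T, hT⟩ : ∃ T : ℝ, T = (512 * (m * (1 / 1000 : ℝ) ^ 2)) ^ m := ⟨_, rfl⟩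
  have hpt : ∀ u : Option K₁ → ℝ,
      1 / 2 * (1 / 16) ^ m * u none ^ (2 * m) -
        (9 ^ m + 1) * (4 ^ m * bb m (fun i j => ∑ k, u (some k) * h₁ k i j) + T) -
        9 ^ m * (bb m (fun i j => ∑ k, u (some k) * h₁ k i j) + C) ≤
      ∫ v : K₂ → ℝ, f (Sum.elim u v) ∂(gp K₂) := by
    intro u
    have h4 := pointwise (K := K₂) (k := h₂) (τ := 1 / 1000) hm hs₂ hb₂ (by norm_num)
      (S := fun i j => ∑ k, u (some k) * h₁ k i j)
      (fun i j => Finset.sum_congr rfl fun k _ => by rw [hs₁ k i j]) (u none)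
    rw [← hC, ← hT] at h4
    rw [pow_mul]
    exact h4
  have hint : Integrable (fun u : Option K₁ → ℝ => 1 / 2 * (1 / 16) ^ m * u none ^ (2 * m) -
        (9 ^ m + 1) * (4 ^ m * bb m (fun i j => ∑ k, u (some k) * h₁ k i j) + T) -
        9 ^ m * (bb m (fun i j => ∑ k, u (some k) * h₁ k i j) + C)) (gp (Option K₁)) := by
    refine Integrable.sub (Integrable.sub ?_ ?_) ?_
    · refine Integrable.const_mul ?_ _
      have h4 := int_monomial (ι := Option K₁) (J := Fin (2 * m)) fun _ => none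
      simpa using h4
    · exact ((hi₁.const_mul _).add (integrable_const _)).const_mul _
    · exact (hi₁.add (integrable_const _)).const_mul _
  have h5 := integral_mono hint hi hpt
  have h6 : ∫ u : Option K₁ → ℝ, (1 / 2 * (1 / 16) ^ m * u none ^ (2 * m) -
        (9 ^ m + 1) * (4 ^ m * bb m (fun i j => ∑ k, u (some k) * h₁ k i j) + T) -
        9 ^ m * (bb m (fun i j => ∑ k, u (some k) * h₁ k i j) + C)) ∂(gp (Option K₁)) =
      1 / 2 * (1 / 16) ^ m * mo (2 * m) - (9 ^ m + 1) * (4 ^ m * E + T) - 9 ^ m * (E + C) := by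
    have i1 : Integrable (fun u : Option K₁ → ℝ => 1 / 2 * (1 / 16 : ℝ) ^ m * u none ^ (2 * m))
        (gp (Option K₁)) := by
      refine Integrable.const_mul ?_ _
      have h4 := int_monomial (ι := Option K₁) (J := Fin (2 * m)) fun _ => none
      simpa using h4
    have i2 : Integrable (fun u : Option K₁ → ℝ =>
        4 ^ m * bb m (fun i j => ∑ k, u (some k) * h₁ k i j) + T) (gp (Option K₁)) :=
      (hi₁.const_mul _).add (integrable_const _)
    have i3 : Integrable (fun u : Option K₁ → ℝ =>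
        bb m (fun i j => ∑ k, u (some k) * h₁ k i j) + C) (gp (Option K₁)) :=
      hi₁.add (integrable_const _)
    have i12 : Integrable (fun u : Option K₁ → ℝ => 1 / 2 * (1 / 16 : ℝ) ^ m * u none ^ (2 * m) -
        (9 ^ m + 1) * (4 ^ m * bb m (fun i j => ∑ k, u (some k) * h₁ k i j) + T))
        (gp (Option K₁)) := i1.sub (i2.const_mul _)
    rw [integral_sub i12 (i3.const_mul _),
      integral_sub i1 (i2.const_mul _), integral_const_mul, integral_const_mul,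
      integral_const_mul, mean_one, integral_add (hi₁.const_mul _) (integrable_const _),
      integral_add hi₁ (integrable_const _), integral_const_mul, ← hE]
    simp
  rw [h6] at h5
  have hTm : T ≤ (1024 * (1 / 1000 : ℝ) ^ 2) ^ m * mo (2 * m) := by
    have h7 := mo_lower m
    have h8 : T = (256 * (1 / 1000 : ℝ) ^ 2) ^ m * (2 * m : ℝ) ^ m := by
      rw [hT, ← mul_pow]
      congr 1
      ring
    rw [h8]
    have h9 : (1024 * (1 / 1000 : ℝ) ^ 2) ^ m = (256 * (1 / 1000 : ℝ) ^ 2) ^ m * 4 ^ m := by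
      rw [← mul_pow]
      congr 1
      ring
    rw [h9, mul_assoc]
    exact mul_le_mul_of_nonneg_left h7 (by positivity)
  have hnum := numbers hm
  have h7 : 1 / 4 * (1 / 16) ^ m * mo (2 * m) ≤
      1 / 2 * (1 / 16) ^ m * mo (2 * m) - (9 ^ m + 1) * (4 ^ m * E + T) - 9 ^ m * (E + C) := by
    have g1 : (9 ^ m + 1) * (4 ^ m * E + T) ≤ (9 ^ m + 1) *
        (4 ^ m * (2 / 3 * (64 * (1 / 1000 : ℝ) ^ 2) ^ m * mo (2 * m)) +
          (1024 * (1 / 1000 : ℝ) ^ 2) ^ m * mo (2 * m)) := by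
      refine mul_le_mul_of_nonneg_left ?_ (by positivity)
      exact add_le_add (mul_le_mul_of_nonneg_left he₁ (by positivity)) hTm
    have g2 : 9 ^ m * (E + C) ≤ 9 ^ m * (2 / 3 * (64 * (1 / 1000 : ℝ) ^ 2) ^ m * mo (2 * m) +
        2 / 3 * (64 * (1 / 1000 : ℝ) ^ 2) ^ m * mo (2 * m)) :=
      mul_le_mul_of_nonneg_left (add_le_add he₁ he₂) (by positivity)
    have g3 := mul_le_mul_of_nonneg_right hnum hmo.le
    linarith
  have h8 := h7.trans h5
  have h9 := mul_le_mul_of_nonneg_left h8 (mul_nonneg hN.le hD)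
  have h10 : mo (2 * m) * ((2 * m).factorial * (D * (1 / 4 * (1 / 16) ^ m))) ≤
      mo (2 * m) * Yf (fun a b c d => ∑ k, wt k * (B k a b * B k c d)) := by
    rw [h3]
    linarith
  exact le_of_mul_le_mul_left h10 hmo

end assembly

end Pool.Agent.H783.Sig
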