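import Pool.Agent.H783.Sig.Point

/-!
# Gaussian means of ball integrals
-/

set_option autoImplicit false

namespace Pool.Agent.H783.Sig

open Finset Pool.Agent.H783.Hopf MeasureTheory ProbabilityTheory Metric
open Pool.Agent.Y489.SM (Sy mu mu_add_two)

section form

variable {J : Type} [Fintype J] {K : Type} [Fintype K]

/-- the ball integral of a product -/
noncomputable def gI (h : K → J → J → ℝ) (β : J → K) : ℝ :=
  ∫ x : EuclideanSpace ℝ J in ball 0 1, ∏ j, qf (h (β j)) x

theorem gI_poly [DecidableEq J] {m : ℕ} (hJ : Fintype.card J = 2 * m) (h : K → J → J → ℝ)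
    (ζ : K → ℝ) :
    ∑ β : J → K, (∏ j, ζ (β j)) * gI h β =
      ∫ x : EuclideanSpace ℝ J in ball 0 1, (qf (fun i j => ∑ k, ζ k * h k i j) x ^ 2) ^ m := by
  have h1 : ∀ β : J → K, (∏ j, ζ (β j)) * gI h β =
      ∫ x : EuclideanSpace ℝ J in ball 0 1, ∏ j, (ζ (β j) * qf (h (β j)) x) := by
    intro β
    rw [gI, ← integral_const_mul]
    refine integral_congr_ae (Filter.Eventually.of_forall fun x => ?_)
    simp only [Finset.prod_mul_distrib]
  rw [Finset.sum_congr rfl fun β _ => h1 β, ← integral_finsetSum]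
  · refine integral_congr_ae (Filter.Eventually.of_forall fun x => ?_)
    beta_reduce
    have h2 : ∑ k, ζ k * qf (h k) x = qf (fun i j => ∑ k, ζ k * h k i j) x := by
      unfold qf
      simp only [Finset.mul_sum, Finset.sum_mul]
      rw [Finset.sum_comm]
      refine Finset.sum_congr rfl fun i _ => ?_
      rw [Finset.sum_comm]
      refine Finset.sum_congr rfl fun j _ => Finset.sum_congr rfl fun k _ => ?_
      ring
    rw [← Fintype.prod_sum (fun (_ : J) (k : K) => ζ k * qf (h k) x)]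
    rw [Finset.prod_const, h2, Finset.card_univ, hJ, ← pow_mul]
  · intro β _
    apply int_ball
    refine continuous_finsetProd _ fun j _ => ?_
    exact continuous_const.mul (qf_cont _)

omit [Fintype K] in
theorem gI_sy (h : K → J → J → ℝ) : Sy (gI h) := by
  intro π β
  unfold gI
  refine integral_congr_ae (Filter.Eventually.of_forall fun x => ?_)
  exact Equiv.prod_comp π (fun j => qf (h (β j)) x)

theorem gI_diag {m : ℕ} (h : K → Fin m × Bool → Fin m × Bool → ℝ) :
    ∑ α : Fin m → K, gI h (fun x => α x.1) =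
      ∫ x : EuclideanSpace ℝ (Fin m × Bool) in ball 0 1, (∑ k, qf (h k) x ^ 2) ^ m := by
  classical
  unfold gI
  rw [← integral_finsetSum]
  · refine integral_congr_ae (Filter.Eventually.of_forall fun x => ?_)
    beta_reduce
    have h1 : ∀ α : Fin m → K, ∏ j : Fin m × Bool, qf (h (α j.1)) x =
        ∏ b, qf (h (α b)) x ^ 2 := by
      intro α
      rw [Fintype.prod_prod_type]
      refine Finset.prod_congr rfl fun b _ => ?_
      rw [Fintype.prod_bool]
      ring
    rw [Finset.sum_congr rfl fun α _ => h1 α,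
      ← Fintype.prod_sum (fun (_ : Fin m) (k : K) => qf (h k) x ^ 2),
      Finset.prod_const, Finset.card_univ, Fintype.card_fin]
  · intro α _
    apply int_ball
    refine continuous_finsetProd _ fun j _ => ?_
    exact qf_cont _

end form

section mean

variable {m : ℕ} {K : Type} [Fintype K]

theorem card_J : Fintype.card (Fin m × Bool) = 2 * m := by
  rw [Fintype.card_prod, Fintype.card_fin, Fintype.card_bool, mul_comm]

theorem bb_int [DecidableEq K] (h : K → Fin m × Bool → Fin m × Bool → ℝ) :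
    Integrable (fun ζ : K → ℝ => bb m fun i j => ∑ k, ζ k * h k i j) (gp K) := by
  unfold bb
  refine Integrable.div_const ?_ _
  have h1 := int_form (ι := K) (J := Fin m × Bool) (gI h)
  simp only [gI_poly card_J] at h1
  exact h1

theorem mo_fact (m : ℕ) : mo (2 * m) * (2 ^ m * m.factorial) = (2 * m).factorial := by
  induction m with
  | zero =>
    unfold mo
    simp
  | succ m ih =>
    have h1 : mo (2 * (m + 1)) = (2 * m + 1) * mo (2 * m) := by
      rw [mo_eq, mo_eq]
      have h2 : 2 * (m + 1) = 2 * m + 2 := by ring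
      rw [h2, mu_add_two]
      push_cast
      ring
    have h2 : (2 * (m + 1)).factorial = (2 * m + 2) * ((2 * m + 1) * (2 * m).factorial) := by
      have h3 : 2 * (m + 1) = (2 * m + 1) + 1 := by ring
      rw [h3, Nat.factorial_succ, Nat.factorial_succ]
    rw [h1, h2, Nat.factorial_succ]
    push_cast
    rw [← ih]
    ring

theorem mo_pos (m : ℕ) : 0 < mo (2 * m) := by
  have h1 := mo_fact m
  have h2 : (0 : ℝ) < (2 * m).factorial := by positivity
  have h3 : (0 : ℝ) < 2 ^ m * m.factorial := by positivity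
  rw [← h1] at h2
  exact pos_of_mul_pos_left h2 h3.le

theorem bb_mean [DecidableEq K] (hm : 1 ≤ m) {h : K → Fin m × Bool → Fin m × Bool → ℝ} {τ : ℝ}
    (hb : ∀ x : EuclideanSpace ℝ (Fin m × Bool), ∑ k, qf (h k) x ^ 2 ≤ (τ * ‖x‖ ^ 2) ^ 2) :
    ∫ ζ : K → ℝ, bb m (fun i j => ∑ k, ζ k * h k i j) ∂(gp K) ≤
      2 / 3 * (64 * τ ^ 2) ^ m * mo (2 * m) := by
  unfold bb
  rw [integral_div]
  simp only [← gI_poly (card_J (m := m))]
  rw [mean_form m hm (gI h) (gI_sy h), gI_diag]
  have hv := vb_pos (J := Fin m × Bool)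
  have h9 : ∫ x : EuclideanSpace ℝ (Fin m × Bool) in ball 0 1, (∑ k, qf (h k) x ^ 2) ^ m ≤
      (τ ^ 2) ^ m * (vb (Fin m × Bool) / 3) := by
    rw [← ball_norm hm card_J, ← integral_const_mul]
    refine setIntegral_mono_on (int_ball ?_) (int_ball ?_) measurableSet_ball fun x _ => ?_
    · refine Continuous.pow ?_ m
      exact continuous_finsetSum _ fun k _ => (qf_cont (h k)).pow 2
    · fun_prop
    · rw [← mul_pow]
      refine pow_le_pow_left₀ (Finset.sum_nonneg fun k _ => sq_nonneg _) ((hb x).trans ?_) m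
      refine le_of_eq ?_
      ring
  rw [div_le_iff₀ (by positivity)]
  have h10 : (1 / 8 : ℝ) ^ (2 * m) = (1 / 64) ^ m := by
    rw [pow_mul]
    norm_num
  have h11 : (64 * τ ^ 2) ^ m * (1 / 64) ^ m = (τ ^ 2) ^ m := by
    rw [← mul_pow]
    congr 1
    ring
  rw [h10]
  have hmo := mo_pos m
  calc mo (2 * m) * ∫ x : EuclideanSpace ℝ (Fin m × Bool) in ball 0 1, (∑ k, qf (h k) x ^ 2) ^ m
      ≤ mo (2 * m) * ((τ ^ 2) ^ m * (vb (Fin m × Bool) / 3)) :=
        mul_le_mul_of_nonneg_left h9 hmo.le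
    _ = 2 / 3 * (64 * τ ^ 2) ^ m * mo (2 * m) * (1 / 2 * (1 / 64) ^ m * vb (Fin m × Bool)) := by
        rw [← h11]
        ring

/-- the moments from below -/
theorem mo_lower (m : ℕ) : (2 * m : ℝ) ^ m ≤ 4 ^ m * mo (2 * m) := by
  have h1 := mo_fact m
  have h2 : m.factorial * (m + 1) ^ m ≤ (m + m).factorial := Nat.factorial_mul_pow_le_factorial
  have h3 : ((m.factorial * m ^ m : ℕ) : ℝ) ≤ ((2 * m).factorial : ℕ) := by
    have h4 : m.factorial * m ^ m ≤ m.factorial * (m + 1) ^ m :=
      Nat.mul_le_mul_left _ (Nat.pow_le_pow_left (Nat.le_succ m) m)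
    rw [two_mul]
    exact_mod_cast h4.trans h2
  push_cast at h3
  rw [← h1] at h3
  have h5 : (0 : ℝ) < m.factorial := by positivity
  have h6 : (m : ℝ) ^ m ≤ mo (2 * m) * 2 ^ m := by
    have h7 : (m.factorial : ℝ) * (m : ℝ) ^ m ≤ m.factorial * (mo (2 * m) * 2 ^ m) :=
      h3.trans (le_of_eq (by ring))
    exact le_of_mul_le_mul_left h7 h5
  have h8 : (4 : ℝ) ^ m = 2 ^ m * 2 ^ m := by
    rw [← mul_pow]
    norm_num
  rw [mul_pow, h8]
  calc (2 : ℝ) ^ m * (m : ℝ) ^ m ≤ 2 ^ m * (mo (2 * m) * 2 ^ m) :=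
        mul_le_mul_of_nonneg_left h6 (by positivity)
    _ = 2 ^ m * 2 ^ m * mo (2 * m) := by ring

end mean

end Pool.Agent.H783.Sig
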