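import Pool.Agent.H783.Sig.Stm

/-!
# The class of tensors with a dominating form and small forms of both signs
-/

set_option autoImplicit false
set_option linter.unusedVariables false

namespace Pool.Agent.H783.Sig

open Finset MeasureTheory
open Pool.Agent.H783.Hopf
open Pool.Agent.W666.GB Pool.Agent.W669.HD
open Pool.Agent.Results.MP_5a30bb_gt.SubmanifoldsOfProducts (SecondForm extR sq)

variable {V : Type} [NormedAddCommGroup V] [InnerProductSpace ℝ V] {m : ℕ}

/-- **The integrand of a tensor with a dominating form.** -/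
theorem gbc_signed {K₁ K₂ : Type} [Fintype K₁] [DecidableEq K₁] [Fintype K₂] [DecidableEq K₂]
    (e : OrthonormalBasis (Fin m × Bool) ℝ V) (R : V → V → V → V → ℝ)
    (A : Fin m × Bool → Fin m × Bool → ℝ) (h₁ : K₁ → Fin m × Bool → Fin m × Bool → ℝ)
    (h₂ : K₂ → Fin m × Bool → Fin m × Bool → ℝ)
    (hAs : ∀ i j, A i j = A j i) (hs₁ : ∀ k i j, h₁ k i j = h₁ k j i)
    (hs₂ : ∀ k i j, h₂ k i j = h₂ k j i)
    (hA : ∀ x : EuclideanSpace ℝ (Fin m × Bool), 0 ≤ qf A x)
    (hb : ∀ x : EuclideanSpace ℝ (Fin m × Bool),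
      ∑ k, qf (h₁ k) x ^ 2 + ∑ q, qf (h₂ q) x ^ 2 ≤ (1 / 1000 * qf A x) ^ 2)
    (hR : ∀ i j k l, R (e i) (e j) (e k) (e l) =
      -((A i k * A j l + ∑ q, h₁ q i k * h₁ q j l - ∑ q, h₂ q i k * h₂ q j l) -
        (A i l * A j k + ∑ q, h₁ q i l * h₁ q j k - ∑ q, h₂ q i l * h₂ q j k))) :
    1 / 4 * (1 / 16) ^ m * ((Matrix.of A).det * roundGB m 1) ≤ (-1) ^ m * gbc e R := by
  rcases Nat.eq_zero_or_pos m with rfl | hm
  · rw [gbc_dim_zero]
    simp [roundGB]
    norm_num
  · have h1 := Yf_psd (by omega) A h₁ h₂ hAs hs₁ hs₂ hA hb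
    rw [gbc_of_forms e R (fun a b c d => ∑ k, wt k * (fam A h₁ h₂ k a b * fam A h₁ h₂ k c d))]
    · have hπ := Real.pi_pos
      have h5 : (0 : ℝ) < 1 / ((4 * Real.pi) ^ m * m.factorial) := by positivity
      have h6 := mul_le_mul_of_nonneg_left h1 h5.le
      refine le_trans (le_of_eq ?_) h6
      rw [roundGB, one_pow]
      ring
    · intro i j k l
      rw [hR]
      simp only [Fintype.sum_sum_type, Fintype.sum_option, fam, wt, Sum.elim_inl, Sum.elim_inr,
        Option.elim, one_mul, neg_mul, Finset.sum_neg_distrib]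
      ring

theorem qf_symform {A : V → V → ℝ} (hA : SymForm A) (e : OrthonormalBasis (Fin m × Bool) ℝ V)
    (x : EuclideanSpace ℝ (Fin m × Bool)) :
    qf (fun i j => A (e i) (e j)) x = A (vec e x) (vec e x) := by
  have h2 : ∀ y, A (vec e x) y = ∑ i, x i * A (e i) y := by
    intro y
    let f : V →ₗ[ℝ] ℝ :=
      { toFun := fun x => A x y
        map_add' := fun a b => hA.add a b y
        map_smul' := fun t a => hA.smul t a y }
    have h3 : f (vec e x) = ∑ i, x i * f (e i) := by
      unfold vec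
      simp only [map_sum, map_smul, smul_eq_mul]
    exact h3
  rw [h2]
  unfold Hopf.qf
  refine Finset.sum_congr rfl fun i _ => ?_
  rw [hA.symm, h2, Finset.mul_sum]
  refine Finset.sum_congr rfl fun j _ => ?_
  rw [hA.symm]
  ring

/-- the forms of the class -/
structure Core (A : V → V → ℝ) {n n' : ℕ} (h : Fin n → V → V → ℝ) (k : Fin n' → V → V → ℝ) :
    Prop where
  sA : SymForm A
  nn : ∀ x, 0 ≤ A x x
  sh : ∀ a, SymForm (h a)
  sk : ∀ b, SymForm (k b)
  le : ∀ x, ∑ a, h a x x ^ 2 + ∑ b, k b x x ^ 2 ≤ (A x x / 1000) ^ 2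

/-- the tensor of the class, without squares -/
def coreT (A : V → V → ℝ) {n n' : ℕ} (h : Fin n → V → V → ℝ) (k : Fin n' → V → V → ℝ)
    (x y z w : V) : ℝ :=
  -(kn A x y z w + ∑ a, kn (h a) x y z w - ∑ b, kn (k b) x y z w)

theorem core_bound (e : OrthonormalBasis (Fin m × Bool) ℝ V) {A : V → V → ℝ} {n n' : ℕ}
    {h : Fin n → V → V → ℝ} {k : Fin n' → V → V → ℝ} (hc : Core A h k) :
    1 / 4 * (1 / 16) ^ m * ((Matrix.of fun i j => A (e i) (e j)).det * roundGB m 1) ≤
      (-1) ^ m * gbc e (coreT A h k) := by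
  refine gbc_signed e (coreT A h k) (fun i j => A (e i) (e j)) (fun a i j => h a (e i) (e j))
    (fun b i j => k b (e i) (e j)) (fun i j => hc.sA.symm _ _) (fun a i j => (hc.sh a).symm _ _)
    (fun b i j => (hc.sk b).symm _ _) ?_ ?_ ?_
  · intro x
    rw [qf_symform hc.sA]
    exact hc.nn _
  · intro x
    rw [qf_symform hc.sA]
    have h1 : ∀ a, qf (fun i j => h a (e i) (e j)) x = h a (vec e x) (vec e x) := fun a =>
      qf_symform (hc.sh a) e x
    have h2 : ∀ b, qf (fun i j => k b (e i) (e j)) x = k b (vec e x) (vec e x) := fun b =>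
      qf_symform (hc.sk b) e x
    simp only [h1, h2]
    refine (hc.le _).trans (le_of_eq ?_)
    ring
  · intro i j k' l
    simp only [coreT, kn, Finset.sum_sub_distrib]
    ring

theorem kn_curv {h : V → V → ℝ} (hh : SymForm h) : AlgCurv (kn h) where
  add x x' y z w := by simp only [kn, hh.add]; ring
  smul t x y z w := by simp only [kn, hh.smul]; ring
  anti x y z w := by simp only [kn]; ring
  pair x y z w := by
    simp only [kn]
    rw [hh.symm z x, hh.symm w y, hh.symm z y, hh.symm w x]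
    ring
  bianchi x y z w := by
    simp only [kn]
    rw [hh.symm y x, hh.symm z x, hh.symm z y]
    ring

theorem core_curv {A : V → V → ℝ} {n n' : ℕ}
    {h : Fin n → V → V → ℝ} {k : Fin n' → V → V → ℝ} (hc : Core A h k) :
    AlgCurv (coreT A h k) where
  add x x' y z w := by
    simp only [coreT, (kn_curv hc.sA).add, (kn_curv (hc.sh _)).add, (kn_curv (hc.sk _)).add,
      Finset.sum_add_distrib]
    ring
  smul t x y z w := by
    simp only [coreT, (kn_curv hc.sA).smul, (kn_curv (hc.sh _)).smul, (kn_curv (hc.sk _)).smul,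
      ← Finset.mul_sum]
    ring
  anti x y z w := by
    simp only [coreT, (kn_curv hc.sA).anti x y z w, (kn_curv (hc.sh _)).anti x y z w,
      (kn_curv (hc.sk _)).anti x y z w, Finset.sum_neg_distrib]
    ring
  pair x y z w := by
    simp only [coreT, (kn_curv hc.sA).pair x y z w, (kn_curv (hc.sh _)).pair x y z w,
      (kn_curv (hc.sk _)).pair x y z w]
  bianchi x y z w := by
    have h1 := (kn_curv hc.sA).bianchi x y z w
    have h2 : ∑ a, kn (h a) x y z w + ∑ a, kn (h a) y z x w + ∑ a, kn (h a) z x y w = 0 := by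
      rw [← Finset.sum_add_distrib, ← Finset.sum_add_distrib]
      exact Finset.sum_eq_zero fun a _ => (kn_curv (hc.sh a)).bianchi x y z w
    have h3 : ∑ a, kn (k a) x y z w + ∑ a, kn (k a) y z x w + ∑ a, kn (k a) z x y w = 0 := by
      rw [← Finset.sum_add_distrib, ← Finset.sum_add_distrib]
      exact Finset.sum_eq_zero fun a _ => (kn_curv (hc.sk a)).bianchi x y z w
    simp only [coreT]
    linarith

theorem core_det (e : OrthonormalBasis (Fin m × Bool) ℝ V) {A : V → V → ℝ} (hA : SymForm A)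
    (h0 : ∀ x, 0 ≤ A x x) : 0 ≤ (Matrix.of fun i j => A (e i) (e j)).det := by
  refine (psd_of_qf (A := fun i j => A (e i) (e j)) (fun i j => hA.symm _ _) fun x => ?_).det_nonneg
  rw [qf_symform hA]
  exact h0 _

theorem core_nonneg (e : OrthonormalBasis (Fin m × Bool) ℝ V) {A : V → V → ℝ} {n n' : ℕ}
    {h : Fin n → V → V → ℝ} {k : Fin n' → V → V → ℝ} (hc : Core A h k) :
    0 ≤ (-1) ^ m * gbc e (coreT A h k) := by
  refine le_trans ?_ (core_bound e hc)
  have h1 := core_det e hc.sA hc.nn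
  have h2 : 0 ≤ roundGB m 1 := roundGB_nonneg zero_le_one
  positivity

theorem symform_sub {A : V → V → ℝ} (hA : SymForm A) (E : Submodule ℝ V) :
    SymForm (fun x y : E => A x y) :=
  ⟨fun x y => hA.symm _ _, fun x x' y => hA.add _ _ _, fun t x y => hA.smul _ _ _⟩

theorem core_sub {A : V → V → ℝ} {n n' : ℕ}
    {h : Fin n → V → V → ℝ} {k : Fin n' → V → V → ℝ} (hc : Core A h k) (E : Submodule ℝ V) :
    Core (fun x y : E => A x y) (fun a (x y : E) => h a x y) (fun b (x y : E) => k b x y) where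
  sA := symform_sub hc.sA E
  nn x := hc.nn _
  sh a := symform_sub (hc.sh a) E
  sk b := symform_sub (hc.sk b) E
  le x := hc.le _

/-- **The bound for the class.** -/
theorem signed_bound (e : OrthonormalBasis (Fin m × Bool) ℝ V) {A : V → V → ℝ}
    {R : V → V → V → V → ℝ} (hR : SignedCone A R) :
    1 / 4 * (1 / 16) ^ m * ((Matrix.of fun i j => A (e i) (e j)).det * roundGB m 1) ≤
      (-1) ^ m * gbc e R := by
  obtain ⟨hA, hA0, n, n', h, k, q, ξ, η, hh, hk, hle, hR⟩ := hR
  have hc : Core A h k := ⟨hA, hA0, hh, hk, hle⟩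
  have h1 := add_squares e (core_curv hc)
    (T := fun x y z w => - ∑ c, sq (ξ c) (η c) x y z w) ⟨q, ξ, η, fun _ _ _ _ => rfl⟩
    (fun j _ E ε => core_nonneg ε (core_sub hc E))
  have h2 : addT (coreT A h k) (fun x y z w => - ∑ c, sq (ξ c) (η c) x y z w) = R := by
    funext x y z w
    simp only [addT, coreT, hR]
    ring
  rw [h2] at h1
  exact (core_bound e hc).trans h1

/-- The bound when the axis is the metric. -/
theorem signed_round (e : OrthonormalBasis (Fin m × Bool) ℝ V) {κ : ℝ} (hκ : 0 ≤ κ)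
    {R : V → V → V → V → ℝ}
    (hR : SignedCone (fun x y => Real.sqrt κ * inner ℝ x y) R) :
    1 / 4 * (1 / 16) ^ m * roundGB m κ ≤ (-1) ^ m * gbc e R := by
  have h1 := signed_bound e hR
  rwa [gram_round e hκ] at h1

/-- **Submanifolds of space forms with small second fundamental form.** -/
theorem sub_cone {W : Type} [NormedAddCommGroup W] [InnerProductSpace ℝ W]
    [FiniteDimensional ℝ W] {β : V → V → W} {c : ℝ} (hs : SecondForm β) (hc : 0 ≤ c)
    (hb : ∀ x, ‖β x x‖ ≤ Real.sqrt c / 1000 * ‖x‖ ^ 2) {q : ℕ} (ξ η : Fin q → V) :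
    SignedCone (fun x y => Real.sqrt c * inner ℝ x y)
      (fun x y z w => -(c * unitT x y z w) + extR β x y z w - ∑ k, sq (ξ k) (η k) x y z w) := by
  set f := stdOrthonormalBasis ℝ W with hf
  refine ⟨metric_form, fun x => ?_, 0, _, Fin.elim0, fun b x y => inner ℝ (f b) (β x y), q, ξ, η,
    fun a => a.elim0, fun b => ?_, fun x => ?_, fun x y z w => ?_⟩
  · show 0 ≤ Real.sqrt c * inner ℝ x x
    rw [real_inner_self_eq_norm_sq]
    positivity
  · refine ⟨fun x y => ?_, fun x x' y => ?_, fun t x y => ?_⟩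
    · beta_reduce
      rw [hs.symm]
    · beta_reduce
      rw [hs.add, inner_add_right]
    · beta_reduce
      rw [hs.smul, inner_smul_right]
  · show _ ≤ (Real.sqrt c * inner ℝ x x / 1000) ^ 2
    rw [real_inner_self_eq_norm_sq, Fin.sum_univ_zero, zero_add]
    have h1 := f.sum_sq_norm_inner_right (β x x)
    simp only [Real.norm_eq_abs, sq_abs] at h1
    rw [h1]
    refine (pow_le_pow_left₀ (norm_nonneg _) (hb x) 2).trans (le_of_eq ?_)
    ring
  · have h1 : ∀ u v : W, ∑ b, inner ℝ (f b) u * inner ℝ (f b) v = inner ℝ u v := by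
      intro u v
      rw [← f.sum_inner_mul_inner u v]
      refine Finset.sum_congr rfl fun b _ => ?_
      rw [real_inner_comm u (f b)]
    simp only [kn, Finset.sum_sub_distrib, h1, Fin.sum_univ_zero, extR, unitT]
    have h3 := Real.mul_self_sqrt hc
    linear_combination (inner ℝ x z * inner ℝ y w - inner ℝ x w * inner ℝ y z) * h3

end Pool.Agent.H783.Sig
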