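import Pool.Agent.H783.Sig.Asm

/-!
# Change of basis; positive semidefinite axis
-/

set_option autoImplicit false

namespace Pool.Agent.H783.Sig

open Finset Pool.Agent.H783.Hopf MeasureTheory ProbabilityTheory Metric
open Pool.Agent.W666.GB (sn MD Yf)

variable {K₁ K₂ : Type} [Fintype K₁] [DecidableEq K₁] [Fintype K₂] [DecidableEq K₂] {m : ℕ}

/-- the family with the axis `A` -/
def fam (A : Fin m × Bool → Fin m × Bool → ℝ) (h₁ : K₁ → Fin m × Bool → Fin m × Bool → ℝ)
    (h₂ : K₂ → Fin m × Bool → Fin m × Bool → ℝ) (o : Option K₁ ⊕ K₂) (i j : Fin m × Bool) : ℝ :=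
  o.elim (fun o => o.elim (A i j) fun k => h₁ k i j) fun q => h₂ q i j

/-- the matrix in another basis -/
def cj (Q : Matrix (Fin m × Bool) (Fin m × Bool) ℝ) (h : Fin m × Bool → Fin m × Bool → ℝ)
    (i j : Fin m × Bool) : ℝ := (Q.transpose * (Matrix.of h) * Q) i j

theorem cj_symm (Q : Matrix (Fin m × Bool) (Fin m × Bool) ℝ)
    {h : Fin m × Bool → Fin m × Bool → ℝ} (hs : ∀ i j, h i j = h j i) (i j : Fin m × Bool) :
    cj Q h i j = cj Q h j i := by
  have hk : (Matrix.of h).transpose = Matrix.of h := by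
    ext i j
    exact hs j i
  have h1 : (Q.transpose * (Matrix.of h) * Q).transpose = Q.transpose * (Matrix.of h) * Q := by
    rw [Matrix.transpose_mul, Matrix.transpose_mul, Matrix.transpose_transpose, hk,
      Matrix.mul_assoc]
  exact congrFun (congrFun h1 j) i

theorem cx_cj {P Q : Matrix (Fin m × Bool) (Fin m × Bool) ℝ} (hQP : Q * P = 1)
    (h : Fin m × Bool → Fin m × Bool → ℝ) :
    cx h = cx (fun i j => P.transpose i j) * cx (cj Q h) * cx (fun i j => P i j) := by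
  have hQP' : P.transpose * Q.transpose = 1 := by
    rw [← Matrix.transpose_mul, hQP, Matrix.transpose_one]
  have h1 : (P.transpose * (Q.transpose * Matrix.of h * Q)) * P = Matrix.of h := by
    calc (P.transpose * (Q.transpose * Matrix.of h * Q)) * P
        = (P.transpose * Q.transpose) * Matrix.of h * (Q * P) := by simp only [Matrix.mul_assoc]
      _ = Matrix.of h := by rw [hQP', hQP, Matrix.one_mul, Matrix.mul_one]
  have h2 : cx (cj Q h) = cx (fun i j => (Q.transpose * Matrix.of h * Q) i j) := rfl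
  rw [h2, ← cx_mul, ← cx_mul, h1]
  rfl

theorem Yf_pd (hm : 1 ≤ m) (A : Fin m × Bool → Fin m × Bool → ℝ)
    (h₁ : K₁ → Fin m × Bool → Fin m × Bool → ℝ) (h₂ : K₂ → Fin m × Bool → Fin m × Bool → ℝ)
    (hAs : ∀ i j, A i j = A j i)
    (hs₁ : ∀ k i j, h₁ k i j = h₁ k j i) (hs₂ : ∀ k i j, h₂ k i j = h₂ k j i)
    (hA : ∀ x : EuclideanSpace ℝ (Fin m × Bool), x ≠ 0 → 0 < qf A x)
    (hb : ∀ x : EuclideanSpace ℝ (Fin m × Bool),
      ∑ k, qf (h₁ k) x ^ 2 + ∑ q, qf (h₂ q) x ^ 2 ≤ (1 / 1000 * qf A x) ^ 2) :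
    (2 * m).factorial * ((Matrix.of A).det * (1 / 4 * (1 / 16) ^ m)) ≤
      Yf (fun a b c d => ∑ k, wt k * (fam A h₁ h₂ k a b * fam A h₁ h₂ k c d)) := by
  have hpd := pd_of_qf hAs hA
  obtain ⟨P, hP⟩ := exists_root hpd.posSemidef
  have hdA : (Matrix.of A).det = P.det ^ 2 := by
    rw [hP, Matrix.det_mul, Matrix.det_transpose, sq]
  have hdet0 : P.det ≠ 0 := by
    intro h0
    have := hpd.det_pos
    rw [hdA, h0] at this
    simp at this
  have hu : IsUnit P.det := isUnit_iff_ne_zero.mpr hdet0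
  obtain ⟨Q, hQ⟩ : ∃ Q, Q = P⁻¹ := ⟨_, rfl⟩
  have hPQ : P * Q = 1 := by rw [hQ]; exact Matrix.mul_nonsing_inv P hu
  have hQP : Q * P = 1 := by rw [hQ]; exact Matrix.nonsing_inv_mul P hu
  have hPQ' : Q.transpose * P.transpose = 1 := by
    rw [← Matrix.transpose_mul, hPQ, Matrix.transpose_one]
  have hcA : cj Q A = fun i j => (1 : Matrix (Fin m × Bool) (Fin m × Bool) ℝ) i j := by
    have h5 : Q.transpose * Matrix.of A * Q = 1 := by
      rw [hP]
      calc Q.transpose * (P.transpose * P) * Q = (Q.transpose * P.transpose) * (P * Q) := by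
            simp only [Matrix.mul_assoc]
        _ = 1 := by rw [hPQ', hPQ, Matrix.one_mul]
    funext i j
    unfold cj
    rw [h5]
  have hq : ∀ x : EuclideanSpace ℝ (Fin m × Bool),
      ∑ k, qf (cj Q (h₁ k)) x ^ 2 + ∑ q, qf (cj Q (h₂ q)) x ^ 2 ≤ (1 / 1000 * ‖x‖ ^ 2) ^ 2 := by
    intro x
    have h1 : ∀ h : Fin m × Bool → Fin m × Bool → ℝ, qf (cj Q h) x =
        qf h (WithLp.toLp 2 (Q.mulVec (x : Fin m × Bool → ℝ))) :=
      fun h => qf_conj (Matrix.of h) Q x
    have h2 := hb (WithLp.toLp 2 (Q.mulVec (x : Fin m × Bool → ℝ)))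
    have h3 : qf A (WithLp.toLp 2 (Q.mulVec (x : Fin m × Bool → ℝ))) = ‖x‖ ^ 2 := by
      rw [← h1, hcA, qf_one]
    rw [h3] at h2
    simp only [h1]
    exact h2
  refine Yf_signed hm (fam A h₁ h₂) (fun k => cj Q (h₁ k)) (fun q => cj Q (h₂ q))
    (fun k => cj_symm Q (hs₁ k)) (fun q => cj_symm Q (hs₂ q)) (by rw [hdA]; positivity) ?_ ?_ ?_
  · intro ζ
    have e1 : (Matrix.of fun i j => ∑ k, (ζ k : ℂ) * om k * (fam A h₁ h₂ k i j : ℂ)) =
        (ζ (Sum.inl none) : ℂ) • cx A + ∑ k, (ζ (Sum.inl (some k)) : ℂ) • cx (h₁ k) +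
          Complex.I • ∑ q, (ζ (Sum.inr q) : ℂ) • cx (h₂ q) := by
      ext i j
      simp only [Matrix.of_apply, Matrix.add_apply, Matrix.smul_apply, Matrix.sum_apply,
        smul_eq_mul, Fintype.sum_sum_type, Fintype.sum_option, om, fam, cx, Sum.elim_inl,
        Sum.elim_inr, Option.elim, mul_one, Finset.mul_sum]
      congr 1
      refine Finset.sum_congr rfl fun q _ => ?_
      ring
    have e2 : cx (sh (ζ (Sum.inl none)) fun i j => ∑ k, ζ (Sum.inl (some k)) * cj Q (h₁ k) i j) =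
        (ζ (Sum.inl none) : ℂ) • cx (cj Q A) +
          ∑ k, (ζ (Sum.inl (some k)) : ℂ) • cx (cj Q (h₁ k)) := by
      rw [hcA]
      ext i j
      simp only [cx, sh, Matrix.of_apply, Matrix.add_apply, Matrix.smul_apply, Matrix.sum_apply,
        smul_eq_mul, Matrix.one_apply]
      push_cast
      rfl
    have e3 : (Matrix.of fun i j => ∑ k, (ζ k : ℂ) * om k * (fam A h₁ h₂ k i j : ℂ)) =
        cx (fun i j => P.transpose i j) *
          (cx (sh (ζ (Sum.inl none)) fun i j => ∑ k, ζ (Sum.inl (some k)) * cj Q (h₁ k) i j) +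
            Complex.I • ∑ q, (ζ (Sum.inr q) : ℂ) • cx (cj Q (h₂ q))) *
          cx (fun i j => P i j) := by
      rw [e1, e2]
      simp only [Matrix.mul_add, Matrix.add_mul, Matrix.mul_smul, Matrix.smul_mul,
        Matrix.mul_sum, Matrix.sum_mul, ← cx_cj hQP]
    rw [e3, Matrix.det_mul, Matrix.det_mul, cx_det, cx_det, Matrix.det_transpose, hdA]
    unfold wP
    push_cast
    ring
  · intro x
    have h1 := hq x
    have h2 : 0 ≤ ∑ q, qf (cj Q (h₂ q)) x ^ 2 := Finset.sum_nonneg fun _ _ => sq_nonneg _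
    linarith
  · intro x
    have h1 := hq x
    have h2 : 0 ≤ ∑ k, qf (cj Q (h₁ k)) x ^ 2 := Finset.sum_nonneg fun _ _ => sq_nonneg _
    linarith

/-- **The double alternating form with a positive semidefinite axis.** -/
theorem Yf_psd (hm : 1 ≤ m) (A : Fin m × Bool → Fin m × Bool → ℝ)
    (h₁ : K₁ → Fin m × Bool → Fin m × Bool → ℝ) (h₂ : K₂ → Fin m × Bool → Fin m × Bool → ℝ)
    (hAs : ∀ i j, A i j = A j i)
    (hs₁ : ∀ k i j, h₁ k i j = h₁ k j i) (hs₂ : ∀ k i j, h₂ k i j = h₂ k j i)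
    (hA : ∀ x : EuclideanSpace ℝ (Fin m × Bool), 0 ≤ qf A x)
    (hb : ∀ x : EuclideanSpace ℝ (Fin m × Bool),
      ∑ k, qf (h₁ k) x ^ 2 + ∑ q, qf (h₂ q) x ^ 2 ≤ (1 / 1000 * qf A x) ^ 2) :
    (2 * m).factorial * ((Matrix.of A).det * (1 / 4 * (1 / 16) ^ m)) ≤
      Yf (fun a b c d => ∑ k, wt k * (fam A h₁ h₂ k a b * fam A h₁ h₂ k c d)) := by
  have key : ∀ δ : ℝ, 0 < δ →
      (2 * m).factorial * ((Matrix.of (sh δ A)).det * (1 / 4 * (1 / 16) ^ m)) ≤
        Yf (fun a b c d => ∑ k, wt k * (fam (sh δ A) h₁ h₂ k a b * fam (sh δ A) h₁ h₂ k c d)) := by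
    intro δ hδ
    refine Yf_pd hm (sh δ A) h₁ h₂ (sh_symm hAs δ) hs₁ hs₂ ?_ ?_
    · intro x hx
      rw [qf_sh]
      have h1 := hA x
      have h2 : 0 < ‖x‖ := norm_pos_iff.mpr hx
      positivity
    · intro x
      refine (hb x).trans ?_
      rw [qf_sh]
      have h1 := hA x
      have h2 : 0 ≤ δ * ‖x‖ ^ 2 := by positivity
      exact pow_le_pow_left₀ (by positivity) (by linarith) 2
  have hc1 : Continuous fun δ : ℝ =>
      (2 * m).factorial * ((Matrix.of (sh δ A)).det * (1 / 4 * (1 / 16 : ℝ) ^ m)) := by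
    refine continuous_const.mul (Continuous.mul ?_ continuous_const)
    apply Continuous.matrix_det
    refine continuous_matrix fun i j => ?_
    simp only [sh, Matrix.of_apply]
    fun_prop
  have hc2 : Continuous fun δ : ℝ =>
      Yf (fun a b c d => ∑ k, wt k * (fam (sh δ A) h₁ h₂ k a b * fam (sh δ A) h₁ h₂ k c d)) := by
    unfold Yf
    refine continuous_finsetSum _ fun π _ => continuous_finsetSum _ fun π' _ => ?_
    refine continuous_const.mul (continuous_finsetProd _ fun b _ => ?_)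
    refine continuous_finsetSum _ fun k _ => ?_
    rcases k with (_ | k) | q
    · simp only [fam, Sum.elim_inl, Option.elim, sh]
      fun_prop
    · simp only [fam, Sum.elim_inl, Option.elim]
      fun_prop
    · simp only [fam, Sum.elim_inr]
      fun_prop
  have hlim : ∀ᶠ δ in nhdsWithin (0 : ℝ) (Set.Ioi 0),
      (2 * m).factorial * ((Matrix.of (sh δ A)).det * (1 / 4 * (1 / 16 : ℝ) ^ m)) ≤
        Yf (fun a b c d => ∑ k, wt k *
          (fam (sh δ A) h₁ h₂ k a b * fam (sh δ A) h₁ h₂ k c d)) := by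
    filter_upwards [self_mem_nhdsWithin] with δ hδ
    exact key δ hδ
  have hfin := le_of_tendsto_of_tendsto
    ((hc1.tendsto 0).mono_left nhdsWithin_le_nhds)
    ((hc2.tendsto 0).mono_left nhdsWithin_le_nhds) hlim
  have h0 : sh 0 A = A := by
    funext i j
    simp [sh]
  rw [h0] at hfin
  exact hfin

end Pool.Agent.H783.Sig
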