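import Mathlib

/-!
# Tools for the standard Gaussian measure: growth, rotation, integration by parts
-/

set_option autoImplicit false

namespace Pool.Agent.H783.Sig

open MeasureTheory ProbabilityTheory Filter Topology

variable {E : Type} [NormedAddCommGroup E] [InnerProductSpace ℝ E] [FiniteDimensional ℝ E]
  [MeasurableSpace E] [BorelSpace E]

variable (E) in
/-- the standard Gaussian measure -/
noncomputable def gm : Measure E := stdGaussian E

instance : IsProbabilityMeasure (gm E) := by unfold gm; infer_instance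

instance : IsGaussian (gm E) := by unfold gm; infer_instance

theorem memLp_gm (p : ℕ) : MemLp id (p : ENNReal) (gm E) :=
  IsGaussian.memLp_id (gm E) p (by simp)

theorem int_norm_pow (n : ℕ) : Integrable (fun g : E => ‖g‖ ^ n) (gm E) := by
  rcases Nat.eq_zero_or_pos n with rfl | hn
  · simp
  · exact (memLp_gm n).integrable_norm_pow (by omega)

theorem int_growth (n : ℕ) : Integrable (fun g : E => (1 + ‖g‖) ^ n) (gm E) := by
  have h : (fun g : E => (1 + ‖g‖) ^ n) =
      fun g : E => ∑ k ∈ Finset.range (n + 1), (n.choose k : ℝ) * ‖g‖ ^ k := by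
    funext g
    rw [add_comm, add_pow]
    refine Finset.sum_congr rfl fun k _ => ?_
    simp
    ring
  rw [h]
  exact integrable_finsetSum _ fun k _ => (int_norm_pow k).const_mul _

theorem int_of_growth {F : Type} [NormedAddCommGroup F] [NormedSpace ℝ F]
    [SecondCountableTopology F] [MeasurableSpace F] [BorelSpace F] {f : E → F}
    (hf : Continuous f) {C : ℝ} {n : ℕ} (h : ∀ g, ‖f g‖ ≤ C * (1 + ‖g‖) ^ n) :
    Integrable f (gm E) :=
  ((int_growth n).const_mul C).mono' hf.aestronglyMeasurable (Eventually.of_forall h)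

theorem int_growth2 (n : ℕ) :
    Integrable (fun p : E × E => (1 + ‖p.1‖) ^ n * (1 + ‖p.2‖) ^ n) ((gm E).prod (gm E)) :=
  (int_growth n).mul_prod (int_growth n)

theorem int_of_growth2 {f : E × E → ℂ} (hf : Continuous f) {C : ℝ} {n : ℕ}
    (h : ∀ p, ‖f p‖ ≤ C * ((1 + ‖p.1‖) ^ n * (1 + ‖p.2‖) ^ n)) :
    Integrable f ((gm E).prod (gm E)) :=
  ((int_growth2 n).const_mul C).mono' hf.aestronglyMeasurable (Eventually.of_forall h)

theorem gm_mean : ∫ g : E, id g ∂(gm E) = 0 := by
  unfold gm
  exact integral_id_stdGaussian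

/-- rotation invariance -/
theorem rot_int (H : E × E → ℂ) (hH : Continuous H) (θ : ℝ) :
    ∫ p, H (ContinuousLinearMap.rotation θ p) ∂((gm E).prod (gm E)) =
      ∫ p, H p ∂((gm E).prod (gm E)) := by
  have h := IsGaussian.map_rotation_eq_self (μ := gm E) gm_mean θ
  conv_rhs => rw [← h]
  rw [integral_map]
  · exact (ContinuousLinearMap.rotation θ).continuous.aemeasurable
  · exact hH.aestronglyMeasurable

theorem rot_inv (θ : ℝ) (p : E × E) :
    ContinuousLinearMap.rotation (-θ) (ContinuousLinearMap.rotation θ p) = p := by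
  have h := Real.sin_sq_add_cos_sq θ
  ext
  · simp only [ContinuousLinearMap.rotation_apply, Real.cos_neg, Real.sin_neg, smul_add, smul_smul,
      neg_smul, neg_mul, neg_neg]
    have h1 : Real.cos θ * Real.cos θ = 1 - Real.sin θ * Real.sin θ := by nlinarith
    rw [h1, mul_comm (Real.cos θ) (Real.sin θ), sub_smul]
    module
  · simp only [ContinuousLinearMap.rotation_apply, Real.cos_neg, Real.sin_neg, smul_add, smul_smul,
      neg_smul, neg_mul, neg_neg]
    have h1 : Real.cos θ * Real.cos θ = 1 - Real.sin θ * Real.sin θ := by nlinarith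
    rw [h1, sub_smul]
    module

theorem rot_int' (H : E × E → ℂ) (hH : Continuous H) (θ : ℝ) :
    ∫ p, H p ∂((gm E).prod (gm E)) =
      ∫ p, H (ContinuousLinearMap.rotation (-θ) p) ∂((gm E).prod (gm E)) :=
  (rot_int H hH (-θ)).symm

theorem gm_cov (x y : E) : ∫ g : E, inner ℝ x g * inner ℝ y g ∂(gm E) = inner ℝ x y := by
  have h := covarianceBilin_apply (μ := gm E) (memLp_gm 2) x y
  rw [gm_mean] at h
  simp only [sub_zero] at h
  rw [← h]
  have h2 : covarianceBilin (gm E) = innerSL ℝ := by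
    unfold gm
    exact covarianceBilin_stdGaussian
  rw [h2]
  rfl

/-- the weight of a pair -/
noncomputable def pw (p : E × E) : ℝ := (1 + ‖p.1‖) * (1 + ‖p.2‖)

omit [FiniteDimensional ℝ E] [MeasurableSpace E] [BorelSpace E] in
theorem one_le_pw (p : E × E) : 1 ≤ pw p := by
  unfold pw
  have h1 := norm_nonneg p.1
  have h2 := norm_nonneg p.2
  nlinarith [mul_nonneg h1 h2]

omit [FiniteDimensional ℝ E] [MeasurableSpace E] [BorelSpace E] in
theorem comb_le {c s : ℝ} (hc : |c| ≤ 1) (hs : |s| ≤ 1) (p : E × E) :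
    1 + ‖c • p.1 + s • p.2‖ ≤ pw p := by
  unfold pw
  have h1 := norm_nonneg p.1
  have h2 := norm_nonneg p.2
  have h3 : ‖c • p.1 + s • p.2‖ ≤ ‖p.1‖ + ‖p.2‖ := by
    refine (norm_add_le _ _).trans ?_
    rw [norm_smul, norm_smul, Real.norm_eq_abs, Real.norm_eq_abs]
    nlinarith
  nlinarith [mul_nonneg h1 h2]

omit [FiniteDimensional ℝ E] [MeasurableSpace E] [BorelSpace E] in
theorem comb_le' {c s : ℝ} (hc : |c| ≤ 1) (hs : |s| ≤ 1) (p : E × E) :
    ‖c • p.1 + s • p.2‖ ≤ pw p := by
  have := comb_le hc hs p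
  linarith

theorem int_pw (n : ℕ) : Integrable (fun p : E × E => pw p ^ n) ((gm E).prod (gm E)) := by
  have h := int_growth2 (E := E) n
  refine h.congr (Eventually.of_forall fun p => ?_)
  unfold pw
  beta_reduce
  rw [mul_pow]

theorem int_of_pw {f : E × E → ℂ} (hf : Continuous f) {C : ℝ} {n : ℕ}
    (h : ∀ p, ‖f p‖ ≤ C * pw p ^ n) : Integrable f ((gm E).prod (gm E)) :=
  ((int_pw n).const_mul C).mono' hf.aestronglyMeasurable (Eventually.of_forall h)

/-- derivative of a rotating pair -/
theorem rot_deriv {f : E × E → ℂ} {f' : E × E → E × E →L[ℝ] ℂ}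
    (hf : ∀ p, HasFDerivAt f (f' p) p) (p : E × E) (θ : ℝ) :
    HasDerivAt (fun θ : ℝ => f (ContinuousLinearMap.rotation θ p))
      (f' (ContinuousLinearMap.rotation θ p)
        (-Real.sin θ • p.1 + Real.cos θ • p.2, -Real.cos θ • p.1 + -Real.sin θ • p.2)) θ := by
  have h1 : HasDerivAt (fun θ : ℝ => ContinuousLinearMap.rotation θ p)
      (-Real.sin θ • p.1 + Real.cos θ • p.2, -Real.cos θ • p.1 + -Real.sin θ • p.2) θ := by
    have h2 : (fun θ : ℝ => ContinuousLinearMap.rotation θ p) =
        fun θ => (Real.cos θ • p.1 + Real.sin θ • p.2, -Real.sin θ • p.1 + Real.cos θ • p.2) := by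
      funext θ
      exact ContinuousLinearMap.rotation_apply θ p
    rw [h2]
    refine HasDerivAt.prodMk ?_ ?_
    · exact ((Real.hasDerivAt_cos θ).smul_const p.1).add ((Real.hasDerivAt_sin θ).smul_const p.2)
    · exact (((Real.hasDerivAt_sin θ).neg).smul_const p.1).add
        ((Real.hasDerivAt_cos θ).smul_const p.2)
  exact (hf _).comp_hasDerivAt θ h1

end Pool.Agent.H783.Sig
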