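import Pool.Agent.H783.Sig.Abs

/-!
# The transport identity
-/

set_option autoImplicit false

namespace Pool.Agent.H783.Sig

open MeasureTheory ProbabilityTheory Filter Topology

variable {E : Type} [NormedAddCommGroup E] [InnerProductSpace ℝ E] [FiniteDimensional ℝ E]
  [MeasurableSpace E] [BorelSpace E]
  {X : Type} [NormedAddCommGroup X] [NormedSpace ℂ X] [FiniteDimensional ℂ X]

/-- growth of the derivative of an entire function of polynomial growth -/
theorem growth_fderiv {w : X → ℂ} (hw : Differentiable ℂ w) {C : ℝ} {n : ℕ}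
    (hg : ∀ x, ‖w x‖ ≤ C * (1 + ‖x‖) ^ n) (x : X) :
    ‖fderiv ℂ w x‖ ≤ 2 * C * 2 ^ n * (1 + ‖x‖) ^ n := by
  have hC : 0 ≤ C := by
    have := (norm_nonneg _).trans (hg 0)
    simpa using this
  have h1 : ∀ z ∈ Metric.ball x 1, ‖w z‖ ≤ C * (2 + ‖x‖) ^ n := by
    intro z hz
    refine (hg z).trans (mul_le_mul_of_nonneg_left (pow_le_pow_left₀ (by positivity) ?_ n) hC)
    rw [Metric.mem_ball, dist_eq_norm] at hz
    have := norm_add_le (z - x) x
    rw [sub_add_cancel] at this
    linarith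
  have h2 : Set.MapsTo w (Metric.ball x 1) (Metric.closedBall (w x) (2 * (C * (2 + ‖x‖) ^ n))) := by
    intro z hz
    rw [Metric.mem_closedBall, dist_eq_norm]
    have h3 := h1 z hz
    have h4 := h1 x (Metric.mem_ball_self one_pos)
    have := norm_sub_le (w z) (w x)
    linarith
  have h3 := Complex.norm_fderiv_le_div_of_mapsTo_ball hw.differentiableOn h2 one_pos
  rw [div_one] at h3
  refine h3.trans ?_
  have h4 : (2 + ‖x‖) ^ n ≤ 2 ^ n * (1 + ‖x‖) ^ n := by
    rw [← mul_pow]
    exact pow_le_pow_left₀ (by positivity) (by linarith [norm_nonneg x]) n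
  nlinarith [mul_le_mul_of_nonneg_left h4 hC]

variable {Λ : E →L[ℝ] X} {σ : X → ℝ} {r A s : ℝ} {F : X → ℂ}

/-- continuity of the derivative along two arguments -/
theorem Cls.cont_real (hT : Tube Λ σ) (hr : 0 < r) (hF : Cls σ r A F) {P : Type}
    [TopologicalSpace P] {u : P → E} {v : P → X} (hu : Continuous u) (hv : Continuous v) :
    Continuous fun p => fderiv ℂ F (Λ (u p)) (v p) := by
  have h2 : Continuous fun p => fderiv ℂ F (Λ (u p)) := by
    refine continuous_iff_continuousAt.2 fun p => ?_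
    have h3 := (hF.fderiv_diff hT).continuousOn.continuousAt
      ((hT.isOpen r).mem_nhds (show σ (Λ (u p)) < r by rw [hT.real]; exact hr))
    exact ContinuousAt.comp h3 (Λ.continuous.comp hu).continuousAt
  exact h2.clm_apply hv

theorem Cls.cont_real0 (hT : Tube Λ σ) (hr : 0 < r) (hF : Cls σ r A F) {P : Type}
    [TopologicalSpace P] {u : P → E} (hu : Continuous u) :
    Continuous fun p => F (Λ (u p)) := by
  refine continuous_iff_continuousAt.2 fun p => ?_
  have h3 := hF.diff.continuousOn.continuousAt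
    ((hT.isOpen r).mem_nhds (show σ (Λ (u p)) < r by rw [hT.real]; exact hr))
  exact ContinuousAt.comp h3 (Λ.continuous.comp hu).continuousAt

theorem Cls.real_bound (hT : Tube Λ σ) (hr : 0 < r) (hF : Cls σ r A F) (g : E) :
    ‖F (Λ g)‖ ≤ A / r := by
  have := hF.bound (Λ g) (by rw [hT.real]; exact hr)
  rwa [hT.real, sub_zero] at this

theorem Cls.real_fderiv (hT : Tube Λ σ) (hr : 0 < r) (hF : Cls σ r A F) (g : E) (v : X) :
    ‖fderiv ℂ F (Λ g) v‖ ≤ 4 * A / r ^ 2 * ‖v‖ := by
  have := hF.fderiv_le hT hr (norm_nonneg v) (y := Λ g) (v := v) (by rw [hT.real]; exact hr) le_rfl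
  rw [hT.real, sub_zero] at this
  refine this.trans (le_of_eq (by ring))

/-- **The transport identity.** -/
theorem KK_id {K : Type} [Fintype K] (b : OrthonormalBasis K ℝ E) (hT : Tube Λ σ) (hr : 0 < r)
    (hF : Cls σ r A F) (hs : 0 ≤ s) {V : X → X}
    (hVd : DifferentiableOn ℂ V {x | σ x < r}) (hV : ∀ x, σ x < r → ‖V x‖ ≤ s)
    {w : X → ℂ} (hw : Differentiable ℂ w) {C : ℝ} {n : ℕ}
    (hwg : ∀ x, ‖w x‖ ≤ C * (1 + ‖x‖) ^ n)
    (hwV : ∀ (g : E) (L : X →L[ℂ] ℂ),
      ∑ k, fderiv ℂ w (Λ g) (Λ (b k)) * L (Λ (b k)) = w (Λ g) * L (V (Λ g))) :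
    ∫ g, w (Λ g) * F (Λ g) ∂(gm E) =
      (∫ g, w (Λ g) ∂(gm E)) * (∫ g, F (Λ g) ∂(gm E)) +
        ∫ g, w (Λ g) * KK Λ V F (Λ g) ∂(gm E) := by
  have hA := hF.nonneg hT hr
  have hC : 0 ≤ C := by
    have := (norm_nonneg _).trans (hwg 0)
    simpa using this
  -- growth constants
  set C₁ : ℝ := 2 * C * 2 ^ n * (1 + ‖Λ‖) ^ n with hC₁
  have hC₁0 : 0 ≤ C₁ := by positivity
  have hΛg : ∀ g : E, (1 + ‖Λ g‖) ^ n ≤ (1 + ‖Λ‖) ^ n * (1 + ‖g‖) ^ n := by
    intro g
    rw [← mul_pow]
    refine pow_le_pow_left₀ (by positivity) ?_ n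
    have := Λ.le_opNorm g
    nlinarith [norm_nonneg g, norm_nonneg Λ]
  have hW : ∀ g : E, ‖w (Λ g)‖ ≤ C₁ * (1 + ‖g‖) ^ n := by
    intro g
    refine (hwg _).trans ((mul_le_mul_of_nonneg_left (hΛg g) hC).trans ?_)
    have h1 : (1 : ℝ) ≤ 2 ^ n := one_le_pow₀ (by norm_num)
    have h2 : 0 ≤ C * ((1 + ‖Λ‖) ^ n * (1 + ‖g‖) ^ n) := by positivity
    calc C * ((1 + ‖Λ‖) ^ n * (1 + ‖g‖) ^ n) ≤ 2 * 2 ^ n * (C * ((1 + ‖Λ‖) ^ n * (1 + ‖g‖) ^ n)) := by
          nlinarith
      _ = C₁ * (1 + ‖g‖) ^ n := by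
          rw [hC₁]
          ring
  have hW' : ∀ g : E, ‖fderiv ℂ w (Λ g)‖ ≤ C₁ * (1 + ‖g‖) ^ n := by
    intro g
    refine (growth_fderiv hw hwg _).trans ?_
    calc 2 * C * 2 ^ n * (1 + ‖Λ g‖) ^ n ≤ 2 * C * 2 ^ n * ((1 + ‖Λ‖) ^ n * (1 + ‖g‖) ^ n) :=
          mul_le_mul_of_nonneg_left (hΛg g) (by positivity)
      _ = C₁ * (1 + ‖g‖) ^ n := by
          rw [hC₁]
          ring
  have hwc : Continuous w := hw.continuous
  have hwc' : Continuous (fderiv ℂ w) := by
    have h1 := Pool.Agent.Helper540.contDiffOn_of_differentiableOn isOpen_univ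
      hw.differentiableOn 1
    rw [contDiffOn_univ] at h1
    exact h1.continuous_fderiv (by norm_num)
  have hVc : ∀ {P : Type} [TopologicalSpace P] {u : P → E}, Continuous u →
      Continuous fun p => V (Λ (u p)) := by
    intro P _ u hu
    refine continuous_iff_continuousAt.2 fun p => ?_
    have h3 := hVd.continuousOn.continuousAt
      ((hT.isOpen r).mem_nhds (show σ (Λ (u p)) < r by rw [hT.real]; exact hr))
    exact ContinuousAt.comp h3 (Λ.continuous.comp hu).continuousAt
  have hVb : ∀ g, ‖V (Λ g)‖ ≤ s := fun g => hV _ (by rw [hT.real]; exact hr)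
  -- the derivative of the mean along the rotation
  set B₁ : ℝ := 4 * A / r ^ 2 with hB₁
  have hB₁0 : 0 ≤ B₁ := by positivity
  set G : ℝ → ℂ := fun θ => ∫ p : E × E, w (Λ p.1) *
    F (Λ (Real.cos θ • p.1 + Real.sin θ • p.2)) ∂((gm E).prod (gm E)) with hG
  set D : ℝ → ℂ := fun θ => ∫ p : E × E, w (Λ p.1) *
    fderiv ℂ F (Λ (Real.cos θ • p.1 + Real.sin θ • p.2))
      (Λ (-Real.sin θ • p.1 + Real.cos θ • p.2)) ∂((gm E).prod (gm E)) with hD
  have hGD : ∀ θ, HasDerivAt G (D θ) θ := by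
    intro θ
    refine (hasDerivAt_integral_of_dominated_loc_of_deriv_le
      (μ := (gm E).prod (gm E)) (s := Set.univ) (x₀ := θ)
      (F := fun θ p => w (Λ p.1) * F (Λ (Real.cos θ • p.1 + Real.sin θ • p.2)))
      (F' := fun θ p => w (Λ p.1) * fderiv ℂ F (Λ (Real.cos θ • p.1 + Real.sin θ • p.2))
        (Λ (-Real.sin θ • p.1 + Real.cos θ • p.2)))
      (bound := fun p => C₁ * B₁ * ‖Λ‖ * pw p ^ (n + 1)) univ_mem
      (Eventually.of_forall fun θ => ?_) ?_ ?_ (Eventually.of_forall fun p θ _ => ?_)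
      ((int_pw (n + 1)).const_mul _) (Eventually.of_forall fun p θ _ => ?_)).2
    · exact ((hwc.comp (Λ.continuous.comp continuous_fst)).mul
        (hF.cont_real0 hT hr (u := fun p : E × E => Real.cos θ • p.1 + Real.sin θ • p.2)
          (by fun_prop))).aestronglyMeasurable
    · refine int_of_pw (C := C₁ * (A / r)) (n := n) ((hwc.comp (Λ.continuous.comp continuous_fst)).mul
        (hF.cont_real0 hT hr (u := fun p : E × E => Real.cos θ • p.1 + Real.sin θ • p.2)
          (by fun_prop))) fun p => ?_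
      rw [norm_mul]
      have e1 : 1 + ‖p.1‖ ≤ pw p := by
        have := comb_le (c := 1) (s := 0) (by simp) (by simp) p
        simpa using this
      calc ‖w (Λ p.1)‖ * ‖F (Λ (Real.cos θ • p.1 + Real.sin θ • p.2))‖
          ≤ (C₁ * pw p ^ n) * (A / r) := by
            refine mul_le_mul ((hW _).trans ?_) (hF.real_bound hT hr _) (norm_nonneg _) ?_
            · exact mul_le_mul_of_nonneg_left (pow_le_pow_left₀ (by positivity) e1 n) hC₁0
            · have := one_le_pw p
              positivity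
        _ = C₁ * (A / r) * pw p ^ n := by ring
    · refine Continuous.aestronglyMeasurable ?_
      exact (hwc.comp (Λ.continuous.comp continuous_fst)).mul
        (hF.cont_real hT hr (u := fun p : E × E => Real.cos θ • p.1 + Real.sin θ • p.2)
          (v := fun p : E × E => Λ (-Real.sin θ • p.1 + Real.cos θ • p.2)) (by fun_prop)
          (by fun_prop))
    · rw [norm_mul]
      have e1 : 1 + ‖p.1‖ ≤ pw p := by
        have := comb_le (c := 1) (s := 0) (by simp) (by simp) p
        simpa using this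
      have hpw := one_le_pw p
      have e2 : ‖Λ (-Real.sin θ • p.1 + Real.cos θ • p.2)‖ ≤ ‖Λ‖ * pw p :=
        (Λ.le_opNorm _).trans (mul_le_mul_of_nonneg_left
          (comb_le' (by rw [abs_neg]; exact Real.abs_sin_le_one θ) (Real.abs_cos_le_one θ) p)
          (norm_nonneg _))
      calc ‖w (Λ p.1)‖ * ‖fderiv ℂ F (Λ (Real.cos θ • p.1 + Real.sin θ • p.2))
            (Λ (-Real.sin θ • p.1 + Real.cos θ • p.2))‖
          ≤ (C₁ * pw p ^ n) * (B₁ * (‖Λ‖ * pw p)) := by
            refine mul_le_mul ((hW _).trans ?_) ((hF.real_fderiv hT hr _ _).trans ?_)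
              (norm_nonneg _) (by positivity)
            · exact mul_le_mul_of_nonneg_left (pow_le_pow_left₀ (by positivity) e1 n) hC₁0
            · exact mul_le_mul_of_nonneg_left e2 hB₁0
        _ = C₁ * B₁ * ‖Λ‖ * pw p ^ (n + 1) := by ring
    · have h1 : HasDerivAt (fun θ : ℝ => Λ (Real.cos θ • p.1 + Real.sin θ • p.2))
          (Λ (-Real.sin θ • p.1 + Real.cos θ • p.2)) θ :=
        Λ.hasFDerivAt.comp_hasDerivAt θ
          (((Real.hasDerivAt_cos θ).smul_const p.1).add ((Real.hasDerivAt_sin θ).smul_const p.2))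
      have h2 : DifferentiableAt ℂ F (Λ (Real.cos θ • p.1 + Real.sin θ • p.2)) :=
        hF.diff.differentiableAt ((hT.isOpen r).mem_nhds
          (show σ (Λ (Real.cos θ • p.1 + Real.sin θ • p.2)) < r by rw [hT.real]; exact hr))
      have h3 := (h2.hasFDerivAt.restrictScalars ℝ).comp_hasDerivAt θ h1
      exact h3.const_mul _
  -- integration by parts
  have hDJ : ∀ θ, D θ = -(∫ p : E × E, (Real.sin θ : ℂ) * (w (Λ p.1) *
      fderiv ℂ F (Λ (Real.cos θ • p.1 + Real.sin θ • p.2)) (V (Λ p.1)))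
        ∂((gm E).prod (gm E))) := by
    intro θ
    set c := Real.cos θ with hc
    set d := Real.sin θ with hd
    have hcl : |c| ≤ 1 := Real.abs_cos_le_one θ
    have hdl : |d| ≤ 1 := Real.abs_sin_le_one θ
    have hdl' : |-d| ≤ 1 := by rwa [abs_neg]
    have hrot1 : ∀ p : E × E, (ContinuousLinearMap.rotation (-θ) p).1 = c • p.1 + -d • p.2 := by
      intro p
      rw [ContinuousLinearMap.rotation_apply]
      simp [hc, hd]
    have hrot2 : ∀ p : E × E, c • (ContinuousLinearMap.rotation (-θ) p).1 +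
        d • (ContinuousLinearMap.rotation (-θ) p).2 = p.1 := by
      intro p
      have h1 := rot_inv (-θ) p
      rw [neg_neg, ContinuousLinearMap.rotation_apply] at h1
      exact congrArg Prod.fst h1
    have hrot3 : ∀ p : E × E, -d • (ContinuousLinearMap.rotation (-θ) p).1 +
        c • (ContinuousLinearMap.rotation (-θ) p).2 = p.2 := by
      intro p
      have h1 := rot_inv (-θ) p
      rw [neg_neg, ContinuousLinearMap.rotation_apply] at h1
      exact congrArg Prod.snd h1
    have hDrot : D θ = ∫ p : E × E, w (Λ (c • p.1 + -d • p.2)) *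
        fderiv ℂ F (Λ p.1) (Λ p.2) ∂((gm E).prod (gm E)) := by
      rw [hD]
      beta_reduce
      rw [rot_int' (fun p : E × E => w (Λ p.1) *
        fderiv ℂ F (Λ (c • p.1 + d • p.2)) (Λ (-d • p.1 + c • p.2))) ?_ θ]
      · simp only [hrot2, hrot3]
        simp only [hrot1]
      · exact (hwc.comp (Λ.continuous.comp continuous_fst)).mul
          (hF.cont_real hT hr (u := fun p : E × E => c • p.1 + d • p.2)
            (v := fun p : E × E => Λ (-d • p.1 + c • p.2)) (by fun_prop) (by fun_prop))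
    have hJrot : ∫ p : E × E, (d : ℂ) * (w (Λ p.1) *
        fderiv ℂ F (Λ (c • p.1 + d • p.2)) (V (Λ p.1))) ∂((gm E).prod (gm E)) =
        ∫ p : E × E, (d : ℂ) * (w (Λ (c • p.1 + -d • p.2)) *
          fderiv ℂ F (Λ p.1) (V (Λ (c • p.1 + -d • p.2)))) ∂((gm E).prod (gm E)) := by
      rw [rot_int' (fun p : E × E => (d : ℂ) * (w (Λ p.1) *
        fderiv ℂ F (Λ (c • p.1 + d • p.2)) (V (Λ p.1)))) ?_ θ]
      · simp only [hrot2]
        simp only [hrot1]
      · exact continuous_const.mul ((hwc.comp (Λ.continuous.comp continuous_fst)).mul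
          (hF.cont_real hT hr (u := fun p : E × E => c • p.1 + d • p.2)
            (v := fun p : E × E => V (Λ p.1)) (by fun_prop) (hVc continuous_fst)))
    rw [hDrot, hJrot]
    have hint1 : Integrable (fun p : E × E => w (Λ (c • p.1 + -d • p.2)) *
        fderiv ℂ F (Λ p.1) (Λ p.2)) ((gm E).prod (gm E)) := by
      refine int_of_pw (C := C₁ * B₁ * ‖Λ‖) (n := n + 1)
        ((hwc.comp (Λ.continuous.comp (by fun_prop))).mul (hF.cont_real hT hr
          (u := fun p : E × E => p.1) (v := fun p : E × E => Λ p.2) (by fun_prop)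
          (by fun_prop))) fun p => ?_
      rw [norm_mul]
      have hpw := one_le_pw p
      have e1 := comb_le hcl hdl' p
      have e2 : ‖Λ p.2‖ ≤ ‖Λ‖ * pw p := by
        refine (Λ.le_opNorm _).trans (mul_le_mul_of_nonneg_left ?_ (norm_nonneg _))
        have := comb_le' (c := 0) (s := 1) (by simp) (by simp) p
        simpa using this
      calc ‖w (Λ (c • p.1 + -d • p.2))‖ * ‖fderiv ℂ F (Λ p.1) (Λ p.2)‖
          ≤ (C₁ * pw p ^ n) * (B₁ * (‖Λ‖ * pw p)) := by
            refine mul_le_mul ((hW _).trans ?_) ((hF.real_fderiv hT hr _ _).trans ?_)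
              (norm_nonneg _) (by positivity)
            · exact mul_le_mul_of_nonneg_left (pow_le_pow_left₀ (by positivity) e1 n) hC₁0
            · exact mul_le_mul_of_nonneg_left e2 hB₁0
        _ = C₁ * B₁ * ‖Λ‖ * pw p ^ (n + 1) := by ring
    have hint2 : Integrable (fun p : E × E => (d : ℂ) * (w (Λ (c • p.1 + -d • p.2)) *
          fderiv ℂ F (Λ p.1) (V (Λ (c • p.1 + -d • p.2))))) ((gm E).prod (gm E)) := by
      refine Integrable.const_mul ?_ _
      refine int_of_pw (C := C₁ * B₁ * s) (n := n)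
        ((hwc.comp (Λ.continuous.comp (by fun_prop))).mul (hF.cont_real hT hr
          (u := fun p : E × E => p.1) (v := fun p : E × E => V (Λ (c • p.1 + -d • p.2)))
          (by fun_prop) (hVc (by fun_prop)))) fun p => ?_
      rw [norm_mul]
      have hpw := one_le_pw p
      have e1 := comb_le hcl hdl' p
      calc ‖w (Λ (c • p.1 + -d • p.2))‖ * ‖fderiv ℂ F (Λ p.1) (V (Λ (c • p.1 + -d • p.2)))‖
          ≤ (C₁ * pw p ^ n) * (B₁ * s) := by
            refine mul_le_mul ((hW _).trans ?_) ((hF.real_fderiv hT hr _ _).trans ?_)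
              (norm_nonneg _) (by positivity)
            · exact mul_le_mul_of_nonneg_left (pow_le_pow_left₀ (by positivity) e1 n) hC₁0
            · exact mul_le_mul_of_nonneg_left (hVb _) hB₁0
        _ = C₁ * B₁ * s * pw p ^ n := by ring
    rw [integral_prod _ hint1, integral_prod _ hint2, ← integral_neg]
    refine integral_congr_ae (Eventually.of_forall fun x => ?_)
    beta_reduce
    rw [← integral_neg]
    -- the inner integration by parts
    set L := fderiv ℂ F (Λ x) with hL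
    set ℓ : E →L[ℝ] ℂ := (L.restrictScalars ℝ).comp Λ with hℓ
    have hφ : ∀ y, HasFDerivAt (fun y : E => w (Λ (c • x + -d • y)))
        (((fderiv ℂ w (Λ (c • x + -d • y))).restrictScalars ℝ).comp (-d • Λ)) y := by
      intro y
      have h1 : HasFDerivAt (fun y : E => Λ (c • x + -d • y)) (-d • Λ) y := by
        have h2 : (fun y : E => Λ (c • x + -d • y)) = fun y => Λ (c • x) + (-d • Λ) y := by
          funext y
          simp
        rw [h2]
        exact ((-d • Λ).hasFDerivAt).const_add _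
      exact ((hw _).hasFDerivAt.restrictScalars ℝ).comp y h1
    have hst := stein b (φ := fun y : E => w (Λ (c • x + -d • y)))
      (φ' := fun y => ((fderiv ℂ w (Λ (c • x + -d • y))).restrictScalars ℝ).comp (-d • Λ)) hφ
      ?_ (C := C₁ * (1 + ‖Λ‖) * (1 + ‖x‖) ^ n) (n := n) ?_ ?_ ℓ
    · change ∫ y : E, w (Λ (c • x + -d • y)) * ℓ y ∂(gm E) = _
      rw [hst]
      refine integral_congr_ae (Eventually.of_forall fun y => ?_)
      beta_reduce
      have h2 := hwV (c • x + -d • y) L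
      have h3 : ∀ k, (((fderiv ℂ w (Λ (c • x + -d • y))).restrictScalars ℝ).comp (-d • Λ)) (b k) *
          ℓ (b k) = (-d : ℂ) * (fderiv ℂ w (Λ (c • x + -d • y)) (Λ (b k)) * L (Λ (b k))) := by
        intro k
        have h4 : (-d • Λ) (b k) = ((-d : ℝ) : ℂ) • Λ (b k) := by
          simp
        rw [hℓ, ContinuousLinearMap.comp_apply, h4]
        simp only [ContinuousLinearMap.coe_restrictScalars', map_smul, smul_eq_mul,
          ContinuousLinearMap.comp_apply]
        push_cast
        ring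
      simp only [h3]
      rw [← Finset.mul_sum, h2]
      ring
    · have h1 : (fun q : E × E =>
          (((fderiv ℂ w (Λ (c • x + -d • q.1))).restrictScalars ℝ).comp (-d • Λ)) q.2) =
          fun q => fderiv ℂ w (Λ (c • x + -d • q.1)) ((-d • Λ) q.2) := by
        funext q
        rfl
      rw [h1]
      exact (hwc'.comp (Λ.continuous.comp (by fun_prop))).clm_apply (by fun_prop)
    · intro y
      have e1 := comb_le hcl hdl' (x, y)
      refine (hW _).trans ?_
      have e2 : (1 + ‖c • x + -d • y‖) ^ n ≤ (1 + ‖x‖) ^ n * (1 + ‖y‖) ^ n := by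
        rw [← mul_pow]
        exact pow_le_pow_left₀ (by positivity) e1 n
      have e3 := norm_nonneg Λ
      calc C₁ * (1 + ‖c • x + -d • y‖) ^ n ≤ C₁ * ((1 + ‖x‖) ^ n * (1 + ‖y‖) ^ n) :=
            mul_le_mul_of_nonneg_left e2 hC₁0
        _ ≤ (1 + ‖Λ‖) * (C₁ * ((1 + ‖x‖) ^ n * (1 + ‖y‖) ^ n)) := by
            have : 0 ≤ C₁ * ((1 + ‖x‖) ^ n * (1 + ‖y‖) ^ n) := by positivity
            nlinarith
        _ = C₁ * (1 + ‖Λ‖) * (1 + ‖x‖) ^ n * (1 + ‖y‖) ^ n := by ring
    · intro y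
      have e1 := comb_le hcl hdl' (x, y)
      have e2 : (1 + ‖c • x + -d • y‖) ^ n ≤ (1 + ‖x‖) ^ n * (1 + ‖y‖) ^ n := by
        rw [← mul_pow]
        exact pow_le_pow_left₀ (by positivity) e1 n
      have e3 := norm_nonneg Λ
      refine ContinuousLinearMap.opNorm_le_bound _ (by positivity) fun u => ?_
      have e4 : ‖(-d • Λ) u‖ ≤ ‖Λ‖ * ‖u‖ := by
        have e0 : (-d • Λ) u = -d • Λ u := rfl
        rw [e0, norm_smul, Real.norm_eq_abs]
        have := Λ.le_opNorm u
        nlinarith [norm_nonneg (Λ u)]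
      have e5 : ‖(((fderiv ℂ w (Λ (c • x + -d • y))).restrictScalars ℝ).comp (-d • Λ)) u‖ ≤
          (C₁ * ((1 + ‖x‖) ^ n * (1 + ‖y‖) ^ n)) * (‖Λ‖ * ‖u‖) := by
        refine ((fderiv ℂ w (Λ (c • x + -d • y))).le_opNorm ((-d • Λ) u)).trans ?_
        refine mul_le_mul ((hW' _).trans (mul_le_mul_of_nonneg_left e2 hC₁0)) e4 (norm_nonneg _)
          (by positivity)
      refine e5.trans ?_
      have e6 : 0 ≤ C₁ * ((1 + ‖x‖) ^ n * (1 + ‖y‖) ^ n) * ‖u‖ := by positivity
      nlinarith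
  -- assembly
  have hπ := Real.pi_pos
  have hQc : Continuous fun q : ℝ × (E × E) => (Real.sin q.1 : ℂ) * (w (Λ q.2.1) *
      fderiv ℂ F (Λ (Real.cos q.1 • q.2.1 + Real.sin q.1 • q.2.2)) (V (Λ q.2.1))) := by
    refine Continuous.mul (by fun_prop) ((hwc.comp (Λ.continuous.comp (by fun_prop))).mul
      (hF.cont_real hT hr
        (u := fun q : ℝ × (E × E) => Real.cos q.1 • q.2.1 + Real.sin q.1 • q.2.2)
        (v := fun q : ℝ × (E × E) => V (Λ q.2.1)) (by fun_prop) (hVc (by fun_prop))))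
  have hQb : ∀ q : ℝ × (E × E), ‖(Real.sin q.1 : ℂ) * (w (Λ q.2.1) *
      fderiv ℂ F (Λ (Real.cos q.1 • q.2.1 + Real.sin q.1 • q.2.2)) (V (Λ q.2.1)))‖ ≤
      C₁ * B₁ * s * pw q.2 ^ n := by
    intro q
    rw [norm_mul, norm_mul, Complex.norm_real, Real.norm_eq_abs]
    have e0 := Real.abs_sin_le_one q.1
    have hpw := one_le_pw q.2
    have e1 : 1 + ‖q.2.1‖ ≤ pw q.2 := by
      have := comb_le (c := 1) (s := 0) (by simp) (by simp) q.2
      simpa using this
    have e2 : ‖w (Λ q.2.1)‖ *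
        ‖fderiv ℂ F (Λ (Real.cos q.1 • q.2.1 + Real.sin q.1 • q.2.2)) (V (Λ q.2.1))‖ ≤
        (C₁ * pw q.2 ^ n) * (B₁ * s) := by
      refine mul_le_mul ((hW _).trans ?_) ((hF.real_fderiv hT hr _ _).trans ?_)
        (norm_nonneg _) (by positivity)
      · exact mul_le_mul_of_nonneg_left (pow_le_pow_left₀ (by positivity) e1 n) hC₁0
      · exact mul_le_mul_of_nonneg_left (hVb _) hB₁0
    have e3 : 0 ≤ ‖w (Λ q.2.1)‖ *
        ‖fderiv ℂ F (Λ (Real.cos q.1 • q.2.1 + Real.sin q.1 • q.2.2)) (V (Λ q.2.1))‖ := by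
      positivity
    calc |Real.sin q.1| * (‖w (Λ q.2.1)‖ *
        ‖fderiv ℂ F (Λ (Real.cos q.1 • q.2.1 + Real.sin q.1 • q.2.2)) (V (Λ q.2.1))‖) ≤
          1 * ((C₁ * pw q.2 ^ n) * (B₁ * s)) :=
          mul_le_mul e0 e2 e3 zero_le_one
      _ = C₁ * B₁ * s * pw q.2 ^ n := by ring
  have hQi : Integrable (fun q : ℝ × (E × E) => (Real.sin q.1 : ℂ) * (w (Λ q.2.1) *
      fderiv ℂ F (Λ (Real.cos q.1 • q.2.1 + Real.sin q.1 • q.2.2)) (V (Λ q.2.1))))
      ((volume.restrict (Set.Icc 0 (Real.pi / 2))).prod ((gm E).prod (gm E))) := by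
    have h1 : Integrable (fun q : ℝ × (E × E) => C₁ * B₁ * s * pw q.2 ^ n)
        ((volume.restrict (Set.Icc 0 (Real.pi / 2))).prod ((gm E).prod (gm E))) :=
      ((int_pw n).comp_snd _).const_mul _
    exact h1.mono' hQc.aestronglyMeasurable (Eventually.of_forall hQb)
  have hDi : IntegrableOn D (Set.Icc 0 (Real.pi / 2)) volume := by
    have h1 := hQi.integral_prod_left.neg
    refine h1.congr (Eventually.of_forall fun θ => ?_)
    simp only [Pi.neg_apply]
    rw [hDJ]
  have hftc : G (Real.pi / 2) - G 0 = ∫ θ in Set.Icc 0 (Real.pi / 2), D θ := by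
    rw [integral_Icc_eq_integral_Ioc, ← intervalIntegral.integral_of_le (by positivity),
      intervalIntegral.integral_eq_sub_of_hasDerivAt (fun θ _ => hGD θ)]
    rw [intervalIntegrable_iff_integrableOn_Icc_of_le (by positivity)]
    exact hDi
  have hG0 : G 0 = ∫ g, w (Λ g) * F (Λ g) ∂(gm E) := by
    rw [hG]
    have h1 := integral_fun_fst (μ := gm E) (ν := gm E) (fun g : E => w (Λ g) * F (Λ g))
    simp only [Real.cos_zero, Real.sin_zero, one_smul, zero_smul, add_zero]
    rw [h1]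
    simp
  have hG1 : G (Real.pi / 2) = (∫ g, w (Λ g) ∂(gm E)) * (∫ g, F (Λ g) ∂(gm E)) := by
    rw [hG]
    simp only [Real.cos_pi_div_two, Real.sin_pi_div_two, one_smul, zero_smul, zero_add]
    exact integral_prod_mul (fun g : E => w (Λ g)) (fun g : E => F (Λ g))
  have hfin : ∫ θ in Set.Icc 0 (Real.pi / 2), D θ =
      -(∫ g, w (Λ g) * KK Λ V F (Λ g) ∂(gm E)) := by
    simp only [hDJ]
    rw [integral_neg]
    congr 1
    rw [← integral_prod _ hQi]
    -- reorder
    have h1 : ∀ g : E, w (Λ g) * KK Λ V F (Λ g) =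
        ∫ p : ℝ × E, (Real.sin p.1 : ℂ) * (w (Λ g) *
          fderiv ℂ F (Λ (Real.cos p.1 • g + Real.sin p.1 • p.2)) (V (Λ g)))
            ∂((volume.restrict (Set.Icc 0 (Real.pi / 2))).prod (gm E)) := by
      intro g
      unfold KK
      rw [← integral_const_mul]
      refine integral_congr_ae (Eventually.of_forall fun p => ?_)
      beta_reduce
      have h2 : (Real.cos p.1 : ℂ) • Λ g + Λ (Real.sin p.1 • p.2) =
          Λ (Real.cos p.1 • g + Real.sin p.1 • p.2) := by
        rw [map_add, map_smul Λ (Real.cos p.1) g, Complex.coe_smul]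
      rw [h2]
      ring
    simp only [h1]
    have hmp : MeasurePreserving (fun q : E × (ℝ × E) => (q.2.1, (q.1, q.2.2)))
        ((gm E).prod ((volume.restrict (Set.Icc 0 (Real.pi / 2))).prod (gm E)))
        ((volume.restrict (Set.Icc 0 (Real.pi / 2))).prod ((gm E).prod (gm E))) := by
      have h3 := (MeasureTheory.measurePreserving_prodAssoc (gm E)
        (volume.restrict (Set.Icc 0 (Real.pi / 2)) : Measure ℝ) (gm E)).symm
      have h4 := (MeasureTheory.Measure.measurePreserving_swap (μ := gm E)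
        (ν := (volume.restrict (Set.Icc 0 (Real.pi / 2)) : Measure ℝ))).prod
        (MeasurePreserving.id (gm E))
      have h5 := MeasureTheory.measurePreserving_prodAssoc
        (volume.restrict (Set.Icc 0 (Real.pi / 2)) : Measure ℝ) (gm E) (gm E)
      exact (h5.comp (h4.comp h3))
    have h6 : Integrable (fun q : E × (ℝ × E) => (Real.sin q.2.1 : ℂ) * (w (Λ q.1) *
        fderiv ℂ F (Λ (Real.cos q.2.1 • q.1 + Real.sin q.2.1 • q.2.2)) (V (Λ q.1))))
        ((gm E).prod ((volume.restrict (Set.Icc 0 (Real.pi / 2))).prod (gm E))) :=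
      (hmp.integrable_comp hQc.aestronglyMeasurable).2 hQi
    rw [← integral_prod _ h6, ← hmp.map_eq, integral_map hmp.measurable.aemeasurable]
    exact hQc.aestronglyMeasurable
  rw [hfin, hG0, hG1] at hftc
  linear_combination -hftc

end Pool.Agent.H783.Sig
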