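import Pool.Agent.H783.Sig.Weight

/-!
# The mean of `det (1 + i ∑ g_b k_b)` is not zero
-/

set_option autoImplicit false

namespace Pool.Agent.H783.Sig

open Finset Pool.Agent.H783.Hopf MeasureTheory
open scoped ComplexConjugate

variable {J : Type} [Fintype J] [DecidableEq J] {K : Type} [Fintype K]

theorem growth_det (k : K → J → J → ℝ) :
    ∃ C : ℝ, ∀ x, ‖(mt k x).det‖ ≤ C * (1 + ‖x‖) ^ Fintype.card J := by
  set Mk : ℝ := ∑ b, ∑ i, ∑ j, |k b i j| with hMk
  have hMk0 : 0 ≤ Mk := by positivity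
  refine ⟨(Fintype.card J).factorial * (1 + Mk) ^ Fintype.card J, fun x => ?_⟩
  have h1 : ∀ i j, ‖mt k x i j‖ ≤ (1 + Mk) * (1 + ‖x‖) := by
    intro i j
    rw [mt_apply]
    have e1 : ‖(1 : Matrix J J ℂ) i j‖ ≤ 1 := by
      rw [Matrix.one_apply]
      split_ifs <;> simp
    have e2 : ‖∑ b, x b * (k b i j : ℂ)‖ ≤ ∑ b, ‖x‖ * |k b i j| := by
      refine norm_sum_le_of_le _ fun b _ => ?_
      rw [norm_mul, Complex.norm_real, Real.norm_eq_abs]
      exact mul_le_mul_of_nonneg_right (PiLp.norm_apply_le x b) (abs_nonneg _)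
    have e3 : ∑ b, ‖x‖ * |k b i j| ≤ ‖x‖ * Mk := by
      rw [← Finset.mul_sum, hMk]
      refine mul_le_mul_of_nonneg_left (Finset.sum_le_sum fun b _ => ?_) (norm_nonneg _)
      calc |k b i j| ≤ ∑ j, |k b i j| :=
            Finset.single_le_sum (f := fun j => |k b i j|) (fun _ _ => abs_nonneg _)
              (Finset.mem_univ j)
        _ ≤ ∑ i, ∑ j, |k b i j| :=
            Finset.single_le_sum (f := fun i => ∑ j, |k b i j|)
              (fun _ _ => Finset.sum_nonneg fun _ _ => abs_nonneg _) (Finset.mem_univ i)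
    have e4 : ‖Complex.I * ∑ b, x b * (k b i j : ℂ)‖ ≤ ‖x‖ * Mk := by
      rw [norm_mul, Complex.norm_I, one_mul]
      exact e2.trans e3
    refine (norm_add_le _ _).trans ?_
    nlinarith [norm_nonneg x]
  rw [Matrix.det_apply']
  have h2 : ∀ σ : Equiv.Perm J, ‖((Equiv.Perm.sign σ : ℤ) : ℂ) * ∏ i, mt k x (σ i) i‖ ≤
      ((1 + Mk) * (1 + ‖x‖)) ^ Fintype.card J := by
    intro σ
    rw [norm_mul]
    have e1 : ‖((Equiv.Perm.sign σ : ℤ) : ℂ)‖ = 1 := by
      rcases Int.units_eq_one_or (Equiv.Perm.sign σ) with h | h <;> simp [h]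
    rw [e1, one_mul, norm_prod]
    calc ∏ i, ‖mt k x (σ i) i‖ ≤ ∏ _i : J, ((1 + Mk) * (1 + ‖x‖)) :=
          Finset.prod_le_prod (fun i _ => norm_nonneg _) fun i _ => h1 _ _
      _ = ((1 + Mk) * (1 + ‖x‖)) ^ Fintype.card J := by
          rw [Finset.prod_const, Finset.card_univ]
  calc ‖∑ σ : Equiv.Perm J, ((Equiv.Perm.sign σ : ℤ) : ℂ) * ∏ i, mt k x (σ i) i‖
      ≤ ∑ _σ : Equiv.Perm J, ((1 + Mk) * (1 + ‖x‖)) ^ Fintype.card J :=
        norm_sum_le_of_le _ fun σ _ => h2 σ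
    _ = (Fintype.card J).factorial * (1 + Mk) ^ Fintype.card J *
          (1 + ‖x‖) ^ Fintype.card J := by
        rw [Finset.sum_const, Finset.card_univ, Fintype.card_perm, nsmul_eq_mul, mul_pow]
        ring

section small

variable {k : K → J → J → ℝ} {τ : ℝ}

omit [DecidableEq J] in
theorem qf_comb (k : K → J → J → ℝ) (v : K → ℝ) (p : EuclideanSpace ℝ J) :
    qf (fun i j => ∑ b, v b * k b i j) p = ∑ b, v b * qf (k b) p := by
  unfold qf
  simp only [Finset.mul_sum, Finset.sum_mul]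
  have h : ∀ i : J, ∑ j, ∑ b, v b * k b i j * (p i * p j) =
      ∑ b, ∑ j, v b * (k b i j * (p i * p j)) := by
    intro i
    rw [Finset.sum_comm]
    exact Finset.sum_congr rfl fun b _ => Finset.sum_congr rfl fun j _ => by ring
  simp only [h]
  rw [Finset.sum_comm]

omit [DecidableEq J] in
/-- combinations of the family are small -/
theorem comb_small (hk : ∀ p : EuclideanSpace ℝ J, ∑ b, qf (k b) p ^ 2 ≤ (τ * ‖p‖ ^ 2) ^ 2)
    (hτ : 0 ≤ τ) (v : EuclideanSpace ℝ K) (p : EuclideanSpace ℝ J) :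
    |qf (fun i j => ∑ b, v b * k b i j) p| ≤ τ * ‖v‖ * ‖p‖ ^ 2 := by
  rw [qf_comb]
  have h1 : (∑ b, v b * qf (k b) p) ^ 2 ≤ (τ * ‖v‖ * ‖p‖ ^ 2) ^ 2 := by
    refine (Finset.sum_mul_sq_le_sq_mul_sq _ _ _).trans ?_
    have h2 : ∑ b, v b ^ 2 = ‖v‖ ^ 2 := by
      rw [EuclideanSpace.norm_sq_eq]
      simp
    rw [h2]
    calc ‖v‖ ^ 2 * ∑ b, qf (k b) p ^ 2 ≤ ‖v‖ ^ 2 * (τ * ‖p‖ ^ 2) ^ 2 :=
          mul_le_mul_of_nonneg_left (hk p) (sq_nonneg _)
      _ = (τ * ‖v‖ * ‖p‖ ^ 2) ^ 2 := by ring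
  exact abs_le_of_sq_le_sq h1 (by positivity)

theorem sv_mt (hs : ∀ b i j, k b i j = k b j i) (x : EuclideanSpace ℂ K) (z : J → ℂ) :
    (sv (mt k x) z).re = nq z - (qf (fun i j => ∑ b, imv x b * k b i j)
        (WithLp.toLp 2 fun j => (z j).re) +
      qf (fun i j => ∑ b, imv x b * k b i j) (WithLp.toLp 2 fun j => (z j).im)) := by
  have h0 : sv (mt k x) z = sv (1 : Matrix J J ℂ) z +
      Complex.I * ∑ b, x b * sv (cx (k b)) z := by
    unfold sv mt
    rw [Finset.mul_sum]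
    have h1 : ∀ b, Complex.I * (x b * ∑ j, conj (z j) * (cx (k b)).mulVec z j) =
        ∑ j, Complex.I * (x b * (conj (z j) * (cx (k b)).mulVec z j)) := by
      intro b
      rw [Finset.mul_sum, Finset.mul_sum]
    simp only [h1]
    rw [Finset.sum_comm, ← Finset.sum_add_distrib]
    refine Finset.sum_congr rfl fun j _ => ?_
    rw [Matrix.add_mulVec, Pi.add_apply, Matrix.smul_mulVec, Pi.smul_apply, Matrix.sum_mulVec,
      Finset.sum_apply]
    simp only [Matrix.smul_mulVec, Pi.smul_apply, smul_eq_mul]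
    rw [mul_add, Finset.mul_sum, Finset.mul_sum]
    congr 1
    refine Finset.sum_congr rfl fun b _ => ?_
    ring
  have h1 : sv (1 : Matrix J J ℂ) z = (nq z : ℂ) := by
    unfold sv nq
    push_cast
    refine Finset.sum_congr rfl fun j _ => ?_
    rw [Matrix.one_mulVec, Complex.conj_mul']
  rw [h0, h1]
  have h2 : ∀ b, sv (cx (k b)) z = ((qf (k b) (WithLp.toLp 2 fun j => (z j).re) +
      qf (k b) (WithLp.toLp 2 fun j => (z j).im) : ℝ) : ℂ) := fun b => sv_real (hs b) z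
  simp only [h2]
  rw [Complex.add_re, Complex.ofReal_re, Complex.I_mul_re, Complex.im_sum, qf_comb, qf_comb,
    ← Finset.sum_add_distrib, sub_eq_add_neg]
  congr 2
  refine Finset.sum_congr rfl fun b _ => ?_
  rw [Complex.im_mul_ofReal]
  simp only [imv]
  ring

theorem nq_parts (z : J → ℂ) : nq z = ‖(WithLp.toLp 2 fun j => (z j).re : EuclideanSpace ℝ J)‖ ^ 2 +
    ‖(WithLp.toLp 2 fun j => (z j).im : EuclideanSpace ℝ J)‖ ^ 2 := by
  rw [EuclideanSpace.norm_sq_eq, EuclideanSpace.norm_sq_eq, ← Finset.sum_add_distrib]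
  unfold nq
  refine Finset.sum_congr rfl fun j _ => ?_
  rw [Complex.sq_norm, Complex.normSq_apply]
  simp only [Real.norm_eq_abs, sq_abs]
  ring

/-- the matrices of the tube are coercive -/
theorem coer_mt (hs : ∀ b i j, k b i j = k b j i)
    (hk : ∀ p : EuclideanSpace ℝ J, ∑ b, qf (k b) p ^ 2 ≤ (τ * ‖p‖ ^ 2) ^ 2)
    (hτ : 0 ≤ τ) (x : EuclideanSpace ℂ K) : Coer (mt k x) (1 - τ * ‖imv x‖) := by
  intro z
  rw [sv_mt hs]
  have h1 := comb_small hk hτ (imv x) (WithLp.toLp 2 fun j => (z j).re)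
  have h2 := comb_small hk hτ (imv x) (WithLp.toLp 2 fun j => (z j).im)
  have h3 := le_abs_self (qf (fun i j => ∑ b, imv x b * k b i j)
        (WithLp.toLp 2 fun j => (z j).re))
  have h4 := le_abs_self (qf (fun i j => ∑ b, imv x b * k b i j)
        (WithLp.toLp 2 fun j => (z j).im))
  have h5 := nq_parts z
  rw [h5]
  nlinarith

/-- the trace against a complex combination -/
theorem trace_comb (hs : ∀ b i j, k b i j = k b j i)
    (hk : ∀ p : EuclideanSpace ℝ J, ∑ b, qf (k b) p ^ 2 ≤ (τ * ‖p‖ ^ 2) ^ 2)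
    (hτ : 0 < τ) {M : Matrix J J ℂ} {p : ℝ} (hM : Coer M p) (hp : 0 < p)
    (c : EuclideanSpace ℂ K) :
    ‖(M⁻¹ * (Complex.I • ∑ b, c b • cx (k b))).trace‖ ≤
      2 * (Fintype.card J * (τ * ‖c‖ / p)) := by
  rcases eq_or_ne c 0 with rfl | hc
  · simp
  · have hc0 : 0 < ‖c‖ := norm_pos_iff.2 hc
    have hrev : ‖rev c‖ ≤ ‖c‖ := by
      rw [EuclideanSpace.norm_eq, EuclideanSpace.norm_eq]
      refine Real.sqrt_le_sqrt (Finset.sum_le_sum fun b _ => ?_)
      refine pow_le_pow_left₀ (norm_nonneg _) ?_ 2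
      simp only [rev]
      rw [Real.norm_eq_abs]
      exact Complex.abs_re_le_norm (c b)
    have hsym : ∀ (v : EuclideanSpace ℝ K) (i j : J),
        ∑ b, v b * k b i j = ∑ b, v b * k b j i := fun v i j =>
      Finset.sum_congr rfl fun b _ => by rw [hs b i j]
    have h1 : ∀ v : EuclideanSpace ℝ K, ‖v‖ ≤ ‖c‖ →
        ‖(M⁻¹ * cx (fun i j => ∑ b, v b * k b i j)).trace‖ ≤
          Fintype.card J * (τ * ‖c‖ / p) := by
      intro v hv
      refine hM.trace_le hp (hsym v) (by positivity) fun q => ?_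
      refine (comb_small hk hτ.le v q).trans ?_
      have : 0 ≤ ‖q‖ ^ 2 := by positivity
      nlinarith [mul_le_mul_of_nonneg_left hv hτ.le]
    have h2 : Complex.I • ∑ b, c b • cx (k b) =
        Complex.I • cx (fun i j => ∑ b, rev c b * k b i j) -
          cx (fun i j => ∑ b, imv c b * k b i j) := by
      ext i j
      simp only [Matrix.smul_apply, Matrix.sum_apply, Matrix.sub_apply, cx, Matrix.of_apply,
        smul_eq_mul, rev, imv]
      push_cast
      rw [Finset.mul_sum, Finset.mul_sum, ← Finset.sum_sub_distrib]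
      refine Finset.sum_congr rfl fun b _ => ?_
      conv_lhs => rw [← Complex.re_add_im (c b)]
      linear_combination (-((c b).im : ℂ) * (k b i j : ℂ)) * (-Complex.I_sq)
    rw [h2, Matrix.mul_sub, Matrix.trace_sub, Matrix.mul_smul, Matrix.trace_smul]
    refine (norm_sub_le _ _).trans ?_
    rw [norm_smul, Complex.norm_I, one_mul]
    have h3 := h1 (rev c) hrev
    have h4 := h1 (imv c) (imv_le c)
    linarith

/-- the vector field is bounded -/
theorem vf_le (hs : ∀ b i j, k b i j = k b j i)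
    (hk : ∀ p : EuclideanSpace ℝ J, ∑ b, qf (k b) p ^ 2 ≤ (τ * ‖p‖ ^ 2) ^ 2)
    (hτ : 0 < τ) {x : EuclideanSpace ℂ K} {p : ℝ} (hM : Coer (mt k x) p) (hp : 0 < p) :
    ‖vf k x‖ ≤ 2 * (Fintype.card J * (τ / p)) := by
  set c : EuclideanSpace ℂ K := WithLp.toLp 2 fun b => conj (vf k x b) with hc
  have hcn : ‖c‖ = ‖vf k x‖ := by
    rw [EuclideanSpace.norm_eq, EuclideanSpace.norm_eq]
    congr 1
    refine Finset.sum_congr rfl fun b _ => ?_
    simp [hc]
  have h1 := trace_comb hs hk hτ hM hp c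
  have h2 : ((mt k x)⁻¹ * (Complex.I • ∑ b, c b • cx (k b))).trace = ((‖vf k x‖ ^ 2 : ℝ) : ℂ) := by
    have h3 : ((mt k x)⁻¹ * (Complex.I • ∑ b, c b • cx (k b))).trace =
        ∑ b, c b * vf k x b := by
      rw [Finset.smul_sum, Matrix.mul_sum, Matrix.trace_sum]
      refine Finset.sum_congr rfl fun b _ => ?_
      rw [vf_eq, smul_comm, Matrix.mul_smul, Matrix.trace_smul, smul_eq_mul]
    rw [h3, EuclideanSpace.norm_sq_eq]
    push_cast
    refine Finset.sum_congr rfl fun b _ => ?_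
    simp only [hc]
    rw [Complex.conj_mul']
  rw [h2, hcn, Complex.norm_real, Real.norm_of_nonneg (sq_nonneg _)] at h1
  rcases (norm_nonneg (vf k x)).eq_or_lt with h0 | h0
  · rw [← h0]
    positivity
  · have h4 : ‖vf k x‖ * ‖vf k x‖ ≤ ‖vf k x‖ * (2 * (Fintype.card J * (τ / p))) := by
      calc ‖vf k x‖ * ‖vf k x‖ = ‖vf k x‖ ^ 2 := by ring
        _ ≤ 2 * (Fintype.card J * (τ * ‖vf k x‖ / p)) := h1
        _ = ‖vf k x‖ * (2 * (Fintype.card J * (τ / p))) := by ring
    exact le_of_mul_le_mul_left h4 h0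

/-- **The mean is not zero.** -/
theorem mean_ge (hs : ∀ b i j, k b i j = k b j i)
    (hk : ∀ p : EuclideanSpace ℝ J, ∑ b, qf (k b) p ^ 2 ≤ (τ * ‖p‖ ^ 2) ^ 2)
    (hτ : 0 < τ) (hn : 64 * (Fintype.card J * τ ^ 2) ≤ 1) :
    1 / 2 * (1 / 2) ^ Fintype.card J ≤
      ‖∫ g : EuclideanSpace ℝ K, (mt k (emb g)).det ∂(gm (EuclideanSpace ℝ K))‖ := by
  set n := Fintype.card J with hn'
  set r : ℝ := 1 / (2 * τ) with hr
  have hr0 : 0 < r := by positivity
  have hco : ∀ x : EuclideanSpace ℂ K, ‖imv x‖ < r → Coer (mt k x) (1 / 2) := by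
    intro x hx z
    have h1 := coer_mt hs hk hτ.le x z
    have h2 : τ * ‖imv x‖ ≤ 1 / 2 := by
      have := mul_le_mul_of_nonneg_left hx.le hτ.le
      rw [hr] at this
      have h3 : τ * (1 / (2 * τ)) = 1 / 2 := by field_simp
      linarith
    have h4 := nq_nonneg z
    nlinarith
  have hdet : ∀ x : EuclideanSpace ℂ K, ‖imv x‖ < r → (mt k x).det ≠ 0 := fun x hx =>
    (hco x hx).inj (by norm_num)
  obtain ⟨C, hC⟩ := growth_det k
  have hF : Cls (fun x : EuclideanSpace ℂ K => ‖imv x‖) r (r * 2 ^ n)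
      (fun x => ((mt k x).det)⁻¹) := by
    constructor
    · exact (det_diff (mt_diff k)).differentiableOn.fun_inv fun x hx => hdet x hx
    · intro x hx
      have h1 := (hco x hx).det_le (by norm_num)
      rw [norm_inv]
      have h2 : ‖(mt k x).det‖⁻¹ ≤ ((1 / 2 : ℝ) ^ n)⁻¹ := inv_anti₀ (by positivity) h1
      have h3 : ((1 / 2 : ℝ) ^ n)⁻¹ = 2 ^ n := by
        rw [one_div, inv_pow, inv_inv]
      rw [h3] at h2
      refine h2.trans ?_
      rw [le_div_iff₀ (by linarith)]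
      have := norm_nonneg (imv x)
      have h4 : (0 : ℝ) < 2 ^ n := by positivity
      nlinarith
  have hκ : 4 * (4 * (n * τ)) / r = 32 * (n * τ ^ 2) := by
    rw [hr]
    field_simp
    ring
  have hmain := mean_lower (EuclideanSpace.basisFun K ℝ) tube hr0 hF
    (s := 4 * (n * τ)) (by positivity) (V := vf k)
    (vf_diff k fun x hx => hdet x hx)
    (fun x hx => by
      refine (vf_le hs hk hτ (hco x hx) (by norm_num)).trans (le_of_eq ?_)
      ring)
    (det_diff (mt_diff k)) hC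
    (fun g L => by
      classical
      have h1 : (mt k (emb g)).det ≠ 0 := hdet _ (by rw [tube.real]; exact hr0)
      have hbas : ∀ b c : K, (emb (EuclideanSpace.basisFun K ℝ b)) c = if c = b then 1 else 0 := by
        intro b c
        rw [emb_apply, EuclideanSpace.basisFun_apply]
        by_cases h : c = b
        · subst h
          simp
        · simp [h]
      have h2 : vf k (emb g) = ∑ b, vf k (emb g) b • emb (EuclideanSpace.basisFun K ℝ b) := by
        ext b
        rw [WithLp.ofLp_sum, Finset.sum_apply, Finset.sum_eq_single b]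
        · rw [PiLp.smul_apply, hbas, if_pos rfl, smul_eq_mul, mul_one]
        · intro c _ hc
          rw [PiLp.smul_apply, hbas, if_neg (Ne.symm hc), smul_zero]
        · intro hn
          exact absurd (Finset.mem_univ _) hn
      conv_rhs => rw [h2]
      rw [map_sum, Finset.mul_sum]
      refine Finset.sum_congr rfl fun b _ => ?_
      rw [fderiv_weight k _ _ h1, map_smul, smul_eq_mul, vf_eq]
      have h3 : ∑ c, (emb (EuclideanSpace.basisFun K ℝ b)) c • cx (k c) = cx (k b) := by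
        rw [Finset.sum_eq_single b]
        · rw [hbas, if_pos rfl, one_smul]
        · intro c _ hc
          rw [hbas, if_neg hc, zero_smul]
        · intro hn
          exact absurd (Finset.mem_univ _) hn
      rw [h3]
      ring)
    (fun g => mul_inv_cancel₀ (hdet _ (by rw [tube.real]; exact hr0)))
    (by rw [hκ]; linarith)
  rw [hκ] at hmain
  set Z := ‖∫ g : EuclideanSpace ℝ K, (mt k (emb g)).det ∂(gm (EuclideanSpace ℝ K))‖ with hZ
  have hZ0 : 0 ≤ Z := norm_nonneg _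
  have h5 : r * 2 ^ n / r / (1 - 32 * (n * τ ^ 2)) ≤ 2 ^ n * 2 := by
    have h6 : r * 2 ^ n / r = 2 ^ n := by field_simp
    rw [h6, div_le_iff₀ (by linarith)]
    have h7 : (0 : ℝ) < 2 ^ n := by positivity
    nlinarith
  have h8 : 1 ≤ Z * (2 ^ n * 2) := hmain.trans (mul_le_mul_of_nonneg_left h5 hZ0)
  have h9 : (1 / 2 : ℝ) ^ n * 2 ^ n = 1 := by
    rw [← mul_pow]
    norm_num
  have h10 : (0 : ℝ) < (1 / 2) ^ n := by positivity
  nlinarith [mul_le_mul_of_nonneg_left h8 h10.le]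

end small

end Pool.Agent.H783.Sig
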