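import Pool.Agent.H783.Sig.Gauss
import Pool.Graph.R_seed8.Y489.SM.Md

/-!
# Gaussian means of forms and sums over the diagonal of the pairs
-/

set_option autoImplicit false

namespace Pool.Agent.H783.Sig

open Finset MeasureTheory ProbabilityTheory
open Pool.Agent.Y489.SM (Sy LW LW_pairs wick cnt mu wt)

/-- the Gaussian product measure -/
noncomputable def gp (ι : Type) [Fintype ι] : Measure (ι → ℝ) :=
  Measure.pi fun _ => gaussianReal 0 1

instance (ι : Type) [Fintype ι] : IsProbabilityMeasure (gp ι) := by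
  unfold gp
  infer_instance

/-- moments -/
noncomputable def mo (n : ℕ) : ℝ := ∫ x, x ^ n ∂(gaussianReal 0 1)

theorem int_pow1 (n : ℕ) : Integrable (fun x : ℝ => x ^ n) (gaussianReal 0 1) := by
  have h : Integrable (fun x : ℝ => ‖x‖ ^ n) (gaussianReal 0 1) := by
    rcases Nat.eq_zero_or_pos n with rfl | hn
    · simp
    · have h1 : MemLp id (n : ENNReal) (gaussianReal 0 1) := by
        have := memLp_id_gaussianReal (μ := 0) (v := 1) (n : NNReal)
        simpa using this
      exact h1.integrable_norm_pow (by omega)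
  refine h.mono' (by fun_prop) (Filter.Eventually.of_forall fun x => ?_)
  rw [norm_pow]

theorem mo_eq (n : ℕ) : mo n = (Real.sqrt (2 * Real.pi))⁻¹ * mu n := by
  unfold mo mu
  rw [integral_gaussianReal_eq_integral_smul (by norm_num), ← integral_const_mul]
  refine integral_congr_ae (Filter.Eventually.of_forall fun x => ?_)
  simp only [gaussianPDFReal_def, wt, smul_eq_mul, NNReal.coe_one, mul_one, sub_zero]
  rw [mul_comm (x ^ n)]
  rw [mul_assoc]
  congr 3
  ring

variable {ι : Type} [Fintype ι] [DecidableEq ι] {J : Type} [Fintype J]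

theorem monomial_eq (β : J → ι) (ζ : ι → ℝ) : ∏ j, ζ (β j) = ∏ k, (ζ k) ^ cnt β k := by
  rw [← Finset.prod_fiberwise_of_maps_to (s := univ) (t := univ) (g := β) (fun _ _ => mem_univ _)]
  refine Finset.prod_congr rfl fun k _ => ?_
  rw [cnt, Finset.prod_congr rfl (g := fun _ => ζ k), Finset.prod_const]
  intro j hj
  rw [(Finset.mem_filter.1 hj).2]

theorem int_monomial (β : J → ι) : Integrable (fun ζ : ι → ℝ => ∏ j, ζ (β j)) (gp ι) := by
  simp only [monomial_eq]
  unfold gp
  exact Integrable.fintype_prod (f := fun k (x : ℝ) => x ^ cnt β k) fun k => int_pow1 _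

theorem integral_monomial (β : J → ι) :
    ∫ ζ : ι → ℝ, ∏ j, ζ (β j) ∂(gp ι) = ((Real.sqrt (2 * Real.pi))⁻¹) ^ Fintype.card ι * wick β := by
  simp only [monomial_eq]
  unfold gp
  rw [integral_fintype_prod_eq_prod (fun k (x : ℝ) => x ^ cnt β k)]
  unfold wick
  have h : ∀ k, ∫ x, x ^ cnt β k ∂(gaussianReal 0 1) =
      (Real.sqrt (2 * Real.pi))⁻¹ * mu (cnt β k) := fun k => mo_eq _
  simp only [h, Finset.prod_mul_distrib, Finset.prod_const, Finset.card_univ]

variable [DecidableEq J]

theorem int_form (F : (J → ι) → ℝ) :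
    Integrable (fun ζ : ι → ℝ => ∑ β : J → ι, (∏ j, ζ (β j)) * F β) (gp ι) :=
  integrable_finsetSum _ fun β _ => (int_monomial β).mul_const _

theorem integral_form (F : (J → ι) → ℝ) :
    ∫ ζ : ι → ℝ, ∑ β : J → ι, (∏ j, ζ (β j)) * F β ∂(gp ι) =
      ((Real.sqrt (2 * Real.pi))⁻¹) ^ Fintype.card ι * LW F := by
  rw [integral_finsetSum _ fun β _ => (int_monomial β).mul_const _]
  unfold LW
  rw [Finset.mul_sum]
  refine Finset.sum_congr rfl fun β _ => ?_
  rw [integral_mul_const, integral_monomial]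
  ring

omit [Fintype J] [DecidableEq J] in
theorem mean_one (k : ι) (n : ℕ) : ∫ ζ : ι → ℝ, ζ k ^ n ∂(gp ι) = mo n := by
  unfold gp mo
  have h := (measurePreserving_eval (fun _ : ι => gaussianReal 0 1) k)
  conv_rhs => rw [← h.map_eq]
  rw [integral_map h.measurable.aemeasurable (by fun_prop)]

/-- **The Gaussian mean of a symmetric form.** -/
theorem mean_form (m : ℕ) (hm : 1 ≤ m) (F : (Fin m × Bool → ι) → ℝ) (hF : Sy F) :
    ∫ ζ : ι → ℝ, ∑ β : Fin m × Bool → ι, (∏ j, ζ (β j)) * F β ∂(gp ι) =
      mo (2 * m) * ∑ α : Fin m → ι, F (fun x => α x.1) := by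
  obtain ⟨C, hC, hL⟩ := LW_pairs (K := ι) m
  rw [integral_form, hL F hF]
  rcases isEmpty_or_nonempty ι with he | ⟨⟨k₀⟩⟩
  · have h1 : IsEmpty (Fin m → ι) := ⟨fun α => he.elim (α ⟨0, hm⟩)⟩
    rw [Finset.univ_eq_empty, Finset.sum_empty]
    ring
  · -- the constant from one monomial
    set F₀ : (Fin m × Bool → ι) → ℝ := fun β => if ∀ j, β j = k₀ then 1 else 0 with hF₀
    have hs : Sy F₀ := by
      intro π β
      simp only [hF₀]
      have : (∀ j, β (π j) = k₀) ↔ ∀ j, β j = k₀ :=
        ⟨fun h j => by simpa using h (π.symm j), fun h j => h (π j)⟩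
      simp only [this]
    have h1 := integral_form F₀
    rw [hL F₀ hs] at h1
    have h2 : ∑ α : Fin m → ι, F₀ (fun x => α x.1) = 1 := by
      rw [Finset.sum_eq_single (fun _ => k₀)]
      · simp [hF₀]
      · intro β _ hβ
        simp only [hF₀]
        rw [if_neg]
        intro hn
        exact hβ (funext fun b => hn (b, true))
      · intro hn
        exact absurd (Finset.mem_univ _) hn
    have h3 : ∀ ζ : ι → ℝ, ∑ β : Fin m × Bool → ι, (∏ j, ζ (β j)) * F₀ β = ζ k₀ ^ (2 * m) := by
      intro ζ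
      rw [Finset.sum_eq_single (fun _ => k₀)]
      · simp only [hF₀, implies_true, if_true, mul_one, Finset.prod_const, Finset.card_univ,
          Fintype.card_prod, Fintype.card_fin, Fintype.card_bool]
        rw [mul_comm m 2]
      · intro β _ hβ
        simp only [hF₀]
        rw [if_neg, mul_zero]
        intro hn
        exact hβ (funext hn)
      · intro hn
        exact absurd (Finset.mem_univ _) hn
    simp only [h3] at h1
    rw [mean_one, h2, mul_one] at h1
    rw [h1]
    ring

end Pool.Agent.H783.Sig
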