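import Pool.Agent.H783.Sig.Pos
import Pool.Agent.H783.Sig.Wick
import Pool.Agent.H783.Hopf.Ball

/-!
# The pointwise inequality
-/

set_option autoImplicit false

namespace Pool.Agent.H783.Sig

open Finset Pool.Agent.H783.Hopf MeasureTheory ProbabilityTheory Metric
open scoped ComplexConjugate

variable {J : Type} [Fintype J] [DecidableEq J] {K : Type} [Fintype K]

theorem gm_eq (f : EuclideanSpace ℝ K → ℂ) :
    ∫ g, f g ∂(gm (EuclideanSpace ℝ K)) = ∫ ζ : K → ℝ, f (WithLp.toLp 2 ζ) ∂(gp K) := by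
  unfold gm gp
  rw [← map_pi_eq_stdGaussian]
  exact (MeasurableEquiv.toLp 2 (K → ℝ)).measurableEmbedding.integral_map f

/-- an upper bound for determinants from the numerical range -/
theorem det_ge {M : Matrix J J ℂ} {R : ℝ} (hM : ∀ z, ‖sv M z‖ ≤ R * nq z) (hR : 0 ≤ R) :
    ‖M.det‖ ≤ R ^ Fintype.card J := by
  rw [Matrix.det_eq_prod_roots_charpoly]
  have hcard : Multiset.card M.charpoly.roots = Fintype.card J := by
    rw [← Matrix.charpoly_natDegree_eq_dim M]
    exact (IsAlgClosed.splits M.charpoly).natDegree_eq_card_roots.symm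
  have hroot : ∀ μ ∈ M.charpoly.roots, ‖μ‖ ≤ R := by
    intro μ hμ
    have h1 : M.charpoly.eval μ = 0 := (Polynomial.mem_roots'.1 hμ).2
    rw [Matrix.eval_charpoly] at h1
    obtain ⟨z, hz, hMz⟩ := Matrix.exists_mulVec_eq_zero_iff.2 h1
    have h2 : sv (Matrix.scalar J μ - M) z = 0 := by
      unfold sv
      rw [hMz]
      simp
    rw [sv_sub, sv_scalar, sub_eq_zero] at h2
    have h3 := hM z
    rw [← h2, norm_mul, Complex.norm_real, Real.norm_of_nonneg (nq_nonneg z)] at h3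
    have h4 : 0 < nq z := by
      rcases (nq_nonneg z).eq_or_lt with h | h
      · exfalso
        apply hz
        funext j
        have h5 := (Finset.sum_eq_zero_iff_of_nonneg fun j _ => sq_nonneg ‖z j‖).1 h.symm j
          (Finset.mem_univ j)
        simpa using h5
      · exact h
    exact le_of_mul_le_mul_right h3 h4
  rw [← hcard]
  have h6 : ∀ s : Multiset ℂ, (∀ μ ∈ s, ‖μ‖ ≤ R) → ‖s.prod‖ ≤ R ^ Multiset.card s := by
    intro s
    induction s using Multiset.induction_on with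
    | empty => simp
    | cons a s ih =>
      intro h
      rw [Multiset.card_cons, Multiset.prod_cons, pow_succ', norm_mul]
      exact mul_le_mul (h a (Multiset.mem_cons_self a s))
        (ih fun μ hμ => h μ (Multiset.mem_cons_of_mem hμ)) (norm_nonneg _) hR
  exact h6 _ hroot

/-- the majorant of a power of the norm of a symmetric matrix -/
noncomputable def bb (m : ℕ) (S : J → J → ℝ) : ℝ :=
  (∫ x : EuclideanSpace ℝ J in ball 0 1, (qf S x ^ 2) ^ m) / (1 / 2 * (1 / 8) ^ (2 * m) * vb J)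

omit [DecidableEq J] in
theorem bb_nonneg (m : ℕ) (S : J → J → ℝ) : 0 ≤ bb m S := by
  have := vb_pos (J := J)
  unfold bb
  refine div_nonneg (integral_nonneg fun x => by positivity) (by positivity)

theorem norm_bound {m : ℕ} (hm : 1 ≤ m) (hJ : Fintype.card J = 2 * m) {S : J → J → ℝ}
    (hS : ∀ i j, S i j = S j i) :
    ∃ b : ℝ, 0 ≤ b ∧ (b ^ 2) ^ m ≤ bb m S ∧
      ∀ x : EuclideanSpace ℝ J, |qf S x| ≤ b * ‖x‖ ^ 2 := by
  have hH : (Matrix.of S).IsHermitian := by
    ext i j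
    simp [hS i j]
  obtain ⟨lam, v, hq, -⟩ := spec (Matrix.of S) hH
  have hne : Nonempty J := by
    rw [← Fintype.card_pos_iff]
    omega
  obtain ⟨k₀, hk⟩ : ∃ k₀, ∀ k, |lam k| ≤ |lam k₀| := by
    obtain ⟨k₀, _, hk⟩ := Finset.exists_max_image (univ : Finset J) (fun k => |lam k|)
      Finset.univ_nonempty
    exact ⟨k₀, fun k => hk k (Finset.mem_univ k)⟩
  refine ⟨|lam k₀|, abs_nonneg _, ?_, fun x => ?_⟩
  · have h1 := ball_lower hJ hq hk
    have hv := vb_pos (J := J)
    unfold bb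
    rw [le_div_iff₀ (by positivity), sq_abs]
    exact h1
  · have h1 := hq x
    have h2 : qf S x = ∑ k, lam k * inner ℝ (v k) x ^ 2 := h1
    rw [h2]
    have h3 : ∑ k, inner ℝ (v k) x ^ 2 = ‖x‖ ^ 2 := by
      have := v.sum_sq_norm_inner_right x
      simpa using this
    calc |∑ k, lam k * inner ℝ (v k) x ^ 2| ≤ ∑ k, |lam k * inner ℝ (v k) x ^ 2| :=
          Finset.abs_sum_le_sum_abs _ _
      _ ≤ ∑ k, |lam k₀| * inner ℝ (v k) x ^ 2 := by
          refine Finset.sum_le_sum fun k _ => ?_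
          rw [abs_mul, abs_of_nonneg (sq_nonneg (inner ℝ (v k) x : ℝ))]
          exact mul_le_mul_of_nonneg_right (hk k) (sq_nonneg _)
      _ = |lam k₀| * ‖x‖ ^ 2 := by rw [← Finset.mul_sum, h3]

/-- the shifted form -/
def sh (t : ℝ) (S : J → J → ℝ) (i j : J) : ℝ := t * (if i = j then 1 else 0) + S i j

theorem qf_sh (t : ℝ) (S : J → J → ℝ) (x : EuclideanSpace ℝ J) :
    qf (sh t S) x = t * ‖x‖ ^ 2 + qf S x := by
  rw [← qf_one]
  unfold qf sh
  simp only [Finset.mul_sum, ← Finset.sum_add_distrib]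
  refine Finset.sum_congr rfl fun i _ => Finset.sum_congr rfl fun j _ => ?_
  simp only [Matrix.one_apply]
  ring

theorem sh_symm {S : J → J → ℝ} (hS : ∀ i j, S i j = S j i) (t : ℝ) (i j : J) :
    sh t S i j = sh t S j i := by
  unfold sh
  rw [hS i j]
  simp only [eq_comm]

variable {k : K → J → J → ℝ} {τ : ℝ}

/-- the good case, positive `t` -/
theorem good_pos {m : ℕ} (hJ : Fintype.card J = 2 * m) (hs : ∀ b i j, k b i j = k b j i)
    (hk : ∀ p : EuclideanSpace ℝ J, ∑ b, qf (k b) p ^ 2 ≤ (τ * ‖p‖ ^ 2) ^ 2)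
    (hτ : 0 < τ) {S : J → J → ℝ} (hS : ∀ i j, S i j = S j i) {t b : ℝ} (ht : 0 < t)
    (hb : ∀ x : EuclideanSpace ℝ J, |qf S x| ≤ b * ‖x‖ ^ 2) (hbt : 2 * b ≤ t)
    (hT : 512 * (m * τ ^ 2) ≤ t ^ 2) :
    1 / 2 * (1 / 16) ^ m * (t ^ 2) ^ m ≤
      (∫ g : EuclideanSpace ℝ K, wP (sh t S) k g ∂(gm (EuclideanSpace ℝ K))).re := by
  have hp : 0 < t / 2 := by positivity
  have hPp : ∀ x : EuclideanSpace ℝ J, t / 2 * ‖x‖ ^ 2 ≤ qf (sh t S) x := by
    intro x
    rw [qf_sh]
    have h1 := hb x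
    have h2 := neg_abs_le (qf S x)
    have h3 : 0 ≤ ‖x‖ ^ 2 := by positivity
    nlinarith
  have h1 := mean_P hs hk hτ (sh_symm hS t) hp hPp (by
    rw [hJ]
    push_cast
    nlinarith)
  refine le_trans ?_ h1
  have h2 : (t / 2) ^ (2 * m) ≤ (Matrix.of (sh t S)).det := by
    have hco : Coer (cx (sh t S)) (t / 2) := by
      intro z
      have h3 := sv_real (sh_symm hS t) z
      have h4 : sv (cx (sh t S)) z = _ := h3
      rw [h4, Complex.ofReal_re, nq_parts]
      have h5 := hPp (WithLp.toLp 2 fun j => (z j).re)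
      have h6 := hPp (WithLp.toLp 2 fun j => (z j).im)
      linarith
    have h3 := hco.det_le hp
    have h4 : (cx (sh t S)).det = ((Matrix.of (sh t S)).det : ℂ) := cx_det (Matrix.of (sh t S))
    rw [h4, Complex.norm_real, Real.norm_eq_abs, hJ] at h3
    have h5 : 0 < (Matrix.of (sh t S)).det := by
      refine (pd_of_qf (sh_symm hS t) fun x hx => ?_).det_pos
      have h6 := hPp x
      have h7 : 0 < ‖x‖ := norm_pos_iff.mpr hx
      have : 0 < t / 2 * ‖x‖ ^ 2 := by positivity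
      linarith
    rwa [abs_of_pos h5] at h3
  rw [hJ]
  have h3 : 1 / 2 * (1 / 16) ^ m * (t ^ 2) ^ m = 1 / 2 * (1 / 2) ^ (2 * m) * (t / 2) ^ (2 * m) := by
    rw [pow_mul (1 / 2 : ℝ), pow_mul (t / 2), div_pow t 2 2, mul_assoc, mul_assoc, ← mul_pow,
      ← mul_pow]
    congr 2
    ring
  rw [h3]
  exact mul_le_mul_of_nonneg_left h2 (by positivity)

theorem wP_neg {m : ℕ} (hJ : Fintype.card J = 2 * m) (P : J → J → ℝ) (k : K → J → J → ℝ)
    (g : EuclideanSpace ℝ K) : wP (fun i j => -P i j) k (-g) = wP P k g := by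
  unfold wP
  have h : cx (fun i j => -P i j) + Complex.I • ∑ b, ((-g) b : ℂ) • cx (k b) =
      -(cx P + Complex.I • ∑ b, (g b : ℂ) • cx (k b)) := by
    ext i j
    simp only [Matrix.add_apply, Matrix.smul_apply, Matrix.sum_apply, Matrix.neg_apply, cx,
      Matrix.of_apply, smul_eq_mul, PiLp.neg_apply]
    push_cast
    have h2 : ∑ b, -((g b : ℝ) : ℂ) * (k b i j : ℂ) = -∑ b, ((g b : ℝ) : ℂ) * (k b i j : ℂ) := by
      rw [← Finset.sum_neg_distrib]
      exact Finset.sum_congr rfl fun b _ => by ring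
    rw [h2]
    ring
  rw [h, Matrix.det_neg, hJ, pow_mul]
  norm_num

/-- the good case -/
theorem good {m : ℕ} (hJ : Fintype.card J = 2 * m) (hs : ∀ b i j, k b i j = k b j i)
    (hk : ∀ p : EuclideanSpace ℝ J, ∑ b, qf (k b) p ^ 2 ≤ (τ * ‖p‖ ^ 2) ^ 2)
    (hτ : 0 < τ) {S : J → J → ℝ} (hS : ∀ i j, S i j = S j i) {t b : ℝ} (ht : t ≠ 0)
    (hb : ∀ x : EuclideanSpace ℝ J, |qf S x| ≤ b * ‖x‖ ^ 2) (hbt : 2 * b ≤ |t|)
    (hT : 512 * (m * τ ^ 2) ≤ t ^ 2) :
    1 / 2 * (1 / 16) ^ m * (t ^ 2) ^ m ≤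
      (∫ g : EuclideanSpace ℝ K, wP (sh t S) k g ∂(gm (EuclideanSpace ℝ K))).re := by
  rcases lt_or_gt_of_ne ht with h | h
  · have h1 := good_pos (K := K) (k := k) hJ hs hk hτ (S := fun i j => -S i j)
      (fun i j => by rw [hS i j]) (t := -t) (b := b) (by linarith)
      (fun x => by
        have h2 : qf (fun i j => -S i j) x = - qf S x := by
          have := qf_smul (-1) S x
          simpa using this
        rw [h2, abs_neg]
        exact hb x) (by rw [abs_of_neg h] at hbt; exact hbt) (by rw [neg_sq]; exact hT)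
    rw [neg_sq] at h1
    refine h1.trans (le_of_eq ?_)
    congr 1
    rw [← int_neg]
    refine integral_congr_ae (Filter.Eventually.of_forall fun g => ?_)
    have h3 : sh (-t) (fun i j => -S i j) = fun i j => -(sh t S) i j := by
      funext i j
      unfold sh
      ring
    beta_reduce
    rw [h3]
    exact wP_neg hJ (sh t S) k g
  · exact good_pos hJ hs hk hτ hS h hb (by rw [abs_of_pos h] at hbt; exact hbt) hT

/-- the bound of the determinant -/
theorem wP_le {m : ℕ} (hm : 1 ≤ m) (hJ : Fintype.card J = 2 * m)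
    (hs : ∀ b i j, k b i j = k b j i) {S : J → J → ℝ} (hS : ∀ i j, S i j = S j i) {t b : ℝ}
    (hb0 : 0 ≤ b) (hb : ∀ x : EuclideanSpace ℝ J, |qf S x| ≤ b * ‖x‖ ^ 2)
    (hbS : (b ^ 2) ^ m ≤ bb m S) (ζ : K → ℝ) :
    ‖wP (sh t S) k (WithLp.toLp 2 ζ)‖ ≤
      9 ^ m * ((t ^ 2) ^ m + bb m S + bb m (fun i j => ∑ q, ζ q * k q i j)) := by
  have hsym : ∀ i j, ∑ q, ζ q * k q i j = ∑ q, ζ q * k q j i := fun i j =>
    Finset.sum_congr rfl fun q _ => by rw [hs q i j]
  obtain ⟨c, hc0, hc1, hc2⟩ := norm_bound hm hJ hsym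
  have h1 : ∀ z, ‖sv (cx (sh t S) + Complex.I • ∑ q, (((WithLp.toLp 2 ζ :
      EuclideanSpace ℝ K) q : ℝ) : ℂ) • cx (k q)) z‖ ≤ (|t| + b + c) * nq z := by
    intro z
    have h2 : cx (sh t S) + Complex.I • ∑ q, (((WithLp.toLp 2 ζ :
        EuclideanSpace ℝ K) q : ℝ) : ℂ) • cx (k q) =
        cx (sh t S) + Complex.I • cx (fun i j => ∑ q, ζ q * k q i j) := by
      congr 2
      ext i j
      simp [cx, Matrix.sum_apply]
    have h3 : ∀ A B : Matrix J J ℂ, sv (A + Complex.I • B) z = sv A z + Complex.I * sv B z := by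
      intro A B
      unfold sv
      rw [Finset.mul_sum, ← Finset.sum_add_distrib]
      refine Finset.sum_congr rfl fun j _ => ?_
      rw [Matrix.add_mulVec, Pi.add_apply, Matrix.smul_mulVec, Pi.smul_apply, smul_eq_mul]
      ring
    rw [h2, h3]
    have e1 : sv (cx (sh t S)) z = _ := sv_real (sh_symm hS t) z
    have e2 : sv (cx (fun i j => ∑ q, ζ q * k q i j)) z = _ := sv_real hsym z
    rw [e1, e2]
    refine (norm_add_le _ _).trans ?_
    rw [norm_mul, Complex.norm_I, one_mul, Complex.norm_real, Complex.norm_real,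
      Real.norm_eq_abs, Real.norm_eq_abs, qf_sh, qf_sh, nq_parts]
    set X := ‖(WithLp.toLp 2 fun j => (z j).re : EuclideanSpace ℝ J)‖ ^ 2 with hX
    set Y := ‖(WithLp.toLp 2 fun j => (z j).im : EuclideanSpace ℝ J)‖ ^ 2 with hY
    have hX0 : 0 ≤ X := by positivity
    have hY0 : 0 ≤ Y := by positivity
    have f1 := hb (WithLp.toLp 2 fun j => (z j).re)
    have f2 := hb (WithLp.toLp 2 fun j => (z j).im)
    have f3 := hc2 (WithLp.toLp 2 fun j => (z j).re)
    have f4 := hc2 (WithLp.toLp 2 fun j => (z j).im)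
    rw [← hX] at f1 f3
    rw [← hY] at f2 f4
    set q1 := qf S (WithLp.toLp 2 fun j => (z j).re)
    set q2 := qf S (WithLp.toLp 2 fun j => (z j).im)
    set q3 := qf (fun i j => ∑ q, ζ q * k q i j) (WithLp.toLp 2 fun j => (z j).re)
    set q4 := qf (fun i j => ∑ q, ζ q * k q i j) (WithLp.toLp 2 fun j => (z j).im)
    have g1 : |t * X + q1 + (t * Y + q2)| ≤ |t| * (X + Y) + b * (X + Y) := by
      have g2 : |t * X + q1 + (t * Y + q2)| ≤ |t * (X + Y)| + (|q1| + |q2|) := by
        have : t * X + q1 + (t * Y + q2) = t * (X + Y) + (q1 + q2) := by ring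
        rw [this]
        exact (abs_add_le _ _).trans (add_le_add_right (abs_add_le _ _) _)
      rw [abs_mul, abs_of_nonneg (add_nonneg hX0 hY0)] at g2
      linarith
    have g3 : |q3 + q4| ≤ c * (X + Y) := (abs_add_le _ _).trans (by linarith)
    nlinarith
  have h2 := det_ge h1 (by positivity)
  have h3 : ‖wP (sh t S) k (WithLp.toLp 2 ζ)‖ ≤ (|t| + b + c) ^ (2 * m) := by
    rw [hJ] at h2
    exact h2
  refine h3.trans ?_
  have h4 : |t| + b + c ≤ 3 * max |t| (max b c) := by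
    have a1 := le_max_left |t| (max b c)
    have a2 := (le_max_left b c).trans (le_max_right |t| (max b c))
    have a3 := (le_max_right b c).trans (le_max_right |t| (max b c))
    linarith
  have h5 : (|t| + b + c) ^ (2 * m) ≤ (3 * max |t| (max b c)) ^ (2 * m) :=
    pow_le_pow_left₀ (by positivity) h4 _
  refine h5.trans ?_
  have h9 : (3 : ℝ) ^ (2 * m) = 9 ^ m := by
    rw [pow_mul]
    norm_num
  rw [mul_pow, h9]
  refine mul_le_mul_of_nonneg_left ?_ (by positivity)
  have h6 : (max |t| (max b c)) ^ (2 * m) ≤ |t| ^ (2 * m) + b ^ (2 * m) + c ^ (2 * m) := by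
    have p1 : 0 ≤ |t| ^ (2 * m) := by positivity
    have p2 : 0 ≤ b ^ (2 * m) := by positivity
    have p3 : 0 ≤ c ^ (2 * m) := by positivity
    rcases max_cases |t| (max b c) with ⟨e, _⟩ | ⟨e, _⟩
    · rw [e]
      linarith
    · rw [e]
      rcases max_cases b c with ⟨e, _⟩ | ⟨e, _⟩
      · rw [e]
        linarith
      · rw [e]
        linarith
  refine h6.trans ?_
  rw [pow_mul, pow_mul, pow_mul, sq_abs]
  linarith

end Pool.Agent.H783.Sig
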