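import Pool.Agent.H783.Sig.Lower
import Pool.Agent.H783.Hopf.Cone

/-!
# The mean of `det (P + i ∑ g_b k_b)` is positive
-/

set_option autoImplicit false

namespace Pool.Agent.H783.Sig

open Finset Pool.Agent.H783.Hopf MeasureTheory ProbabilityTheory
open scoped ComplexConjugate

section neg

variable {E : Type} [NormedAddCommGroup E] [InnerProductSpace ℝ E] [FiniteDimensional ℝ E]
  [MeasurableSpace E] [BorelSpace E]

theorem int_neg (f : E → ℂ) : ∫ g, f (-g) ∂(gm E) = ∫ g, f g ∂(gm E) := by
  have h := stdGaussian_map (LinearIsometryEquiv.neg ℝ (E := E))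
  have h2 : ∫ g, f g ∂((gm E).map (LinearIsometryEquiv.neg ℝ (E := E))) = ∫ g, f g ∂(gm E) := by
    unfold gm
    rw [h]
  rw [← h2, MeasurableEmbedding.integral_map]
  · rfl
  · exact (LinearIsometryEquiv.neg ℝ (E := E)).toHomeomorph.measurableEmbedding

end neg

variable {J : Type} [Fintype J] [DecidableEq J] {K : Type} [Fintype K]

theorem mt_conj (k : K → J → J → ℝ) (g : EuclideanSpace ℝ K) :
    conj (mt k (emb g)).det = (mt k (emb (-g))).det := by
  have h1 := RingHom.map_det (starRingEnd ℂ) (mt k (emb g))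
  rw [h1]
  congr 1
  ext i j
  rw [RingHom.mapMatrix_apply, Matrix.map_apply, mt_apply, mt_apply]
  simp only [map_add, map_mul, Complex.conj_I, map_sum, emb_apply, Complex.conj_ofReal,
    PiLp.neg_apply, Complex.ofReal_neg]
  rw [Matrix.one_apply]
  have h2 : ∑ b, -((g b : ℝ) : ℂ) * (k b i j : ℂ) = -∑ b, ((g b : ℝ) : ℂ) * (k b i j : ℂ) := by
    rw [← Finset.sum_neg_distrib]
    exact Finset.sum_congr rfl fun b _ => by ring
  rw [h2]
  split_ifs <;> simp

/-- the mean is real -/
theorem mean_real (k : K → J → J → ℝ) :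
    (∫ g : EuclideanSpace ℝ K, (mt k (emb g)).det ∂(gm (EuclideanSpace ℝ K))).im = 0 := by
  rw [← Complex.conj_eq_iff_im, ← integral_conj]
  simp only [mt_conj]
  exact int_neg fun g => (mt k (emb g)).det

variable {k : K → J → J → ℝ} {τ : ℝ}

omit [DecidableEq J] in
theorem qf_smul (t : ℝ) (S : J → J → ℝ) (p : EuclideanSpace ℝ J) :
    qf (fun i j => t * S i j) p = t * qf S p := by
  unfold qf
  rw [Finset.mul_sum]
  refine Finset.sum_congr rfl fun i _ => ?_
  rw [Finset.mul_sum]
  exact Finset.sum_congr rfl fun j _ => by ring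

theorem mt_scale (k : K → J → J → ℝ) (t : ℝ) (x : EuclideanSpace ℂ K) :
    mt (fun b i j => t * k b i j) x = mt k ((t : ℂ) • x) := by
  ext i j
  rw [mt_apply, mt_apply]
  congr 2
  refine Finset.sum_congr rfl fun b _ => ?_
  rw [PiLp.smul_apply, smul_eq_mul]
  push_cast
  ring

/-- **The mean is positive.** -/
theorem mean_pos (hs : ∀ b i j, k b i j = k b j i)
    (hk : ∀ p : EuclideanSpace ℝ J, ∑ b, qf (k b) p ^ 2 ≤ (τ * ‖p‖ ^ 2) ^ 2)
    (hτ : 0 < τ) (hn : 64 * (Fintype.card J * τ ^ 2) ≤ 1) :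
    1 / 2 * (1 / 2) ^ Fintype.card J ≤
      (∫ g : EuclideanSpace ℝ K, (mt k (emb g)).det ∂(gm (EuclideanSpace ℝ K))).re := by
  set c : ℝ := 1 / 2 * (1 / 2) ^ Fintype.card J with hc
  have hc0 : 0 < c := by positivity
  set Z : ℝ → ℂ := fun t => ∫ g : EuclideanSpace ℝ K, (mt k ((t : ℂ) • emb g)).det
    ∂(gm (EuclideanSpace ℝ K)) with hZ
  have hZge : ∀ t ∈ Set.Icc (0 : ℝ) 1, c ≤ |(Z t).re| := by
    intro t ht
    have h1 := mean_ge (k := fun b i j => t * k b i j) (τ := τ)
      (fun b i j => by rw [hs b i j]) (fun p => by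
        simp only [qf_smul, mul_pow, ← Finset.mul_sum]
        have h2 := hk p
        have h3 : 0 ≤ ∑ b, qf (k b) p ^ 2 := Finset.sum_nonneg fun _ _ => sq_nonneg _
        have h4 : t ^ 2 ≤ 1 := by nlinarith [ht.1, ht.2]
        rw [mul_pow] at h2
        nlinarith) hτ hn
    have h5 := mean_real (fun b i j => t * k b i j)
    simp only [mt_scale] at h1 h5
    have h6 : ‖Z t‖ = |(Z t).re| := by
      have h7 : Z t = (((Z t).re : ℝ) : ℂ) := by
        apply Complex.ext
        · simp
        · rw [Complex.ofReal_im]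
          exact h5
      conv_lhs => rw [h7]
      rw [Complex.norm_real, Real.norm_eq_abs]
    rw [← h6]
    exact h1
  obtain ⟨C, hC⟩ := growth_det k
  have hC0 : 0 ≤ C := by
    have := (norm_nonneg _).trans (hC 0)
    simpa using this
  have hcont : ContinuousOn (fun t => (Z t).re) (Set.Icc 0 1) := by
    refine Complex.continuous_re.comp_continuousOn ?_
    refine continuousOn_of_dominated (bound := fun g : EuclideanSpace ℝ K =>
      C * (1 + ‖emb g‖) ^ Fintype.card J) (fun t _ => ?_) (fun t ht => ?_) ?_ ?_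
    · refine Continuous.aestronglyMeasurable ?_
      exact (det_diff (mt_diff k)).continuous.comp (by fun_prop)
    · refine Filter.Eventually.of_forall fun g => ?_
      refine (hC _).trans (mul_le_mul_of_nonneg_left (pow_le_pow_left₀ (by positivity) ?_ _) hC0)
      rw [norm_smul, Complex.norm_real, Real.norm_of_nonneg ht.1]
      nlinarith [norm_nonneg (emb g), ht.2]
    · refine int_of_growth (C := C * (1 + ‖(emb : EuclideanSpace ℝ K →L[ℝ] EuclideanSpace ℂ K)‖) ^
        Fintype.card J) (n := Fintype.card J) (by fun_prop) fun g => ?_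
      rw [Real.norm_of_nonneg (by positivity), mul_assoc, ← mul_pow]
      refine mul_le_mul_of_nonneg_left (pow_le_pow_left₀ (by positivity) ?_ _) hC0
      have := (emb : EuclideanSpace ℝ K →L[ℝ] EuclideanSpace ℂ K).le_opNorm g
      nlinarith [norm_nonneg g, norm_nonneg (emb : EuclideanSpace ℝ K →L[ℝ] EuclideanSpace ℂ K)]
    · refine Filter.Eventually.of_forall fun g => Continuous.continuousOn ?_
      exact (det_diff (mt_diff k)).continuous.comp (by fun_prop)
  have hZ0 : Z 0 = 1 := by
    have h1 : mt k (0 : EuclideanSpace ℂ K) = 1 := by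
      ext i j
      rw [mt_apply]
      simp
    simp only [hZ, Complex.ofReal_zero, zero_smul, h1, Matrix.det_one, integral_const,
      probReal_univ, one_smul]
  have hZ1 : Z 1 = ∫ g : EuclideanSpace ℝ K, (mt k (emb g)).det ∂(gm (EuclideanSpace ℝ K)) := by
    simp only [hZ, Complex.ofReal_one, one_smul]
  rw [← hZ1]
  by_contra hn'
  push Not at hn'
  have h1 := hZge 1 ⟨zero_le_one, le_rfl⟩
  have h2 : (Z 1).re ≤ -c := by
    rcases le_or_gt 0 (Z 1).re with h | h
    · rw [abs_of_nonneg h] at h1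
      linarith
    · rw [abs_of_neg h] at h1
      linarith
  have h3 := intermediate_value_Icc' (zero_le_one : (0 : ℝ) ≤ 1) hcont
  have h4 : (0 : ℝ) ∈ Set.Icc (Z 1).re (Z 0).re := by
    rw [hZ0]
    exact ⟨by linarith, by simp⟩
  obtain ⟨t, ht, h5⟩ := h3 h4
  have h6 := hZge t ht
  simp only at h5
  rw [h5, abs_zero] at h6
  linarith

/-- the determinant of `P + i ∑ g_b k_b` -/
noncomputable def wP (P : J → J → ℝ) (k : K → J → J → ℝ) (g : EuclideanSpace ℝ K) : ℂ :=
  (cx P + Complex.I • ∑ b, (g b : ℂ) • cx (k b)).det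

theorem cx_mul (A B : Matrix J J ℝ) : cx (fun i j => (A * B) i j) =
    cx (fun i j => A i j) * cx (fun i j => B i j) := by
  ext i j
  simp [cx, Matrix.mul_apply]

theorem cx_one : cx (fun i j => (1 : Matrix J J ℝ) i j) = 1 := by
  ext i j
  simp only [cx, Matrix.of_apply, Matrix.one_apply]
  split_ifs <;> simp

theorem cx_det (A : Matrix J J ℝ) : (cx fun i j => A i j).det = (A.det : ℂ) := by
  have h := RingHom.map_det (algebraMap ℝ ℂ) A
  rw [Complex.coe_algebraMap] at h
  rw [h]
  rfl

/-- **The mean with a positive definite real part.** -/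
theorem mean_P (hs : ∀ b i j, k b i j = k b j i)
    (hk : ∀ p : EuclideanSpace ℝ J, ∑ b, qf (k b) p ^ 2 ≤ (τ * ‖p‖ ^ 2) ^ 2)
    (hτ : 0 < τ) {P : J → J → ℝ} (hP : ∀ i j, P i j = P j i) {p : ℝ} (hp : 0 < p)
    (hPp : ∀ x : EuclideanSpace ℝ J, p * ‖x‖ ^ 2 ≤ qf P x)
    (hn : 64 * (Fintype.card J * τ ^ 2) ≤ p ^ 2) :
    1 / 2 * (1 / 2) ^ Fintype.card J * (Matrix.of P).det ≤
      (∫ g : EuclideanSpace ℝ K, wP P k g ∂(gm (EuclideanSpace ℝ K))).re := by
  have hpd := pd_of_qf hP (fun x hx => by
    have h1 := hPp x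
    have h2 : 0 < ‖x‖ := norm_pos_iff.mpr hx
    have : 0 < p * ‖x‖ ^ 2 := by positivity
    linarith)
  obtain ⟨R, hR⟩ := exists_root hpd.posSemidef
  have hdA : (Matrix.of P).det = R.det ^ 2 := by
    rw [hR, Matrix.det_mul, Matrix.det_transpose, sq]
  have hdet0 : R.det ≠ 0 := by
    intro h0
    have := hpd.det_pos
    rw [hdA, h0] at this
    simp at this
  have hu : IsUnit R.det := isUnit_iff_ne_zero.mpr hdet0
  set Q := R⁻¹ with hQ
  have hRQ : R * Q = 1 := Matrix.mul_nonsing_inv R hu
  have hQR : Q * R = 1 := Matrix.nonsing_inv_mul R hu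
  have hQR' : R.transpose * Q.transpose = 1 := by
    rw [← Matrix.transpose_mul, hQR, Matrix.transpose_one]
  have hRQ' : Q.transpose * R.transpose = 1 := by
    rw [← Matrix.transpose_mul, hRQ, Matrix.transpose_one]
  set k' : K → J → J → ℝ := fun b i j => (Q.transpose * (Matrix.of (k b)) * Q) i j with hk'
  have hsym' : ∀ b i j, k' b i j = k' b j i := by
    intro b i j
    have hb : (Matrix.of (k b)).transpose = Matrix.of (k b) := by
      ext i j
      exact hs b j i
    have h1 : (Q.transpose * (Matrix.of (k b)) * Q).transpose =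
        Q.transpose * (Matrix.of (k b)) * Q := by
      rw [Matrix.transpose_mul, Matrix.transpose_mul, Matrix.transpose_transpose, hb,
        Matrix.mul_assoc]
    exact congrFun (congrFun h1 j) i
  have hk2 : ∀ x : EuclideanSpace ℝ J, ∑ b, qf (k' b) x ^ 2 ≤ (τ / p * ‖x‖ ^ 2) ^ 2 := by
    intro x
    set y : EuclideanSpace ℝ J := WithLp.toLp 2 (Q.mulVec (x : J → ℝ)) with hy
    have h1 : ∀ b, qf (k' b) x = qf (k b) y := fun b => qf_conj (Matrix.of (k b)) Q x
    have h2 : qf P y = ‖x‖ ^ 2 := by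
      have h3 := qf_conj (Matrix.of P) Q x
      have h4 : (fun i j => (Q.transpose * Matrix.of P * Q) i j) =
          fun i j => (1 : Matrix J J ℝ) i j := by
        have h5 : Q.transpose * Matrix.of P * Q = 1 := by
          rw [hR]
          calc Q.transpose * (R.transpose * R) * Q = (Q.transpose * R.transpose) * (R * Q) := by
                simp only [Matrix.mul_assoc]
            _ = 1 := by rw [hRQ', hRQ, Matrix.one_mul]
        rw [h5]
      rw [h4, qf_one] at h3
      exact h3.symm
    simp only [h1]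
    refine (hk y).trans ?_
    have h3 := hPp y
    rw [h2] at h3
    have h4 : τ * ‖y‖ ^ 2 ≤ τ / p * ‖x‖ ^ 2 := by
      have h5 : ‖y‖ ^ 2 ≤ ‖x‖ ^ 2 / p := by
        rw [le_div_iff₀ hp]
        linarith
      calc τ * ‖y‖ ^ 2 ≤ τ * (‖x‖ ^ 2 / p) := mul_le_mul_of_nonneg_left h5 hτ.le
        _ = τ / p * ‖x‖ ^ 2 := by ring
    exact pow_le_pow_left₀ (by positivity) h4 2
  have hmain := mean_pos hsym' hk2 (div_pos hτ hp) (by
    rw [div_pow]
    have h1 : 64 * (Fintype.card J * (τ ^ 2 / p ^ 2)) = 64 * (Fintype.card J * τ ^ 2) / p ^ 2 := by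
      ring
    rw [h1, div_le_one (by positivity)]
    exact hn)
  have hw : ∀ g : EuclideanSpace ℝ K, wP P k g = ((R.det ^ 2 : ℝ) : ℂ) * (mt k' (emb g)).det := by
    intro g
    have h1 : cx P + Complex.I • ∑ b, (g b : ℂ) • cx (k b) =
        cx (fun i j => R.transpose i j) * mt k' (emb g) * cx (fun i j => R i j) := by
      have hcP : cx P = cx (fun i j => R.transpose i j) * cx (fun i j => R i j) := by
        rw [← cx_mul, ← hR]
        rfl
      have hck : ∀ b, cx (k b) = cx (fun i j => R.transpose i j) * cx (k' b) *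
          cx (fun i j => R i j) := by
        intro b
        have h2 : cx (k' b) = cx (fun i j => Q.transpose i j) * cx (k b) *
            cx (fun i j => Q i j) := by
          have h3 : cx (k' b) = cx (fun i j => (Q.transpose * (Matrix.of (k b)) * Q) i j) := rfl
          rw [h3, cx_mul, cx_mul]
          rfl
        rw [h2]
        have h4 : cx (fun i j => R.transpose i j) * cx (fun i j => Q.transpose i j) = 1 := by
          rw [← cx_mul, hQR', cx_one]
        have h5 : cx (fun i j => Q i j) * cx (fun i j => R i j) = 1 := by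
          rw [← cx_mul, hQR, cx_one]
        calc cx (k b) = 1 * cx (k b) * 1 := by rw [Matrix.one_mul, Matrix.mul_one]
          _ = (cx (fun i j => R.transpose i j) * cx (fun i j => Q.transpose i j)) * cx (k b) *
              (cx (fun i j => Q i j) * cx (fun i j => R i j)) := by rw [h4, h5]
          _ = _ := by simp only [Matrix.mul_assoc]
      unfold mt
      rw [Matrix.mul_add, Matrix.add_mul, Matrix.mul_one, ← hcP, Matrix.mul_smul, Matrix.smul_mul,
        Matrix.mul_sum, Matrix.sum_mul]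
      congr 2
      refine Finset.sum_congr rfl fun b _ => ?_
      rw [Matrix.mul_smul, Matrix.smul_mul, ← hck, emb_apply]
    unfold wP
    rw [h1, Matrix.det_mul, Matrix.det_mul, cx_det, cx_det, Matrix.det_transpose]
    push_cast
    ring
  simp only [hw]
  rw [integral_const_mul, Complex.re_ofReal_mul, hdA]
  have h2 : (0 : ℝ) ≤ R.det ^ 2 := sq_nonneg _
  calc 1 / 2 * (1 / 2) ^ Fintype.card J * R.det ^ 2 =
        R.det ^ 2 * (1 / 2 * (1 / 2) ^ Fintype.card J) := by ring
    _ ≤ _ := mul_le_mul_of_nonneg_left hmain h2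

end Pool.Agent.H783.Sig
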