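import Pool.Agent.H783.Sig.Ballm

/-!
# The pointwise inequality, all cases
-/

set_option autoImplicit false

namespace Pool.Agent.H783.Sig

open Finset Pool.Agent.H783.Hopf MeasureTheory ProbabilityTheory Metric

variable {m : ℕ} {K : Type} [Fintype K]

theorem wP_cont {J : Type} [Fintype J] [DecidableEq J] (P : J → J → ℝ) (k : K → J → J → ℝ) :
    Continuous fun ζ : K → ℝ => wP P k (WithLp.toLp 2 ζ) := by
  unfold wP
  apply Continuous.matrix_det
  refine continuous_matrix fun i j => ?_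
  simp only [Matrix.add_apply, Matrix.smul_apply, Matrix.sum_apply, smul_eq_mul]
  refine continuous_const.add (continuous_const.mul ?_)
  refine continuous_finsetSum _ fun b _ => ?_
  refine Continuous.mul ?_ continuous_const
  exact Complex.continuous_ofReal.comp (continuous_apply b)

variable {k : K → Fin m × Bool → Fin m × Bool → ℝ} {τ : ℝ}

theorem wP_int [DecidableEq K] (hm : 1 ≤ m) (hs : ∀ b i j, k b i j = k b j i)
    {S : Fin m × Bool → Fin m × Bool → ℝ} (hS : ∀ i j, S i j = S j i) (t : ℝ) :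
    Integrable (fun ζ : K → ℝ => wP (sh t S) k (WithLp.toLp 2 ζ)) (gp K) := by
  obtain ⟨b, hb0, hb1, hb2⟩ := norm_bound hm card_J hS
  have h1 : Integrable (fun ζ : K → ℝ =>
      9 ^ m * ((t ^ 2) ^ m + bb m S + bb m (fun i j => ∑ q, ζ q * k q i j))) (gp K) :=
    ((integrable_const _).add (bb_int k)).const_mul _
  exact h1.mono' (wP_cont _ k).aestronglyMeasurable (Filter.Eventually.of_forall fun ζ =>
    wP_le hm card_J hs hS hb0 hb2 hb1 ζ)

/-- **The pointwise inequality.** -/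
theorem pointwise [DecidableEq K] (hm : 1 ≤ m) (hs : ∀ b i j, k b i j = k b j i)
    (hk : ∀ p : EuclideanSpace ℝ (Fin m × Bool), ∑ b, qf (k b) p ^ 2 ≤ (τ * ‖p‖ ^ 2) ^ 2)
    (hτ : 0 < τ) {S : Fin m × Bool → Fin m × Bool → ℝ} (hS : ∀ i j, S i j = S j i) (t : ℝ) :
    1 / 2 * (1 / 16) ^ m * (t ^ 2) ^ m -
        (9 ^ m + 1) * (4 ^ m * bb m S + (512 * (m * τ ^ 2)) ^ m) -
        9 ^ m * (bb m S + ∫ ζ : K → ℝ, bb m (fun i j => ∑ q, ζ q * k q i j) ∂(gp K)) ≤
      ∫ ζ : K → ℝ, (wP (sh t S) k (WithLp.toLp 2 ζ)).re ∂(gp K) := by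
  obtain ⟨b, hb0, hb1, hb2⟩ := norm_bound hm card_J hS
  obtain ⟨C, hC⟩ : ∃ C : ℝ, C = ∫ ζ : K → ℝ, bb m (fun i j => ∑ q, ζ q * k q i j) ∂(gp K) :=
    ⟨_, rfl⟩
  have hC0 : 0 ≤ C := by
    rw [hC]
    exact integral_nonneg fun ζ => bb_nonneg m _
  rw [← hC]
  obtain ⟨B, hB⟩ : ∃ B : ℝ, B = bb m S := ⟨_, rfl⟩
  have hS0 : 0 ≤ B := by
    rw [hB]
    exact bb_nonneg m S
  rw [← hB] at hb1 ⊢
  have hre : ∫ ζ : K → ℝ, (wP (sh t S) k (WithLp.toLp 2 ζ)).re ∂(gp K) =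
      (∫ ζ : K → ℝ, wP (sh t S) k (WithLp.toLp 2 ζ) ∂(gp K)).re :=
    integral_re (wP_int hm hs hS t)
  have h9 : (0 : ℝ) ≤ 9 ^ m := by positivity
  have h4 : (0 : ℝ) ≤ 4 ^ m := by positivity
  have hT0 : 0 ≤ 512 * (m * τ ^ 2) := by positivity
  have hTm : 0 ≤ (512 * (m * τ ^ 2)) ^ m := by positivity
  by_cases hcase : 2 * b ≤ |t| ∧ 512 * (m * τ ^ 2) ≤ t ^ 2
  · have ht : t ≠ 0 := by
      rintro rfl
      have h1 := hcase.2
      have h2 : (1 : ℝ) ≤ m := by exact_mod_cast hm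
      have h3 : 0 < τ ^ 2 := by positivity
      nlinarith
    have h1 := good (K := K) (k := k) card_J hs hk hτ hS ht hb2 hcase.1 hcase.2
    rw [gm_eq, ← hre] at h1
    refine le_trans ?_ h1
    have e1 : 0 ≤ (9 ^ m + 1) * (4 ^ m * B + (512 * (m * τ ^ 2)) ^ m) :=
      mul_nonneg (by linarith) (add_nonneg (mul_nonneg h4 hS0) hTm)
    have e2 : 0 ≤ 9 ^ m * (B + C) := mul_nonneg h9 (add_nonneg hS0 hC0)
    linarith
  · have h1 : (t ^ 2) ^ m ≤ 4 ^ m * B + (512 * (m * τ ^ 2)) ^ m := by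
      rw [not_and_or, not_le, not_le] at hcase
      rcases hcase with h | h
      · have e1 : (t ^ 2) ^ m ≤ (4 * b ^ 2) ^ m := by
          refine pow_le_pow_left₀ (sq_nonneg t) ?_ m
          rw [← sq_abs t]
          have := abs_nonneg t
          nlinarith
        rw [mul_pow] at e1
        have e2 := mul_le_mul_of_nonneg_left hb1 h4
        linarith
      · have e1 : (t ^ 2) ^ m ≤ (512 * (m * τ ^ 2)) ^ m :=
          pow_le_pow_left₀ (sq_nonneg t) h.le m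
        have e2 : 0 ≤ 4 ^ m * B := mul_nonneg h4 hS0
        linarith
    have h2 : ‖∫ ζ : K → ℝ, wP (sh t S) k (WithLp.toLp 2 ζ) ∂(gp K)‖ ≤
        9 ^ m * ((t ^ 2) ^ m + B + C) := by
      rw [hB] at hb1 ⊢
      have e1 : Integrable (fun ζ : K → ℝ =>
          9 ^ m * ((t ^ 2) ^ m + bb m S + bb m (fun i j => ∑ q, ζ q * k q i j))) (gp K) :=
        ((integrable_const _).add (bb_int k)).const_mul _
      refine (norm_integral_le_of_norm_le e1
        (Filter.Eventually.of_forall fun ζ => wP_le hm card_J hs hS hb0 hb2 hb1 ζ)).trans ?_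
      rw [integral_const_mul, integral_add (integrable_const _) (bb_int k), ← hC]
      simp
    have h3 := (abs_le.1 ((Complex.abs_re_le_norm _).trans h2)).1
    rw [hre]
    have h5 : 1 / 2 * (1 / 16) ^ m * (t ^ 2) ^ m ≤ (t ^ 2) ^ m := by
      have e1 : (1 / 16 : ℝ) ^ m ≤ 1 := pow_le_one₀ (by norm_num) (by norm_num)
      have e2 : 0 ≤ (t ^ 2) ^ m := by positivity
      nlinarith
    have h6 : (9 ^ m + 1) * (t ^ 2) ^ m ≤
        (9 ^ m + 1) * (4 ^ m * B + (512 * (m * τ ^ 2)) ^ m) :=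
      mul_le_mul_of_nonneg_left h1 (by linarith)
    nlinarith

end Pool.Agent.H783.Sig
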