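import Pool.Agent.H783.Sig.Cl

/-!
# One-sided bounds of the curvature operator of the second kind
-/

set_option autoImplicit false
set_option linter.unusedVariables false

namespace Pool.Agent.H783.Sig

open Finset MeasureTheory
open Pool.Agent.H783.Hopf
open Pool.Agent.W666.GB Pool.Agent.W669.HD
open Pool.Agent.Results.MP_5a30bb_gt.SubmanifoldsOfProducts (SecondForm extR sq)

variable {V : Type} [NormedAddCommGroup V] [InnerProductSpace ℝ V] {m : ℕ}

theorem unit_curv : AlgCurv (unitT : V → V → V → V → ℝ) where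
  add x x' y z w := by simp only [unitT, inner_add_left]; ring
  smul t x y z w := by simp only [unitT, inner_smul_left, conj_trivial]; ring
  anti x y z w := by simp only [unitT]; ring
  pair x y z w := by
    simp only [unitT]
    rw [real_inner_comm x z, real_inner_comm y w, real_inner_comm x w, real_inner_comm y z]
    ring
  bianchi x y z w := by
    simp only [unitT]
    rw [real_inner_comm x y, real_inner_comm x z, real_inner_comm y z]
    ring

theorem curv_comb {E : V → V → V → V → ℝ} (hE : AlgCurv E) (s κ : ℝ) :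
    AlgCurv (fun x y z w => s * E x y z w - κ * unitT x y z w) where
  add x x' y z w := by simp only [hE.add, unit_curv.add]; ring
  smul t x y z w := by simp only [hE.smul, unit_curv.smul]; ring
  anti x y z w := by simp only [hE.anti x y z w, unit_curv.anti x y z w]; ring
  pair x y z w := by simp only [hE.pair x y z w, unit_curv.pair x y z w]
  bianchi x y z w := by
    have h1 := hE.bianchi x y z w
    have h2 := (unit_curv (V := V)).bianchi x y z w
    linear_combination s * h1 - κ * h2

/-- the decomposition for a one-sided bound -/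
theorem decomp_form (e : OrthonormalBasis (Fin m × Bool) ℝ V) {E : V → V → V → V → ℝ}
    (hE : AlgCurv E) {κ t : ℝ} (h : SecondLe e E (t * κ)) :
    ∃ (n : ℕ) (g : Fin n → Fin m × Bool → Fin m × Bool → ℝ), (∀ q i j, g q i j = g q j i) ∧
      (∀ x : EuclideanSpace ℝ (Fin m × Bool), ∑ q, Hopf.qf (g q) x ^ 2 = t * κ * (‖x‖ ^ 2) ^ 2) ∧
      ∀ x y z w, E x y z w = - ∑ q, kn (cform e (g q)) x y z w := by
  obtain ⟨n, g, hg, hq, hr⟩ := decompose (comp_of (curv_comb hE 1 κ) e) (κ := κ) (t := t) (by
    intro a ha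
    have h1 := h a ha
    have h2 : secondKind e E a = sec (exc (fun i j k l =>
        1 * E (e i) (e j) (e k) (e l) - κ * unitT (e i) (e j) (e k) (e l)) κ) a := by
      unfold secondKind sec quad exc
      simp only [unit_comp, one_mul, sub_add_cancel]
    rw [← h2]
    exact h1)
  refine ⟨n, g, hg, hq, fun x y z w => ?_⟩
  have hK : BiForm (fun x y z w => -(0 * E x y z w + ∑ k, kn (cform e (g k)) x y z w)) :=
    biform_neg_add (K := fun x y z w => 0 * E x y z w)
      ⟨fun x x' y z w => by ring, fun t x y z w => by ring, fun x y z w => by ring,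
        fun x y z w => by ring⟩
      (biform_sum fun k => biform_kn (cform_sym e (hg k)))
  have h1 := biform_zero e (biform_sub (AlgCurv.bi hE) hK) (fun i j k l => ?_) x y z w
  · linarith
  · simp only [kn, cform_basis, Finset.sum_sub_distrib]
    have h3 := hr i j k l
    rw [unit_comp] at h3
    linarith

/-- **One-sided bounds of the curvature operator of the second kind, from above and from below.** -/
theorem second_signed (e : OrthonormalBasis (Fin m × Bool) ℝ V) {E₁ E₂ : V → V → V → V → ℝ}
    (hE₁ : AlgCurv E₁) (hE₂ : AlgCurv E₂) {κ t₁ t₂ : ℝ} (hκ : 0 ≤ κ)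
    (ht : t₁ + t₂ ≤ 1 / 1000000) (h₁ : SecondLe e E₁ (t₁ * κ))
    (h₂ : SecondLe e (fun x y z w => - E₂ x y z w) (t₂ * κ)) {q : ℕ} (ξ η : Fin q → V) :
    SignedCone (fun x y => Real.sqrt κ * inner ℝ x y)
      (fun x y z w => -(κ * unitT x y z w) + E₁ x y z w + E₂ x y z w -
        ∑ k, sq (ξ k) (η k) x y z w) := by
  have hneg : AlgCurv (fun x y z w => - E₂ x y z w) := negT_curv hE₂
  obtain ⟨n, g, hg, hgq, hgE⟩ := decomp_form e hE₁ h₁
  obtain ⟨n', g', hg', hgq', hgE'⟩ := decomp_form e hneg h₂
  refine ⟨metric_form, fun x => ?_, n, n', fun a => cform e (g a), fun b => cform e (g' b),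
    q, ξ, η, fun a => cform_sym e (hg a), fun b => cform_sym e (hg' b), fun x => ?_,
    fun x y z w => ?_⟩
  · show 0 ≤ Real.sqrt κ * inner ℝ x x
    rw [real_inner_self_eq_norm_sq]
    positivity
  · show _ ≤ (Real.sqrt κ * inner ℝ x x / 1000) ^ 2
    simp only [cform_diag]
    rw [hgq (e.repr x), hgq' (e.repr x), LinearIsometryEquiv.norm_map, real_inner_self_eq_norm_sq]
    have h1 := Real.sq_sqrt hκ
    rw [div_pow, mul_pow, h1]
    have h2 : 0 ≤ κ * (‖x‖ ^ 2) ^ 2 := by positivity
    nlinarith [mul_le_mul_of_nonneg_right ht h2]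
  · have h1 := hgE x y z w
    have h2 := hgE' x y z w
    have h3 := Real.mul_self_sqrt hκ
    beta_reduce
    rw [h1]
    have h4 : E₂ x y z w = ∑ q, kn (cform e (g' q)) x y z w := by linarith
    rw [h4]
    have h5 : kn (fun x y : V => Real.sqrt κ * inner ℝ x y) x y z w = κ * unitT x y z w := by
      simp only [kn, unitT]
      linear_combination (inner ℝ x z * inner ℝ y w - inner ℝ x w * inner ℝ y z) * h3
    rw [h5]
    ring

/-- **Einstein tensors with a lower bound.** -/
theorem einstein_lower (e : OrthonormalBasis (Fin m × Bool) ℝ V) {R : V → V → V → V → ℝ}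
    (hR : AlgCurv R) {κ : ℝ} (hκ : 0 ≤ κ) (h : EinsteinLower e R κ) :
    SecondLe e (fun x y z w => -(1 * R x y z w - (-κ) * unitT x y z w)) (1 / 1000000 * κ) := by
  obtain ⟨hric, hs⟩ := h
  intro a ha
  have hr := comp_of hR e
  set r : Fin m × Bool → Fin m × Bool → Fin m × Bool → Fin m × Bool → ℝ :=
    fun i j k l => R (e i) (e j) (e k) (e l) with hrdef
  have hcard : (Fintype.card (Fin m × Bool) : ℝ) = 2 * m := by
    rw [Fintype.card_prod, Fintype.card_fin, Fintype.card_bool]
    push_cast
    ring
  have h2 : secondKind e (fun x y z w => -(1 * R x y z w - (-κ) * unitT x y z w)) a =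
      - sec (exc r κ) a := by
    unfold secondKind sec quad exc
    simp only [unit_comp, hrdef, ← Finset.sum_neg_distrib]
    refine Finset.sum_congr rfl fun i _ => Finset.sum_congr rfl fun j _ =>
      Finset.sum_congr rfl fun k _ => Finset.sum_congr rfl fun l _ => ?_
    ring
  rw [h2, exc_sec r κ ha]
  set s : ℝ := (∑ i, a i i) / (2 * m) with hsdef
  have htr : ∑ i, a i i = 2 * m * s := by
    rcases Nat.eq_zero_or_pos m with rfl | hm
    · simp
    · rw [hsdef]
      have : (m : ℝ) ≠ 0 := by positivity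
      field_simp
  set b : Fin m × Bool → Fin m × Bool → ℝ := fun i j => a i j - s * kd i j with hb
  have hbs : ∀ i j, b i j = b j i := by
    intro i j
    simp only [hb]
    rw [ha i j, kd_comm i j]
  have hbt : ∑ i, b i i = 0 := by
    simp only [hb, kd_self, mul_one, Finset.sum_sub_distrib, Finset.sum_const, Finset.card_univ,
      nsmul_eq_mul, hcard, htr]
    ring
  have hab : a = fun i j => b i j + s * kd i j := by
    funext i j
    simp only [hb]
    ring
  have h3 : sec r a = sec r b + s ^ 2 * (-((2 * m - 1) * κ)) * (2 * m) := by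
    rw [hab]
    unfold sec
    rw [quad_shift (ρ := -((2 * m - 1) * κ)) ?_ ?_ hbt s, hcard]
    · intro k l
      have h4 := hric (e k) (e l)
      rw [orthonormal_iff_ite.1 e.orthonormal] at h4
      simp only [hrdef]
      rw [h4]
      unfold kd
      ring
    · intro i j
      have h4 := hric (e i) (e j)
      rw [orthonormal_iff_ite.1 e.orthonormal] at h4
      have h5 : ∀ k, r i k j k = r k i k j := by
        intro k
        rw [hr.a1 k i j k, hr.a2 k i k j, neg_neg]
      simp only [h5]
      simp only [hrdef]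
      rw [h4]
      unfold kd
      ring
  have h4 : ∑ i, ∑ j, a i j ^ 2 = ∑ i, ∑ j, b i j ^ 2 + 2 * m * s ^ 2 := by
    have h5 : ∀ i j, a i j ^ 2 = b i j ^ 2 + (2 * s * (kd i j * b i j) +
        s ^ 2 * (kd i j * kd i j)) := by
      intro i j
      rw [hab]
      ring
    simp only [h5, Finset.sum_add_distrib]
    simp only [← Finset.mul_sum, sum_kd_right, hbt, kd_self, Finset.sum_const, Finset.card_univ,
      nsmul_eq_mul, hcard]
    ring
  have h6 := hs b hbs hbt
  have h7 : secondKind e R b = sec r b := rfl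
  rw [h7] at h6
  have h8 : 0 ≤ ∑ i, ∑ j, b i j ^ 2 := by positivity
  rw [h3, h4, htr]
  have h9 : 0 ≤ 1 / 1000000 * κ * (2 * m * s ^ 2 + 1 / 2 * (2 * m * s) ^ 2) := by positivity
  nlinarith

/-- the class contains the Einstein tensors with the lower bound -/
theorem einstein_cone (e : OrthonormalBasis (Fin m × Bool) ℝ V) {R : V → V → V → V → ℝ}
    (hR : AlgCurv R) {κ : ℝ} (hκ : 0 ≤ κ) (h : EinsteinLower e R κ) :
    SignedCone (fun x y => Real.sqrt κ * inner ℝ x y) R := by
  have h0 : AlgCurv (fun x y z w : V => (0 : ℝ) * R x y z w - 0 * unitT x y z w) :=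
    curv_comb hR 0 0
  have h1 := second_signed e (E₁ := fun x y z w : V => (0 : ℝ) * R x y z w - 0 * unitT x y z w)
    (E₂ := fun x y z w => 1 * R x y z w - (-κ) * unitT x y z w) h0 (curv_comb hR 1 (-κ)) hκ
    (t₁ := 0) (t₂ := 1 / 1000000) (by norm_num) (by
      intro a _
      unfold secondKind
      simp) (einstein_lower e hR hκ h) (q := 0) Fin.elim0 Fin.elim0
  have h2 : (fun x y z w : V => -(κ * unitT x y z w) +
      ((0 : ℝ) * R x y z w - 0 * unitT x y z w) + (1 * R x y z w - (-κ) * unitT x y z w) -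
        ∑ k : Fin 0, sq (Fin.elim0 k) (Fin.elim0 k) x y z w) = R := by
    funext x y z w
    rw [Fin.sum_univ_zero]
    ring
  rw [h2] at h1
  exact h1

section integrated

variable {M : Type} [MeasurableSpace M]

/-- the integrated form -/
theorem field_signed (μ : Measure M) (K : CurvField m M) (A : ∀ p, K.V p → K.V p → ℝ)
    (h : ∀ p, SignedCone (A p) (K.R p)) :
    0 ≤ (-1) ^ m * ∫ p, K.gb p ∂μ ∧ (Integrable K.gb μ →
      1 / 4 * (1 / 16) ^ m * ∫ p, (Matrix.of fun i j => A p (K.e p i) (K.e p j)).det *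
        roundGB m 1 ∂μ ≤ (-1) ^ m * ∫ p, K.gb p ∂μ) := by
  have hb : ∀ p, 1 / 4 * (1 / 16) ^ m * ((Matrix.of fun i j => A p (K.e p i) (K.e p j)).det *
      roundGB m 1) ≤ (-1) ^ m * K.gb p := fun p => signed_bound (K.e p) (h p)
  have h0 : ∀ p, 0 ≤ 1 / 4 * (1 / 16) ^ m *
      ((Matrix.of fun i j => A p (K.e p i) (K.e p j)).det * roundGB m 1) := by
    intro p
    have h1 := core_det (K.e p) (h p).1 (h p).2.1
    have h2 : 0 ≤ roundGB m 1 := roundGB_nonneg zero_le_one
    positivity
  rw [← integral_const_mul, ← integral_const_mul]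
  refine ⟨integral_nonneg fun p => (h0 p).trans (hb p), fun hi => ?_⟩
  exact integral_mono_of_nonneg (Filter.Eventually.of_forall h0)
    (hi.const_mul _) (Filter.Eventually.of_forall hb)

end integrated

end Pool.Agent.H783.Sig
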