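import Pool.Agent.H783.Sig.Gauss

/-!
# Gaussian integration by parts
-/

set_option autoImplicit false

namespace Pool.Agent.H783.Sig

open MeasureTheory ProbabilityTheory Filter Topology

variable {E : Type} [NormedAddCommGroup E] [InnerProductSpace ℝ E] [FiniteDimensional ℝ E]
  [MeasurableSpace E] [BorelSpace E]

theorem gm_lin (ℓ : E →L[ℝ] ℂ) : ∫ g, ℓ g ∂(gm E) = 0 := by
  rw [ℓ.integral_comp_comm]
  · have h := gm_mean (E := E)
    simp only [id_eq] at h
    rw [h, map_zero]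
  · exact (memLp_gm 1).integrable (by simp)

/-- second moments -/
theorem gm_bilin {K : Type} [Fintype K] (b : OrthonormalBasis K ℝ E) (ℓ m : E →L[ℝ] ℂ) :
    ∫ g, ℓ g * m g ∂(gm E) = ∑ k, ℓ (b k) * m (b k) := by
  classical
  have h1 : ∀ (L : E →L[ℝ] ℂ) (g : E), L g = ∑ k, ((inner ℝ (b k) g : ℝ) : ℂ) * L (b k) := by
    intro L g
    conv_lhs => rw [← b.sum_repr' g]
    rw [map_sum]
    refine Finset.sum_congr rfl fun k _ => ?_
    rw [map_smul]
    simp
  have h2 : ∀ g, ℓ g * m g = ∑ k, ∑ l, ((inner ℝ (b k) g * inner ℝ (b l) g : ℝ) : ℂ) *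
      (ℓ (b k) * m (b l)) := by
    intro g
    rw [h1 ℓ g, h1 m g, Finset.sum_mul_sum]
    refine Finset.sum_congr rfl fun k _ => Finset.sum_congr rfl fun l _ => ?_
    push_cast
    ring
  have hint : ∀ k l, Integrable (fun g : E => inner ℝ (b k) g * inner ℝ (b l) g) (gm E) := by
    intro k l
    refine int_of_growth (C := 1) (n := 2) (by fun_prop) fun g => ?_
    rw [norm_mul]
    have h3 : ‖(inner ℝ (b k) g : ℝ)‖ ≤ ‖g‖ := by
      have := norm_inner_le_norm (𝕜 := ℝ) (b k) g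
      rwa [b.norm_eq_one, one_mul] at this
    have h4 : ‖(inner ℝ (b l) g : ℝ)‖ ≤ ‖g‖ := by
      have := norm_inner_le_norm (𝕜 := ℝ) (b l) g
      rwa [b.norm_eq_one, one_mul] at this
    have h5 := norm_nonneg g
    nlinarith [norm_nonneg (inner ℝ (b k) g : ℝ), norm_nonneg (inner ℝ (b l) g : ℝ)]
  rw [integral_congr_ae (Eventually.of_forall h2)]
  have hint2 : ∀ k l, Integrable (fun g : E => ((inner ℝ (b k) g * inner ℝ (b l) g : ℝ) : ℂ) *
      (ℓ (b k) * m (b l))) (gm E) := fun k l => (hint k l).ofReal.mul_const _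
  rw [integral_finsetSum _ fun k _ => integrable_finsetSum _ fun l _ => hint2 k l]
  refine Finset.sum_congr rfl fun k _ => ?_
  rw [integral_finsetSum _ fun l _ => hint2 k l]
  rw [Finset.sum_eq_single k]
  · rw [integral_mul_const, integral_complex_ofReal, gm_cov]
    simp
  · intro l _ hl
    rw [integral_mul_const, integral_complex_ofReal, gm_cov, orthonormal_iff_ite.1 b.orthonormal k l,
      if_neg (Ne.symm hl)]
    simp
  · intro h
    exact absurd (Finset.mem_univ k) h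

/-- **Gaussian integration by parts.** -/
theorem stein {K : Type} [Fintype K] (b : OrthonormalBasis K ℝ E) {φ : E → ℂ}
    {φ' : E → E →L[ℝ] ℂ} (hφ : ∀ y, HasFDerivAt φ (φ' y) y)
    (hc : Continuous fun q : E × E => φ' q.1 q.2) {C : ℝ} {n : ℕ}
    (h1 : ∀ y, ‖φ y‖ ≤ C * (1 + ‖y‖) ^ n) (h2 : ∀ y, ‖φ' y‖ ≤ C * (1 + ‖y‖) ^ n)
    (ℓ : E →L[ℝ] ℂ) :
    ∫ y, φ y * ℓ y ∂(gm E) = ∫ y, ∑ k, φ' y (b k) * ℓ (b k) ∂(gm E) := by
  have hC : 0 ≤ C := by
    have := (norm_nonneg _).trans (h1 0)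
    simpa using this
  have hcφ : Continuous φ := continuous_iff_continuousAt.2 fun y => (hφ y).continuousAt
  -- the pair function
  set f : E × E → ℂ := fun p => φ p.1 * ℓ p.2 with hf
  set f' : E × E → E × E →L[ℝ] ℂ := fun p =>
    φ p.1 • (ℓ.comp (ContinuousLinearMap.snd ℝ E E)) +
      ℓ p.2 • ((φ' p.1).comp (ContinuousLinearMap.fst ℝ E E)) with hf'
  have hfd : ∀ p, HasFDerivAt f (f' p) p := by
    intro p
    have h3 : HasFDerivAt (fun p : E × E => φ p.1)
        ((φ' p.1).comp (ContinuousLinearMap.fst ℝ E E)) p :=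
      (hφ p.1).comp p hasFDerivAt_fst
    have h4 : HasFDerivAt (fun p : E × E => ℓ p.2)
        (ℓ.comp (ContinuousLinearMap.snd ℝ E E)) p :=
      (ℓ.hasFDerivAt).comp p hasFDerivAt_snd
    exact h3.mul h4
  have hfc : Continuous f := by fun_prop
  have hS : ∀ θ : ℝ, ∫ p, f (ContinuousLinearMap.rotation θ p) ∂((gm E).prod (gm E)) = 0 := by
    intro θ
    rw [rot_int f hfc θ, hf, integral_prod_mul φ ℓ, gm_lin, mul_zero]
  -- bounds
  have hb : ∀ (θ : ℝ) (p : E × E), ‖f' (ContinuousLinearMap.rotation θ p)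
      (-Real.sin θ • p.1 + Real.cos θ • p.2, -Real.cos θ • p.1 + -Real.sin θ • p.2)‖ ≤
      2 * C * ‖ℓ‖ * pw p ^ (n + 2) := by
    intro θ p
    have hcs : |Real.cos θ| ≤ 1 := Real.abs_cos_le_one θ
    have hsn : |Real.sin θ| ≤ 1 := Real.abs_sin_le_one θ
    have hsn' : |-Real.sin θ| ≤ 1 := by rwa [abs_neg]
    have hcs' : |-Real.cos θ| ≤ 1 := by rwa [abs_neg]
    have hpw := one_le_pw p
    set P := pw p with hP
    simp only [hf', ContinuousLinearMap.rotation_apply, FunLike.coe_add, Pi.add_apply,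
      FunLike.coe_smul, Pi.smul_apply, ContinuousLinearMap.comp_apply,
      ContinuousLinearMap.coe_fst', ContinuousLinearMap.coe_snd', smul_eq_mul]
    set a := Real.cos θ • p.1 + Real.sin θ • p.2 with ha
    set a' := -Real.sin θ • p.1 + Real.cos θ • p.2 with ha'
    set a'' := -Real.cos θ • p.1 + -Real.sin θ • p.2 with ha''
    have ea : 1 + ‖a‖ ≤ P := comb_le hcs hsn p
    have ea' : ‖a'‖ ≤ P := comb_le' hsn' hcs p
    have ea'' : ‖a''‖ ≤ P := comb_le' hcs' hsn' p
    have e1 : (1 + ‖a‖) ^ n ≤ P ^ n := pow_le_pow_left₀ (by positivity) ea n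
    have e2 : ‖φ a‖ ≤ C * P ^ n := (h1 a).trans (mul_le_mul_of_nonneg_left e1 hC)
    have e3 : ‖φ' a‖ ≤ C * P ^ n := (h2 a).trans (mul_le_mul_of_nonneg_left e1 hC)
    have e4 : ‖ℓ a''‖ ≤ ‖ℓ‖ * P := (ℓ.le_opNorm _).trans
      (mul_le_mul_of_nonneg_left ea'' (norm_nonneg _))
    have e5 : ‖ℓ a'‖ ≤ ‖ℓ‖ * P := (ℓ.le_opNorm _).trans
      (mul_le_mul_of_nonneg_left ea' (norm_nonneg _))
    have e6 : ‖φ' a a'‖ ≤ (C * P ^ n) * P := ((φ' a).le_opNorm _).trans
      (mul_le_mul e3 ea' (norm_nonneg _) (by positivity))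
    have hl := norm_nonneg ℓ
    have e7 : ‖φ a * ℓ a''‖ ≤ C * ‖ℓ‖ * P ^ (n + 1) := by
      rw [norm_mul]
      calc ‖φ a‖ * ‖ℓ a''‖ ≤ (C * P ^ n) * (‖ℓ‖ * P) := mul_le_mul e2 e4 (norm_nonneg _)
            (by positivity)
        _ = C * ‖ℓ‖ * P ^ (n + 1) := by ring
    have e8 : ‖ℓ a' * φ' a a'‖ ≤ C * ‖ℓ‖ * P ^ (n + 2) := by
      rw [norm_mul]
      calc ‖ℓ a'‖ * ‖φ' a a'‖ ≤ (‖ℓ‖ * P) * ((C * P ^ n) * P) := mul_le_mul e5 e6 (norm_nonneg _)
            (by positivity)
        _ = C * ‖ℓ‖ * P ^ (n + 2) := by ring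
    have e9 : P ^ (n + 1) ≤ P ^ (n + 2) := pow_le_pow_right₀ hpw (by omega)
    have e10 : C * ‖ℓ‖ * P ^ (n + 1) ≤ C * ‖ℓ‖ * P ^ (n + 2) :=
      mul_le_mul_of_nonneg_left e9 (by positivity)
    refine (norm_add_le _ _).trans ?_
    linarith
  have hc' : Continuous fun q : (E × E) × (E × E) => f' q.1 q.2 := by
    have h5 : (fun q : (E × E) × (E × E) => f' q.1 q.2) =
        fun q => φ q.1.1 * ℓ q.2.2 + ℓ q.1.2 * φ' q.1.1 q.2.1 := by
      funext q
      simp [hf']
    rw [h5]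
    have h6 : Continuous fun q : (E × E) × (E × E) => φ' q.1.1 q.2.1 :=
      hc.comp ((continuous_fst.comp continuous_fst).prodMk (continuous_fst.comp continuous_snd))
    have h7 : Continuous fun q : (E × E) × (E × E) => ℓ q.2.2 :=
      ℓ.continuous.comp (continuous_snd.comp continuous_snd)
    have h8 : Continuous fun q : (E × E) × (E × E) => ℓ q.1.2 :=
      ℓ.continuous.comp (continuous_snd.comp continuous_fst)
    have h9 : Continuous fun q : (E × E) × (E × E) => φ q.1.1 :=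
      hcφ.comp (continuous_fst.comp continuous_fst)
    exact (h9.mul h7).add (h8.mul h6)
  have hmain := hasDerivAt_integral_of_dominated_loc_of_deriv_le
    (μ := (gm E).prod (gm E)) (s := Set.univ) (x₀ := (0 : ℝ))
    (F := fun θ p => f (ContinuousLinearMap.rotation θ p))
    (F' := fun θ p => f' (ContinuousLinearMap.rotation θ p)
      (-Real.sin θ • p.1 + Real.cos θ • p.2, -Real.cos θ • p.1 + -Real.sin θ • p.2))
    (bound := fun p => 2 * C * ‖ℓ‖ * pw p ^ (n + 2)) univ_mem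
    (Eventually.of_forall fun θ =>
      (hfc.comp (ContinuousLinearMap.rotation θ).continuous).aestronglyMeasurable)
    (by
      have h6 : ∀ p : E × E, ContinuousLinearMap.rotation (0 : ℝ) p = p := by
        intro p
        rw [ContinuousLinearMap.rotation_apply]
        simp
      simp only [h6]
      refine int_of_pw hfc (C := C * ‖ℓ‖) (n := n + 1) fun p => ?_
      rw [hf]
      simp only [norm_mul]
      have hpw := one_le_pw p
      have e1 : 1 + ‖p.1‖ ≤ pw p := by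
        unfold pw
        nlinarith [norm_nonneg p.1, norm_nonneg p.2, mul_nonneg (norm_nonneg p.1) (norm_nonneg p.2)]
      have e2 : ‖p.2‖ ≤ pw p := by
        unfold pw
        nlinarith [norm_nonneg p.1, norm_nonneg p.2, mul_nonneg (norm_nonneg p.1) (norm_nonneg p.2)]
      calc ‖φ p.1‖ * ‖ℓ p.2‖ ≤ (C * pw p ^ n) * (‖ℓ‖ * pw p) := by
            refine mul_le_mul ((h1 _).trans ?_) ((ℓ.le_opNorm _).trans ?_) (norm_nonneg _)
              (by positivity)
            · exact mul_le_mul_of_nonneg_left (pow_le_pow_left₀ (by positivity) e1 n) hC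
            · exact mul_le_mul_of_nonneg_left e2 (norm_nonneg _)
        _ = C * ‖ℓ‖ * pw p ^ (n + 1) := by ring)
    (by
      refine Continuous.aestronglyMeasurable ?_
      refine hc'.comp (Continuous.prodMk (ContinuousLinearMap.rotation (0 : ℝ)).continuous ?_)
      fun_prop)
    (Eventually.of_forall fun p θ _ => hb θ p)
    ((int_pw (n + 2)).const_mul _)
    (Eventually.of_forall fun p θ _ => rot_deriv hfd p θ)
  obtain ⟨hint, hder⟩ := hmain
  have hzero : ∫ p, f' (ContinuousLinearMap.rotation (0 : ℝ) p)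
      (-Real.sin 0 • p.1 + Real.cos 0 • p.2, -Real.cos 0 • p.1 + -Real.sin 0 • p.2)
        ∂((gm E).prod (gm E)) = 0 := by
    have h7 : HasDerivAt (fun _ : ℝ => (0 : ℂ)) 0 (0 : ℝ) := hasDerivAt_const _ _
    simp only [hS] at hder
    exact hder.unique h7
  have h8 : ∀ p : E × E, f' (ContinuousLinearMap.rotation (0 : ℝ) p)
      (-Real.sin 0 • p.1 + Real.cos 0 • p.2, -Real.cos 0 • p.1 + -Real.sin 0 • p.2) =
      φ' p.1 p.2 * ℓ p.2 - φ p.1 * ℓ p.1 := by
    intro p
    have h6 : ContinuousLinearMap.rotation (0 : ℝ) p = p := by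
      rw [ContinuousLinearMap.rotation_apply]
      simp
    rw [h6]
    simp [hf']
    ring
  simp only [h8] at hzero hint
  have hi2 : Integrable (fun p : E × E => φ p.1 * ℓ p.1) ((gm E).prod (gm E)) := by
    have h9 : Integrable (fun y : E => φ y * ℓ y) (gm E) := by
      refine int_of_growth (C := C * ‖ℓ‖) (n := n + 1) (by fun_prop) fun y => ?_
      rw [norm_mul]
      calc ‖φ y‖ * ‖ℓ y‖ ≤ (C * (1 + ‖y‖) ^ n) * (‖ℓ‖ * (1 + ‖y‖)) := by
            refine mul_le_mul (h1 y) ((ℓ.le_opNorm _).trans ?_) (norm_nonneg _) (by positivity)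
            exact mul_le_mul_of_nonneg_left (by linarith) (norm_nonneg _)
        _ = C * ‖ℓ‖ * (1 + ‖y‖) ^ (n + 1) := by ring
    exact h9.comp_fst (gm E)
  have hi1 : Integrable (fun p : E × E => φ' p.1 p.2 * ℓ p.2) ((gm E).prod (gm E)) := by
    have := hint.add hi2
    refine this.congr (Eventually.of_forall fun p => ?_)
    simp
  rw [integral_sub hi1 hi2, sub_eq_zero] at hzero
  have h10 : ∫ p : E × E, φ p.1 * ℓ p.1 ∂((gm E).prod (gm E)) = ∫ y, φ y * ℓ y ∂(gm E) := by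
    have := integral_fun_fst (μ := gm E) (ν := gm E) (fun y => φ y * ℓ y)
    rw [this]
    simp
  rw [← h10, ← hzero, integral_prod _ hi1]
  refine integral_congr_ae (Eventually.of_forall fun y => ?_)
  beta_reduce
  exact gm_bilin b (φ' y) ℓ

end Pool.Agent.H783.Sig
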