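import Pool.Agent.H783.Sig.ConeS
import Pool.Agent.H783.Hopf.Einstein

/-!
# Definitions for the statement
-/

set_option autoImplicit false

namespace Pool.Agent.H783.Sig

open Finset MeasureTheory
open Pool.Agent.H783.Hopf (SymForm kn secondKind NegSquares)
open Pool.Agent.W666.GB Pool.Agent.W669.HD
open Pool.Agent.Results.MP_5a30bb_gt.SubmanifoldsOfProducts (SecondForm extR sq)

variable {V : Type} [NormedAddCommGroup V] [InnerProductSpace ℝ V] {m : ℕ}

/-- `-R = (1/2) A ∧ A + (1/2) ∑ h_a ∧ h_a - (1/2) ∑ k_b ∧ k_b + ∑ (ξ_c ∧ η_c)²` with any numbers of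
terms, where `A ≥ 0` and `∑ h_a(x,x)² + ∑ k_b(x,x)² ≤ (A(x,x) / 1000)²` for all `x` -/
def SignedCone (A : V → V → ℝ) (R : V → V → V → V → ℝ) : Prop :=
  SymForm A ∧ (∀ x, 0 ≤ A x x) ∧
  ∃ (n n' : ℕ) (h : Fin n → V → V → ℝ) (k : Fin n' → V → V → ℝ) (q : ℕ) (ξ η : Fin q → V),
    (∀ a, SymForm (h a)) ∧ (∀ b, SymForm (k b)) ∧
    (∀ x, ∑ a, h a x x ^ 2 + ∑ b, k b x x ^ 2 ≤ (A x x / 1000) ^ 2) ∧
    ∀ x y z w, R x y z w =
      -(kn A x y z w + ∑ a, kn (h a) x y z w - ∑ b, kn (k b) x y z w +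
        ∑ c, sq (ξ c) (η c) x y z w)

/-- the curvature operator of the second kind of `E` is at most `t (|a|² + (tr a)² / 2)` at every
symmetric matrix `a` -/
def SecondLe (e : OrthonormalBasis (Fin m × Bool) ℝ V) (E : V → V → V → V → ℝ) (t : ℝ) : Prop :=
  ∀ a : Fin m × Bool → Fin m × Bool → ℝ, (∀ i j, a i j = a j i) →
    secondKind e E a ≤ t * (∑ i, ∑ j, a i j ^ 2 + 1 / 2 * (∑ i, a i i) ^ 2)

/-- `R` is Einstein with the Ricci tensor of constant curvature `-κ`, and its curvature operator of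
the second kind is at least `(1 - 1 / 1000000) κ` at the symmetric matrices of trace zero (where that
of the tensor of constant curvature `-κ` equals `κ`) -/
def EinsteinLower (e : OrthonormalBasis (Fin m × Bool) ℝ V) (R : V → V → V → V → ℝ) (κ : ℝ) :
    Prop :=
  (∀ x y, ∑ i, R (e i) x (e i) y = -((2 * m - 1) * κ * inner ℝ x y)) ∧
  ∀ a : Fin m × Bool → Fin m × Bool → ℝ, (∀ i j, a i j = a j i) → ∑ i, a i i = 0 →
    (1 - 1 / 1000000) * κ * ∑ i, ∑ j, a i j ^ 2 ≤ secondKind e R a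

end Pool.Agent.H783.Sig
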