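import Pool.Agent.H783.Sig.Ident

/-!
# A lower bound for the Gaussian mean of a complex weight
-/

set_option autoImplicit false

namespace Pool.Agent.H783.Sig

open MeasureTheory ProbabilityTheory Filter Topology

variable {E : Type} [NormedAddCommGroup E] [InnerProductSpace ℝ E] [FiniteDimensional ℝ E]
  [MeasurableSpace E] [BorelSpace E]
  {X : Type} [NormedAddCommGroup X] [NormedSpace ℂ X] [FiniteDimensional ℂ X]
  {Λ : E →L[ℝ] X} {σ : X → ℝ} {r A s : ℝ}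

theorem iter_cls (hT : Tube Λ σ) (hr : 0 < r) {F : X → ℂ} (hF : Cls σ r A F) (hs : 0 ≤ s)
    {V : X → X} (hVd : DifferentiableOn ℂ V {x | σ x < r}) (hV : ∀ x, σ x < r → ‖V x‖ ≤ s)
    (n : ℕ) : Cls σ r ((4 * s / r) ^ n * A) ((KK Λ V)^[n] F) := by
  induction n with
  | zero => simpa using hF
  | succ n ih =>
    rw [Function.iterate_succ_apply', pow_succ', mul_assoc]
    exact KK_cls hT hr ih hs hVd hV

/-- **The lower bound.** -/
theorem mean_lower {K : Type} [Fintype K] (b : OrthonormalBasis K ℝ E) (hT : Tube Λ σ)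
    (hr : 0 < r) {F : X → ℂ} (hF : Cls σ r A F) (hs : 0 ≤ s) {V : X → X}
    (hVd : DifferentiableOn ℂ V {x | σ x < r}) (hV : ∀ x, σ x < r → ‖V x‖ ≤ s)
    {w : X → ℂ} (hw : Differentiable ℂ w) {C : ℝ} {n : ℕ}
    (hwg : ∀ x, ‖w x‖ ≤ C * (1 + ‖x‖) ^ n)
    (hwV : ∀ (g : E) (L : X →L[ℂ] ℂ),
      ∑ k, fderiv ℂ w (Λ g) (Λ (b k)) * L (Λ (b k)) = w (Λ g) * L (V (Λ g)))
    (h1 : ∀ g, w (Λ g) * F (Λ g) = 1) (hκ : 4 * s / r < 1) :
    1 ≤ ‖∫ g, w (Λ g) ∂(gm E)‖ * (A / r / (1 - 4 * s / r)) := by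
  set κ : ℝ := 4 * s / r with hκd
  have hκ0 : 0 ≤ κ := by positivity
  have hA := hF.nonneg hT hr
  have hcls := fun j => iter_cls hT hr hF hs hVd hV j
  set Z : ℂ := ∫ g, w (Λ g) ∂(gm E) with hZ
  have hid : ∀ j : ℕ, (1 : ℂ) = Z * (∑ i ∈ Finset.range j, ∫ g, (KK Λ V)^[i] F (Λ g) ∂(gm E)) +
      ∫ g, w (Λ g) * (KK Λ V)^[j] F (Λ g) ∂(gm E) := by
    intro j
    induction j with
    | zero =>
      simp only [Finset.range_zero, Finset.sum_empty, mul_zero, zero_add, Function.iterate_zero,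
        id_eq, h1, integral_const, probReal_univ, one_smul]
    | succ j ih =>
      rw [Finset.sum_range_succ, mul_add, Function.iterate_succ_apply']
      have h2 := KK_id b hT hr (hcls j) hs hVd hV hw hwg hwV
      rw [ih]
      linear_combination h2
  have hbF : ∀ j, ‖∫ g, (KK Λ V)^[j] F (Λ g) ∂(gm E)‖ ≤ κ ^ j * A / r := by
    intro j
    have h2 := norm_integral_le_of_norm_le_const (μ := gm E)
      (Eventually.of_forall fun g => (hcls j).real_bound hT hr g)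
    simpa using h2
  have hsum : ∀ j, ‖∑ i ∈ Finset.range j, ∫ g, (KK Λ V)^[i] F (Λ g) ∂(gm E)‖ ≤
      A / r / (1 - κ) := by
    intro j
    have h2 : ∑ i ∈ Finset.range j, κ ^ i ≤ (1 - κ)⁻¹ := by
      have h3 := summable_geometric_of_lt_one hκ0 hκ
      have h4 := h3.sum_le_tsum (Finset.range j) (fun i _ => pow_nonneg hκ0 i)
      rwa [tsum_geometric_of_lt_one hκ0 hκ] at h4
    calc ‖∑ i ∈ Finset.range j, ∫ g, (KK Λ V)^[i] F (Λ g) ∂(gm E)‖
        ≤ ∑ i ∈ Finset.range j, κ ^ i * A / r := norm_sum_le_of_le _ fun i _ => hbF i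
      _ = (A / r) * ∑ i ∈ Finset.range j, κ ^ i := by
          rw [Finset.mul_sum]
          exact Finset.sum_congr rfl fun i _ => by ring
      _ ≤ (A / r) * (1 - κ)⁻¹ := mul_le_mul_of_nonneg_left h2 (by positivity)
      _ = A / r / (1 - κ) := by rw [div_eq_mul_inv (A / r)]
  have hwi : Integrable (fun g => ‖w (Λ g)‖) (gm E) := by
    have hC : 0 ≤ C := by
      have := (norm_nonneg _).trans (hwg 0)
      simpa using this
    refine int_of_growth (C := C * (1 + ‖Λ‖) ^ n) (n := n)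
      ((hw.continuous.comp Λ.continuous).norm) fun g => ?_
    rw [norm_norm]
    refine (hwg _).trans ?_
    rw [mul_assoc, ← mul_pow]
    refine mul_le_mul_of_nonneg_left (pow_le_pow_left₀ (by positivity) ?_ n) hC
    have := Λ.le_opNorm g
    nlinarith [norm_nonneg g, norm_nonneg Λ]
  have hrem : ∀ j, ‖∫ g, w (Λ g) * (KK Λ V)^[j] F (Λ g) ∂(gm E)‖ ≤
      κ ^ j * (A / r * ∫ g, ‖w (Λ g)‖ ∂(gm E)) := by
    intro j
    have h2 : ‖∫ g, w (Λ g) * (KK Λ V)^[j] F (Λ g) ∂(gm E)‖ ≤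
        ∫ g, ‖w (Λ g)‖ * (κ ^ j * A / r) ∂(gm E) := by
      refine norm_integral_le_of_norm_le (hwi.mul_const _) (Eventually.of_forall fun g => ?_)
      rw [norm_mul]
      exact mul_le_mul_of_nonneg_left ((hcls j).real_bound hT hr g) (norm_nonneg _)
    rw [integral_mul_const] at h2
    refine h2.trans (le_of_eq (by ring))
  have hlim : Tendsto (fun j : ℕ => ‖Z‖ * (A / r / (1 - κ)) +
      κ ^ j * (A / r * ∫ g, ‖w (Λ g)‖ ∂(gm E))) atTop (𝓝 (‖Z‖ * (A / r / (1 - κ)) +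
        0 * (A / r * ∫ g, ‖w (Λ g)‖ ∂(gm E)))) :=
    tendsto_const_nhds.add ((tendsto_pow_atTop_nhds_zero_of_lt_one hκ0 hκ).mul_const _)
  rw [zero_mul, add_zero] at hlim
  refine ge_of_tendsto hlim (Eventually.of_forall fun j => ?_)
  calc (1 : ℝ) = ‖(1 : ℂ)‖ := by simp
    _ ≤ ‖Z * (∑ i ∈ Finset.range j, ∫ g, (KK Λ V)^[i] F (Λ g) ∂(gm E))‖ +
        ‖∫ g, w (Λ g) * (KK Λ V)^[j] F (Λ g) ∂(gm E)‖ := by
          conv_lhs => rw [hid j]
          exact norm_add_le _ _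
    _ ≤ _ := by
          refine add_le_add ?_ (hrem j)
          rw [norm_mul]
          exact mul_le_mul_of_nonneg_left (hsum j) (norm_nonneg _)

end Pool.Agent.H783.Sig
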