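import Pool.Agent.H783.Sig.Acc
import Pool.Agent.H783.Sig.Zero

/-!
# The complex weight `det (1 + i ∑ x_b k_b)`
-/

set_option autoImplicit false

namespace Pool.Agent.H783.Sig

open Finset Pool.Agent.H783.Hopf MeasureTheory
open scoped ComplexConjugate

variable {J : Type} [Fintype J] [DecidableEq J] {K : Type} [Fintype K]

/-- complexification of a real matrix -/
noncomputable def cx (S : J → J → ℝ) : Matrix J J ℂ := Matrix.of fun i j => (S i j : ℂ)

/-- the matrix `1 + i ∑ x_b k_b` -/
noncomputable def mt (k : K → J → J → ℝ) (x : EuclideanSpace ℂ K) : Matrix J J ℂ :=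
  1 + Complex.I • ∑ b, x b • cx (k b)

theorem mt_apply (k : K → J → J → ℝ) (x : EuclideanSpace ℂ K) (i j : J) :
    mt k x i j = (1 : Matrix J J ℂ) i j + Complex.I * ∑ b, x b * (k b i j : ℂ) := by
  unfold mt cx
  simp only [Matrix.add_apply, Matrix.smul_apply, Matrix.sum_apply, Matrix.of_apply, smul_eq_mul]

/-- imaginary part -/
noncomputable def imv (x : EuclideanSpace ℂ K) : EuclideanSpace ℝ K :=
  WithLp.toLp 2 fun b => (x b).im

/-- real part -/
noncomputable def rev (x : EuclideanSpace ℂ K) : EuclideanSpace ℝ K :=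
  WithLp.toLp 2 fun b => (x b).re

/-- real vectors as complex vectors -/
noncomputable def emb : EuclideanSpace ℝ K →L[ℝ] EuclideanSpace ℂ K :=
  LinearMap.toContinuousLinearMap
    { toFun := fun g => WithLp.toLp 2 fun b => (g b : ℂ)
      map_add' := fun x y => by
        ext b
        simp
      map_smul' := fun c x => by
        ext b
        simp }

theorem emb_apply (g : EuclideanSpace ℝ K) (b : K) : emb g b = (g b : ℂ) := rfl

theorem imv_le (x : EuclideanSpace ℂ K) : ‖imv x‖ ≤ ‖x‖ := by
  rw [EuclideanSpace.norm_eq, EuclideanSpace.norm_eq]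
  refine Real.sqrt_le_sqrt (Finset.sum_le_sum fun b _ => ?_)
  refine pow_le_pow_left₀ (norm_nonneg _) ?_ 2
  simp only [imv]
  rw [Real.norm_eq_abs]
  exact Complex.abs_im_le_norm (x b)

theorem imv_add (x y : EuclideanSpace ℂ K) : imv (x + y) = imv x + imv y := by
  ext b
  simp [imv]

theorem tube : Tube (emb (K := K)) (fun x => ‖imv x‖) where
  nonneg x := norm_nonneg _
  add x y := by
    rw [imv_add]
    exact (norm_add_le _ _).trans (add_le_add_right (imv_le y) _)
  comb x g c := by
    have h : imv ((c : ℂ) • x + emb g) = c • imv x := by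
      ext b
      simp [imv, emb_apply]
    rw [h, norm_smul, Real.norm_eq_abs]

theorem mt_diff (k : K → J → J → ℝ) (i j : J) : Differentiable ℂ fun x => mt k x i j := by
  simp only [mt_apply]
  have h : ∀ b : K, Differentiable ℂ fun x : EuclideanSpace ℂ K => x b := fun b =>
    (EuclideanSpace.proj (𝕜 := ℂ) b).differentiable
  refine (differentiable_const _).add ((Differentiable.fun_sum fun b _ => ?_).const_mul _)
  exact (h b).mul_const _

/-- finite products -/
theorem prod_diff {X : Type} [NormedAddCommGroup X] [NormedSpace ℂ X] {ι : Type}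
    [DecidableEq ι] (s : Finset ι) {f : ι → X → ℂ} (h : ∀ i, Differentiable ℂ (f i)) :
    Differentiable ℂ fun x => ∏ i ∈ s, f i x := by
  induction s using Finset.induction_on with
  | empty => simp
  | insert a s ha ih =>
    have h1 : (fun x => ∏ i ∈ insert a s, f i x) = fun x => f a x * ∏ i ∈ s, f i x := by
      funext x
      rw [Finset.prod_insert ha]
    rw [h1]
    exact (h a).mul ih

/-- the determinant of a matrix of differentiable functions -/
theorem det_diff {X : Type} [NormedAddCommGroup X] [NormedSpace ℂ X] {M : X → Matrix J J ℂ}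
    (h : ∀ i j, Differentiable ℂ fun x => M x i j) : Differentiable ℂ fun x => (M x).det := by
  simp only [Matrix.det_apply']
  refine Differentiable.fun_sum fun σ _ => (Differentiable.const_mul ?_ _)
  exact prod_diff Finset.univ fun i => h (σ i) i

theorem adj_diff {X : Type} [NormedAddCommGroup X] [NormedSpace ℂ X] {M : X → Matrix J J ℂ}
    (h : ∀ i j, Differentiable ℂ fun x => M x i j) (a b : J) :
    Differentiable ℂ fun x => (M x).adjugate a b := by
  simp only [Matrix.adjugate_apply]
  refine det_diff fun i j => ?_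
  by_cases hi : i = b
  · subst hi
    simp only [Matrix.updateRow_self]
    exact differentiable_const _
  · simp only [Matrix.updateRow_ne hi]
    exact h i j

/-- the vector field -/
noncomputable def vf (k : K → J → J → ℝ) (x : EuclideanSpace ℂ K) : EuclideanSpace ℂ K :=
  WithLp.toLp 2 fun b => ((mt k x).adjugate * (Complex.I • cx (k b))).trace / (mt k x).det

theorem vf_apply (k : K → J → J → ℝ) (x : EuclideanSpace ℂ K) (b : K) :
    vf k x b = ((mt k x).adjugate * (Complex.I • cx (k b))).trace / (mt k x).det := rfl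

theorem vf_eq (k : K → J → J → ℝ) (x : EuclideanSpace ℂ K) (b : K) :
    vf k x b = ((mt k x)⁻¹ * (Complex.I • cx (k b))).trace := by
  rw [vf_apply, Matrix.inv_def, Ring.inverse_eq_inv', Matrix.smul_mul, Matrix.trace_smul,
    smul_eq_mul, div_eq_inv_mul]

theorem vf_diff (k : K → J → J → ℝ) {O : Set (EuclideanSpace ℂ K)}
    (hO : ∀ x ∈ O, (mt k x).det ≠ 0) : DifferentiableOn ℂ (vf k) O := by
  rw [differentiableOn_euclidean]
  intro b
  simp only [vf_apply]
  simp only [div_eq_mul_inv]
  refine DifferentiableOn.mul ?_ ((det_diff (mt_diff k)).differentiableOn.fun_inv hO)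
  refine Differentiable.differentiableOn ?_
  simp only [Matrix.trace, Matrix.diag_apply, Matrix.mul_apply]
  refine Differentiable.fun_sum fun i _ => Differentiable.fun_sum fun j _ => ?_
  exact (adj_diff (mt_diff k) i j).mul_const _

/-- derivative of the determinant along a line -/
theorem det_line (M N : Matrix J J ℂ) (hM : M.det ≠ 0) :
    HasDerivAt (fun ζ : ℂ => (M + ζ • N).det) (M.det * (M⁻¹ * N).trace) 0 := by
  have hu : IsUnit M.det := isUnit_iff_ne_zero.mpr hM
  have h1 : ∀ ζ : ℂ, (M + ζ • N).det = M.det * (1 + (M⁻¹ * N).trace * ζ +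
      (Matrix.det (1 + (Polynomial.X : Polynomial ℂ) • (M⁻¹ * N).map Polynomial.C)).divX.divX.eval
        ζ * ζ ^ 2) := by
    intro ζ
    rw [← Matrix.det_one_add_smul, ← Matrix.det_mul, Matrix.mul_add, Matrix.mul_one,
      Matrix.mul_smul, ← Matrix.mul_assoc, Matrix.mul_nonsing_inv M hu, Matrix.one_mul]
  simp only [h1]
  set P := (Matrix.det (1 + (Polynomial.X : Polynomial ℂ) •
    (M⁻¹ * N).map Polynomial.C)).divX.divX with hP
  have h2 : HasDerivAt (fun ζ : ℂ => P.eval ζ * ζ ^ 2) 0 0 := by
    have h3 := (P.hasDerivAt (0 : ℂ)).mul (hasDerivAt_pow 2 (0 : ℂ))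
    refine h3.congr_deriv ?_
    simp
  have h4 : HasDerivAt (fun ζ : ℂ => 1 + (M⁻¹ * N).trace * ζ) (M⁻¹ * N).trace 0 := by
    have h5 := ((hasDerivAt_id (0 : ℂ)).const_mul (M⁻¹ * N).trace).const_add 1
    simpa using h5
  have h6 := (h4.add h2).const_mul M.det
  refine h6.congr_deriv (by ring)

theorem mt_line (k : K → J → J → ℝ) (x v : EuclideanSpace ℂ K) (ζ : ℂ) :
    mt k (x + ζ • v) = mt k x + ζ • (Complex.I • ∑ b, v b • cx (k b)) := by
  ext i j
  simp only [mt_apply, Matrix.add_apply, Matrix.smul_apply, Matrix.sum_apply, cx, Matrix.of_apply,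
    smul_eq_mul, PiLp.add_apply, PiLp.smul_apply, add_mul, Finset.sum_add_distrib]
  have h : ∑ b, ζ * v b * (k b i j : ℂ) = ζ * ∑ b, v b * (k b i j : ℂ) := by
    rw [Finset.mul_sum]
    exact Finset.sum_congr rfl fun b _ => by ring
  rw [h]
  ring

/-- derivative of the weight -/
theorem fderiv_weight (k : K → J → J → ℝ) (x v : EuclideanSpace ℂ K) (h : (mt k x).det ≠ 0) :
    fderiv ℂ (fun x => (mt k x).det) x v =
      (mt k x).det * ((mt k x)⁻¹ * (Complex.I • ∑ b, v b • cx (k b))).trace := by
  have h1 := det_line (mt k x) (Complex.I • ∑ b, v b • cx (k b)) h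
  have h2 : HasDerivAt (fun ζ : ℂ => (mt k (x + ζ • v)).det)
      (fderiv ℂ (fun x => (mt k x).det) x v) 0 := by
    have h3 : HasFDerivAt (fun x => (mt k x).det) (fderiv ℂ (fun x => (mt k x).det) x)
        (x + (0 : ℂ) • v) := by
      rw [zero_smul, add_zero]
      exact (det_diff (mt_diff k) x).hasFDerivAt
    have h4 : HasDerivAt (fun ζ : ℂ => x + ζ • v) v 0 := by
      have := ((hasDerivAt_id (0 : ℂ)).smul_const v).const_add x
      simpa using this
    exact h3.comp_hasDerivAt (0 : ℂ) h4
  simp only [mt_line] at h2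
  exact h2.unique h1

end Pool.Agent.H783.Sig
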